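import Pool.Agent.W_68f289_h35m.Stmt

/-!
Short names used in the statement of the Calabi alternative.
-/

open Pool.Agent.W_MP_68f289_gt

namespace Pool.Agent.W_68f289_h35

/-- homomorphisms to the additive group of real numbers -/
def IsChar {Γ : Type} [Group Γ] (C : Γ → ℝ) : Prop := ∀ u v : Γ, C (u * v) = C u + C v

variable {n : ℕ}

/-- `u` is the end point of a topological Hamiltonian path with Hamiltonians `H k` -/
def EndsAt (u : Hm n) (H : ℕ → ℝ → E n → ℝ) : Prop :=
  ∃ K ψ Φ, TPath n K H ψ Φ ∧ endp Φ = (u : E n ≃ₜ E n)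

/-- the Calabi invariants of the Hamiltonians `H k` converge to `c` -/
def CalLim (H : ℕ → ℝ → E n → ℝ) (c : ℝ) : Prop :=
  Filter.Tendsto (fun k => cal (H k)) Filter.atTop (nhds c)

/-- `D` extends `C` from `Hameo n` to `HamBar n` -/
def Extends (D : G n → ℝ) (C : Hm n → ℝ) : Prop :=
  ∀ (u : Hm n) (v : G n), (v : E n ≃ₜ E n) = u → D v = C u

/-- `N` is normalised by the commutator subgroup of `Hameo n` -/
def NormC (N : Subgroup (Hm n)) : Prop := ∀ g ∈ commutator (Hm n), ∀ u ∈ N, g * u * g⁻¹ ∈ N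

end Pool.Agent.W_68f289_h35
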