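import Pool.Agent.W_MP_68f289_gt.Ham

section

/-!
Symplectic linear algebra.
-/

open Set Metric Topology Pool.Agent.W_MP_68f289_gt
open scoped NNReal ContDiff

namespace Pool.Agent.W_68f289_h35

variable {n : ℕ}

/-- the standard symplectic form -/
def om {n : ℕ} (v w : E n) : ℝ := ∑ i, (v.1 i * w.2 i - v.2 i * w.1 i)

/-- linear maps preserving the symplectic form -/
def Symp {n : ℕ} (A : E n →L[ℝ] E n) : Prop := ∀ v w, om (A v) (A w) = om v w

lemma om_add_left (u v w : E n) : om (u + v) w = om u w + om v w := by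
  unfold om
  rw [← Finset.sum_add_distrib]
  refine Finset.sum_congr rfl fun i _ => ?_
  simp only [Prod.fst_add, Prod.snd_add, Pi.add_apply]
  ring

lemma om_smul_left (c : ℝ) (v w : E n) : om (c • v) w = c * om v w := by
  unfold om
  rw [Finset.mul_sum]
  refine Finset.sum_congr rfl fun i _ => ?_
  simp only [Prod.smul_fst, Prod.smul_snd, Pi.smul_apply, smul_eq_mul]
  ring

lemma om_swap (v w : E n) : om v w = -om w v := by
  unfold om
  rw [← Finset.sum_neg_distrib]
  refine Finset.sum_congr rfl fun i _ => ?_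
  ring

/-- nondegeneracy: test against `(uv i, 0)` and `(0, uv i)` -/
lemma om_nondeg {v : E n} (h : ∀ w, om v w = 0) : v = 0 := by
  have h1 : ∀ i, v.1 i = 0 := by
    intro i
    have h2 := h ((0 : Fin n → ℝ), uv i)
    unfold om uv at h2
    simpa [Pi.single_apply] using h2
  have h3 : ∀ i, v.2 i = 0 := by
    intro i
    have h2 := h (uv i, (0 : Fin n → ℝ))
    unfold om uv at h2
    simpa [Pi.single_apply] using h2
  exact Prod.ext (funext h1) (funext h3)

/-- `om` is smooth (it is a polynomial); stated as a continuous bilinear map. -/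
lemma exists_om_clm (n : ℕ) : ∃ B : E n →L[ℝ] E n →L[ℝ] ℝ, ∀ v w, B v w = om v w := by
  let B : E n →ₗ[ℝ] E n →ₗ[ℝ] ℝ := LinearMap.mk₂ ℝ om om_add_left om_smul_left
    (fun u v w => by rw [om_swap, om_add_left, om_swap v, om_swap w]; ring)
    (fun c v w => by rw [om_swap, om_smul_left, om_swap w, smul_eq_mul]; ring)
  refine ⟨LinearMap.toContinuousLinearMap
    ((LinearMap.toContinuousLinearMap : (E n →ₗ[ℝ] ℝ) ≃ₗ[ℝ] (E n →L[ℝ] ℝ)).toLinearMap.comp B), ?_⟩
  intro v w
  rfl

/-- the defining property of the Hamiltonian vector field: decompose `w` as the sum of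
`w.1 i • (uv i, 0)` and `w.2 i • (0, uv i)` -/
lemma om_XH (h : E n → ℝ) (z w : E n) : om (XH h z) w = fderiv ℝ h z w := by
  have hw : w = ∑ i, (w.1 i • ((uv i, 0) : E n) + w.2 i • ((0, uv i) : E n)) := by
    refine Prod.ext (funext fun j => ?_) (funext fun j => ?_)
    · rw [Prod.fst_sum, Finset.sum_apply]
      simp [uv, Pi.single_apply]
    · rw [Prod.snd_sum, Finset.sum_apply]
      simp [uv, Pi.single_apply]
  conv_rhs => rw [hw]
  rw [map_sum]
  unfold om XH dd
  refine Finset.sum_congr rfl fun i _ => ?_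
  rw [map_add, map_smul, map_smul, smul_eq_mul, smul_eq_mul]
  ring

/-- symplectic linear maps are injective, hence bijective: `A v = 0` gives `om v w = 0` for all `w` -/
lemma Symp.bijective {A : E n →L[ℝ] E n} (hA : Symp A) : Function.Bijective A := by
  have hinj : Function.Injective A := by
    rw [injective_iff_map_eq_zero]
    intro v hv
    refine om_nondeg fun w => ?_
    rw [← hA, hv]
    unfold om
    simp
  refine ⟨hinj, ?_⟩
  exact (LinearMap.injective_iff_surjective (f := (A : E n →ₗ[ℝ] E n))).1 hinj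

lemma Symp.comp {A B : E n →L[ℝ] E n} (hA : Symp A) (hB : Symp B) : Symp (A.comp B) := by
  intro v w
  rw [ContinuousLinearMap.comp_apply, ContinuousLinearMap.comp_apply, hA, hB]

/-- if `A` is symplectic and `A (B v) = v` then `B` is symplectic -/
lemma Symp.of_right_inv {A B : E n →L[ℝ] E n} (hA : Symp A) (h : ∀ v, A (B v) = v) : Symp B := by
  intro v w
  rw [← hA, h, h]

end Pool.Agent.W_68f289_h35

end

section

/-!
Transformation of Hamiltonian vector fields.
-/

open Set Metric Topology Pool.Agent.W_MP_68f289_gt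
open scoped NNReal ContDiff

namespace Pool.Agent.W_68f289_h35

variable {n : ℕ}

lemma om_ext {u v : E n} (h : ∀ w, om u w = om v w) : u = v := by
  have h1 : u + (-1 : ℝ) • v = 0 := by
    refine om_nondeg fun w => ?_
    rw [om_add_left, om_smul_left, h w]
    ring
  have h2 : u + (-1 : ℝ) • v = u - v := by
    rw [neg_one_smul, sub_eq_add_neg]
  rw [h2] at h1
  exact sub_eq_zero.1 h1

/-- transformation law: test the two sides against `A w` with `A = fderiv ℝ g x` surjective, by
`om_XH` and the chain rule -/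
lemma XH_comp {g : E n → E n} {h : E n → ℝ} {x : E n} (hg : DifferentiableAt ℝ g x)
    (hs : Symp (fderiv ℝ g x)) (hh : DifferentiableAt ℝ h (g x)) :
    fderiv ℝ g x (XH (fun y => h (g y)) x) = XH h (g x) := by
  refine om_ext fun w => ?_
  obtain ⟨w', rfl⟩ := hs.bijective.2 w
  rw [hs, om_XH, om_XH]
  have h1 : fderiv ℝ (fun y => h (g y)) x = (fderiv ℝ h (g x)).comp (fderiv ℝ g x) :=
    fderiv_comp x hh hg
  rw [h1]
  rfl

lemma XH_add {h k : E n → ℝ} {z : E n} (hh : DifferentiableAt ℝ h z)
    (hk : DifferentiableAt ℝ k z) : XH (fun x => h x + k x) z = XH h z + XH k z := by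
  refine om_ext fun w => ?_
  rw [om_add_left, om_XH, om_XH, om_XH]
  have h1 : fderiv ℝ (fun y => h y + k y) z = fderiv ℝ h z + fderiv ℝ k z :=
    fderiv_add hh hk
  rw [h1]
  rfl

/-- sup norm bound of the Hamiltonian vector field by the derivative (`‖(0, uv i)‖ = ‖(uv i, 0)‖ ≤ 1`) -/
lemma norm_XH_le (h : E n → ℝ) (z : E n) : ‖XH h z‖ ≤ ‖fderiv ℝ h z‖ := by
  have huv : ∀ i : Fin n, ‖(uv i : Fin n → ℝ)‖ ≤ 1 := by
    intro i
    rw [pi_norm_le_iff_of_nonneg zero_le_one]
    intro j
    unfold uv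
    by_cases hij : j = i
    · subst hij
      rw [Pi.single_eq_same]
      simp
    · rw [Pi.single_eq_of_ne hij]
      simp
  have h1 : ∀ w : E n, ‖w‖ ≤ 1 → ‖dd h z w‖ ≤ ‖fderiv ℝ h z‖ := by
    intro w hw
    unfold dd
    refine ((fderiv ℝ h z).le_opNorm w).trans ?_
    exact mul_le_of_le_one_right (norm_nonneg _) hw
  have h2 : ∀ i : Fin n, ‖((0, uv i) : E n)‖ ≤ 1 := by
    intro i
    rw [Prod.norm_def]
    exact max_le (by simp) (huv i)
  have h3 : ∀ i : Fin n, ‖((uv i, 0) : E n)‖ ≤ 1 := by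
    intro i
    rw [Prod.norm_def]
    exact max_le (huv i) (by simp)
  rw [Prod.norm_def]
  refine max_le ?_ ?_
  · rw [pi_norm_le_iff_of_nonneg (norm_nonneg _)]
    intro i
    exact h1 _ (h2 i)
  · rw [pi_norm_le_iff_of_nonneg (norm_nonneg _)]
    intro i
    have h4 := h1 _ (h3 i)
    unfold XH
    simpa using h4

end Pool.Agent.W_68f289_h35

end

section

/-!
Determinant of symplectic maps.
-/

open Set Metric Topology Pool.Agent.W_MP_68f289_gt
open scoped NNReal ContDiff

namespace Pool.Agent.W_68f289_h35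

variable {n : ℕ}

/-- Symplectic linear maps have determinant `± 1`. Proof: in the basis of `E n` given by
`(Pi.basisFun ℝ (Fin n)).prod (Pi.basisFun ℝ (Fin n))` the form has the matrix
`Matrix.J (Fin n) ℝ` up to sign and `hA` says `Mᵀ J M = J`, that is `M ∈ Matrix.symplecticGroup`
(`SymplecticGroup.mem_iff'`, its determinant is a unit of square one), or take determinants
directly: `det J ≠ 0` as `J * J = -1`. Alternatively: `A⁻¹ = J⁻¹ Aᵀ J`. -/
lemma Symp.abs_det {A : E n →L[ℝ] E n} (hA : Symp A) : |A.det| = 1 := by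
  classical
  let B : E n →ₗ[ℝ] E n →ₗ[ℝ] ℝ := LinearMap.mk₂ ℝ om om_add_left om_smul_left
    (fun u v w => by rw [om_swap, om_add_left, om_swap v, om_swap w]; ring)
    (fun c v w => by rw [om_swap, om_smul_left, om_swap w, smul_eq_mul]; ring)
  let b : Module.Basis (Fin n ⊕ Fin n) ℝ (E n) :=
    (Pi.basisFun ℝ (Fin n)).prod (Pi.basisFun ℝ (Fin n))
  let L : E n →ₗ[ℝ] E n := (A : E n →ₗ[ℝ] E n)
  have hB : B.compl₁₂ L L = B := by
    refine LinearMap.ext fun v => LinearMap.ext fun w => ?_
    exact hA v w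
  have hJ : LinearMap.toMatrix₂ b b B = (Matrix.J (Fin n) ℝ).transpose := by
    ext i j
    rw [LinearMap.toMatrix₂_apply, Matrix.transpose_apply, Matrix.J]
    have hom : ∀ v w, B v w = ∑ i, (v.1 i * w.2 i - v.2 i * w.1 i) := fun v w => rfl
    rw [hom]
    rcases i with i | i <;> rcases j with j | j <;>
      simp [b, Module.Basis.prod_apply, Pi.single_apply, Matrix.one_apply]
  have hM := LinearMap.toMatrix₂_compl₁₂ b b b b B L L
  rw [hB, hJ] at hM
  have hd := congrArg Matrix.det hM
  rw [Matrix.det_mul, Matrix.det_mul, Matrix.det_transpose, Matrix.det_transpose,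
    LinearMap.det_toMatrix] at hd
  have hJd : (Matrix.J (Fin n) ℝ).det ≠ 0 := (Matrix.isUnit_det_J (Fin n) ℝ).ne_zero
  have hAd : A.det = LinearMap.det L := rfl
  rw [hAd]
  have h2 : LinearMap.det L * LinearMap.det L = 1 := by
    have h3 : (Matrix.J (Fin n) ℝ).det * (LinearMap.det L * LinearMap.det L) =
        (Matrix.J (Fin n) ℝ).det * 1 := by
      rw [mul_one]
      nth_rewrite 2 [hd]
      ring
    exact mul_left_cancel₀ hJd h3
  have h4 : |LinearMap.det L| * |LinearMap.det L| = 1 := by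
    rw [← abs_mul, h2, abs_one]
  nlinarith [abs_nonneg (LinearMap.det L)]

end Pool.Agent.W_68f289_h35

end
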