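import Pool.Agent.W_68f289_h35m.Os
import Pool.Agent.W_68f289_h35m.Sy
import Pool.Agent.W_MP_68f289_gt.Gn

section

/-!
Approximation by sums of translated bumps.
-/

open Set Metric Topology Pool.Agent.W_MP_68f289_gt MeasureTheory Filter
open scoped NNReal ContDiff

namespace Pool.Agent.W_68f289_h35

variable {n : ℕ}

section ApA_aux

set_option linter.unusedSectionVars false

variable {G : Type*} [NormedAddCommGroup G] {V : Type} [NormedAddCommGroup V] [NormedSpace ℝ V]
  [FiniteDimensional ℝ V] [MeasureSpace V] [BorelSpace V] [(volume : Measure V).IsAddHaarMeasure]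

/-- uniform continuity in space, uniformly in time -/
lemma ApA_unif {F : ℝ → V → G} (hF : Continuous (Function.uncurry F)) {K : Set (V)}
    (hc : IsCompact K) (hK : ∀ t x, x ∉ K → F t x = 0) {η : ℝ} (hη : 0 < η) :
    ∃ δ > 0, ∀ t ∈ Icc (0 : ℝ) 1, ∀ x y : V, dist x y ≤ δ → ‖F t x - F t y‖ ≤ η := by
  let f : Icc (0 : ℝ) 1 × V → G := fun p => F p.1 p.2
  have hf : Continuous f :=
    hF.comp ((continuous_subtype_val.comp continuous_fst).prodMk continuous_snd)
  have hs : HasCompactSupport f := by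
    refine HasCompactSupport.intro ((isCompact_univ (X := Icc (0 : ℝ) 1)).prod hc) ?_
    rintro ⟨t, x⟩ h
    exact hK _ _ fun hx => h ⟨trivial, hx⟩
  have hu := hs.uniformContinuous_of_continuous hf
  obtain ⟨δ, hδ, h⟩ := Metric.uniformContinuous_iff.1 hu η hη
  refine ⟨δ / 2, by positivity, fun t ht x y hxy => ?_⟩
  have h1 : dist ((⟨t, ht⟩ : Icc (0 : ℝ) 1), x) ((⟨t, ht⟩ : Icc (0 : ℝ) 1), y) < δ := by
    rw [Prod.dist_eq, dist_self]
    exact max_lt hδ (by linarith)
  have h2 := h h1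
  rw [dist_eq_norm] at h2
  exact h2.le

/-- bound, uniformly in time -/
lemma ApA_bound {F : ℝ → V → G} (hF : Continuous (Function.uncurry F)) {K : Set (V)}
    (hc : IsCompact K) (hK : ∀ t x, x ∉ K → F t x = 0) :
    ∃ M : ℝ, 0 ≤ M ∧ ∀ t ∈ Icc (0 : ℝ) 1, ∀ x : V, ‖F t x‖ ≤ M := by
  obtain ⟨C, hC⟩ := (isCompact_Icc (a := (0 : ℝ)) (b := 1)).prod hc
    |>.exists_bound_of_continuousOn hF.continuousOn
  refine ⟨max C 0, le_max_right _ _, fun t ht x => ?_⟩
  by_cases hx : x ∈ K
  · exact (hC (t, x) ⟨ht, hx⟩).trans (le_max_left _ _)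
  · rw [hK t x hx, norm_zero]
    exact le_max_right _ _

/-- a partition of a compact set into small pieces -/
lemma ApA_part {K : Set (V)} (hc : IsCompact K) {δ : ℝ} (hδ : 0 < δ) :
    ∃ (m : ℕ) (Q : Fin m → Set (V)) (c : Fin m → V), (∀ j, MeasurableSet (Q j)) ∧
      Pairwise (fun i j => Disjoint (Q i) (Q j)) ∧ (⋃ j, Q j) = K ∧ (∀ j, c j ∈ K) ∧
      ∀ j, ∀ y ∈ Q j, dist y (c j) ≤ δ := by
  obtain ⟨t, htK, htf, htc⟩ := hc.finite_cover_balls hδ
  obtain ⟨m, c, hinj, hrange⟩ : ∃ (m : ℕ) (c : Fin m → V), Function.Injective c ∧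
      Set.range c = t := by
    have := htf.fintype
    refine ⟨Fintype.card t, fun i => ((Fintype.equivFin t).symm i : t), ?_, ?_⟩
    · intro i j h
      exact (Fintype.equivFin t).symm.injective (Subtype.ext h)
    · ext x
      constructor
      · rintro ⟨i, rfl⟩
        exact Subtype.coe_prop _
      · intro hx
        exact ⟨Fintype.equivFin t ⟨x, hx⟩, by simp⟩
  refine ⟨m, fun j => (K ∩ ball (c j) δ) \ ⋃ i : Fin m, ⋃ _ : i < j, ball (c i) δ, c, ?_, ?_, ?_,
    ?_, ?_⟩
  · intro j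
    exact (hc.measurableSet.inter measurableSet_ball).diff
      (MeasurableSet.iUnion fun i => MeasurableSet.iUnion fun _ => measurableSet_ball)
  · intro i j hij
    rw [Set.disjoint_left]
    rintro x ⟨⟨_, hx1⟩, hx2⟩ ⟨⟨_, hx3⟩, hx4⟩
    rcases lt_or_gt_of_ne hij with h | h
    · exact hx4 (mem_iUnion₂.2 ⟨i, h, hx1⟩)
    · exact hx2 (mem_iUnion₂.2 ⟨j, h, hx3⟩)
  · ext x
    constructor
    · intro hx
      obtain ⟨j, hj⟩ := mem_iUnion.1 hx
      exact hj.1.1
    · intro hx
      obtain ⟨y, hy, hxy⟩ := mem_iUnion₂.1 (htc hx)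
      rw [← hrange] at hy
      obtain ⟨j0, rfl⟩ := hy
      classical
      have hne : (Finset.univ.filter fun j => x ∈ ball (c j) δ).Nonempty :=
        ⟨j0, by simpa using hxy⟩
      obtain ⟨j, hj, hmin⟩ := Finset.exists_min_image _ id hne
      refine mem_iUnion.2 ⟨j, ⟨hx, (Finset.mem_filter.1 hj).2⟩, ?_⟩
      intro hcon
      obtain ⟨i, hi, hxi⟩ := mem_iUnion₂.1 hcon
      exact absurd (hmin i (Finset.mem_filter.2 ⟨Finset.mem_univ _, hxi⟩)) (not_le.2 hi)
  · intro j
    exact htK (hrange ▸ mem_range_self j)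
  · rintro j y ⟨⟨_, hy⟩, _⟩
    exact (mem_ball.1 hy).le

/-- Riemann sums -/
lemma ApA_riemann [NormedSpace ℝ G] [CompleteSpace G] {K : Set (V)} (hc : IsCompact K) {m : ℕ}
    {Q : Fin m → Set (V)} {c : Fin m → V} (hQ : ∀ j, MeasurableSet (Q j))
    (hd : Pairwise (fun i j => Disjoint (Q i) (Q j))) (hQK : (⋃ j, Q j) = K) {F : V → G}
    (hF : Continuous F) (hF0 : ∀ x, x ∉ K → F x = 0) {η : ℝ}
    (h : ∀ j, ∀ y ∈ Q j, ‖F y - F (c j)‖ ≤ η) :
    ‖(∫ y, F y) - ∑ j, (volume (Q j)).toReal • F (c j)‖ ≤ η * (volume K).toReal := by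
  have hfin : ∀ j, volume (Q j) < ⊤ := by
    intro j
    refine lt_of_le_of_lt (measure_mono ?_) hc.measure_lt_top
    rw [← hQK]; exact subset_iUnion _ j
  have hint : ∀ j, IntegrableOn F (Q j) volume := by
    intro j
    refine (hF.continuousOn.integrableOn_compact hc).mono_set ?_
    rw [← hQK]; exact subset_iUnion _ j
  have h1 : (∫ y, F y) = ∑ j, ∫ y in Q j, F y := by
    rw [← setIntegral_eq_integral_of_forall_compl_eq_zero hF0, ← hQK]
    exact integral_iUnion_fintype hQ hd hint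
  have h2 : ∀ j, (volume (Q j)).toReal • F (c j) = ∫ _ in Q j, F (c j) := by
    intro j
    rw [setIntegral_const]
    rfl
  have h3 : (volume K).toReal = ∑ j, (volume (Q j)).toReal := by
    rw [← hQK, measure_iUnion hd hQ, tsum_fintype, ENNReal.toReal_sum fun j _ => (hfin j).ne]
  rw [h1, h3]
  simp_rw [h2]
  rw [← Finset.sum_sub_distrib, Finset.mul_sum]
  refine (norm_sum_le _ _).trans (Finset.sum_le_sum fun j _ => ?_)
  rw [← integral_sub (hint j) (integrableOn_const (hfin j).ne)]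
  exact norm_setIntegral_le_of_norm_le_const (hfin j) (h j)

/-- mollification -/
lemma ApA_moll [NormedSpace ℝ G] [CompleteSpace G] {F : V → G} (hF : Continuous F)
    {b : V → ℝ} (hb : Continuous b) (hb0 : ∀ x, 0 ≤ b x) (hb1 : ∫ x, b x = 1) {ρ : ℝ}
    (hbs : ∀ x, x ∉ closedBall (0 : V) ρ → b x = 0) {x : V} {η : ℝ}
    (h : ∀ y, dist y x ≤ ρ → ‖F y - F x‖ ≤ η) : ‖(∫ y, b (x - y) • F y) - F x‖ ≤ η := by
  have hcs : HasCompactSupport fun y => b (x - y) := by
    refine HasCompactSupport.intro (isCompact_closedBall x ρ) fun y hy => hbs _ fun hy' => hy ?_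
    rw [mem_closedBall, dist_eq_norm]
    rw [mem_closedBall, dist_zero_right] at hy'
    rw [← norm_neg]
    simpa using hy'
  have hbc : Continuous fun y => b (x - y) := hb.comp (continuous_const.sub continuous_id)
  have hbi : Integrable (fun y => b (x - y)) volume := hbc.integrable_of_hasCompactSupport hcs
  have h1 : ∫ y, b (x - y) = 1 := by
    rw [← hb1]
    exact integral_sub_left_eq_self b volume x
  have h2 : F x = ∫ y, b (x - y) • F x := by
    rw [integral_smul_const, h1, one_smul]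
  have h3 : Integrable (fun y => b (x - y) • F y) volume := by
    refine (hbc.smul hF).integrable_of_hasCompactSupport ?_
    exact hcs.smul_right
  have h4 : Integrable (fun y => b (x - y) • F x) volume := hbi.smul_const _
  calc ‖(∫ y, b (x - y) • F y) - F x‖ = ‖∫ y, (b (x - y) • F y - b (x - y) • F x)‖ := by
        rw [integral_sub h3 h4, ← h2]
    _ ≤ ∫ y, b (x - y) * η := by
        refine norm_integral_le_of_norm_le (hbi.mul_const η) (Eventually.of_forall fun y => ?_)
        rw [← smul_sub, norm_smul, Real.norm_of_nonneg (hb0 _)]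
        by_cases hy : dist y x ≤ ρ
        · exact mul_le_mul_of_nonneg_left (h y hy) (hb0 _)
        · have : b (x - y) = 0 := by
            apply hbs
            intro hy'
            apply hy
            rw [mem_closedBall, dist_zero_right] at hy'
            rw [dist_comm, dist_eq_norm]
            exact hy'
          rw [this, zero_mul, zero_mul]
    _ = η := by rw [integral_mul_const, h1, one_mul]


lemma ApA_conv {h b : V → ℝ} (hh : ContDiff ℝ ((⊤ : ℕ∞) : WithTop ℕ∞) h) (hhc : HasCompactSupport h)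
    (hb : ContDiff ℝ ((⊤ : ℕ∞) : WithTop ℕ∞) b) (hbc : HasCompactSupport b) (x : V) :
    (∫ y, b (x - y) • fderiv ℝ h y) = ∫ y, h y • fderiv ℝ b (x - y) := by
  have h1 := hbc.hasFDerivAt_convolution_right (ContinuousLinearMap.lsmul ℝ ℝ)
    (hh.continuous.locallyIntegrable (μ := volume)) (hb.of_le (by simp)) x
  have h2 := hhc.hasFDerivAt_convolution_left (μ := (volume : Measure V))
    (ContinuousLinearMap.lsmul ℝ ℝ) (hh.of_le (by simp))
    (hb.continuous.locallyIntegrable (μ := volume)) x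
  have h3 := h1.unique h2
  unfold convolution at h3
  have h4 : ∀ y, (ContinuousLinearMap.precompR V (ContinuousLinearMap.lsmul ℝ ℝ)) (h y)
      (fderiv ℝ b (x - y)) = h y • fderiv ℝ b (x - y) := by
    intro y
    ext v
    simp
  have h5 : ∀ y, (ContinuousLinearMap.precompL V (ContinuousLinearMap.lsmul ℝ ℝ)) (fderiv ℝ h y)
      (b (x - y)) = b (x - y) • fderiv ℝ h y := by
    intro y
    ext v
    simp [mul_comm]
  simp only [h4, h5] at h3
  exact h3.symm


/-- Riemann sums of convolution integrals -/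
lemma ApA_rs [NormedSpace ℝ G] [CompleteSpace G] {K : Set V} (hc : IsCompact K) {m : ℕ}
    {Q : Fin m → Set V} {c : Fin m → V} (hQ : ∀ j, MeasurableSet (Q j))
    (hd : Pairwise (fun i j => Disjoint (Q i) (Q j))) (hQK : (⋃ j, Q j) = K) {h : V → ℝ}
    (hh : Continuous h) (hh0 : ∀ x, x ∉ K → h x = 0) {g : V → G} (hg : Continuous g)
    {η1 η2 B M δ : ℝ} (hη1 : 0 ≤ η1) (hM0 : 0 ≤ M) (h1 : ∀ x y, dist x y ≤ δ → ‖h x - h y‖ ≤ η1)
    (hM : ∀ x, ‖h x‖ ≤ M) (hB : ∀ x, ‖g x‖ ≤ B)
    (h2 : ∀ x y, dist x y ≤ δ → ‖g x - g y‖ ≤ η2) (hcδ : ∀ j, ∀ y ∈ Q j, dist y (c j) ≤ δ) (x : V) :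
    ‖(∫ y, h y • g (x - y)) - ∑ j, (volume (Q j)).toReal • (h (c j) • g (x - c j))‖ ≤
      (η1 * B + M * η2) * (volume K).toReal := by
  refine ApA_riemann hc hQ hd hQK (F := fun y => h y • g (x - y))
    (hh.smul (hg.comp (continuous_const.sub continuous_id))) ?_ ?_
  · intro y hy
    rw [hh0 y hy, zero_smul]
  · intro j y hy
    have e : h y • g (x - y) - h (c j) • g (x - c j) =
        (h y - h (c j)) • g (x - y) + h (c j) • (g (x - y) - g (x - c j)) := by
      rw [sub_smul, smul_sub]; abel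
    change ‖h y • g (x - y) - h (c j) • g (x - c j)‖ ≤ _
    rw [e]
    refine (norm_add_le _ _).trans (add_le_add ?_ ?_)
    · rw [norm_smul]
      exact mul_le_mul (h1 _ _ (hcδ j y hy)) (hB _) (norm_nonneg _) hη1
    · rw [norm_smul]
      refine mul_le_mul (hM _) (h2 _ _ ?_) (norm_nonneg _) hM0
      rw [dist_sub_left]
      exact hcδ j y hy

lemma ApA_core {H : ℝ → V → ℝ} (hH : ContDiff ℝ ((⊤ : ℕ∞) : WithTop ℕ∞) (Function.uncurry H))
    {K : Set V} (hc : IsCompact K) (hK : ∀ t, ∀ x, x ∉ K → H t x = 0)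
    (h0 : (∫ t in (0 : ℝ)..1, ∫ x, H t x) = 0) {ρ : ℝ} (hρ : 0 < ρ) {ε : ℝ} (hε : 0 < ε) :
    ∃ (m : ℕ) (β : V → ℝ) (p : Fin m → V) (a : Fin m → ℝ → ℝ),
        ContDiff ℝ ((⊤ : ℕ∞) : WithTop ℕ∞) β ∧ (∀ x, x ∉ closedBall 0 ρ → β x = 0) ∧
        (∀ j, p j ∈ K) ∧ (∀ j, ContDiff ℝ ((⊤ : ℕ∞) : WithTop ℕ∞) (a j)) ∧
        (∀ t ∈ Icc (0 : ℝ) 1, ∀ x, |H t x - ∑ j, a j t * β (x - p j)| ≤ ε) ∧
        (∀ t ∈ Icc (0 : ℝ) 1, ∀ x,
          ‖fderiv ℝ (fun x => H t x - ∑ j, a j t * β (x - p j)) x‖ ≤ ε) ∧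
        (∀ x, |(∫ t in (0 : ℝ)..1, ∑ j, a j t) * β x| ≤ ε) ∧
        ∀ x, ‖(∫ t in (0 : ℝ)..1, ∑ j, a j t) • fderiv ℝ β x‖ ≤ ε := by
  have hHc : Continuous (Function.uncurry H) := hH.continuous
  have hHs : ∀ t, ContDiff ℝ ((⊤ : ℕ∞) : WithTop ℕ∞) (H t) := fun t =>
    hH.comp (contDiff_const.prodMk contDiff_id)
  have hHcs : ∀ t, HasCompactSupport (H t) := fun t => HasCompactSupport.intro hc (hK t)
  have hD : Continuous (Function.uncurry fun (t : ℝ) (x : V) => fderiv ℝ (H t) x) := by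
    have := ContDiff.fderiv (𝕜 := ℝ) (f := fun (p : ℝ × V) (y : V) => H p.1 y)
      (g := fun p => p.2) (m := ((⊤ : ℕ∞) : WithTop ℕ∞)) (n := ((⊤ : ℕ∞) : WithTop ℕ∞))
      (hH.comp ((contDiff_fst.comp contDiff_fst).prodMk contDiff_snd))
      contDiff_snd (by simp)
    exact this.continuous
  have hDK : ∀ t, ∀ x, x ∉ K → fderiv ℝ (H t) x = 0 := by
    intro t x hx
    have e : H t =ᶠ[𝓝 x] fun _ => (0 : ℝ) := by
      filter_upwards [hc.isClosed.isOpen_compl.mem_nhds hx] with y hy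
      exact hK t y hy
    rw [e.fderiv_eq, fderiv_fun_const]
    rfl
  -- the bump function
  obtain ⟨δ1, hδ1, hu1⟩ := ApA_unif hHc hc hK (half_pos hε)
  obtain ⟨δ2, hδ2, hu2⟩ := ApA_unif hD hc hDK (half_pos hε)
  set r : ℝ := min ρ (min δ1 δ2) with hr
  have hr0 : 0 < r := lt_min hρ (lt_min hδ1 hδ2)
  let φ : ContDiffBump (0 : V) := ⟨r / 2, r, by positivity, by linarith⟩
  set β : V → ℝ := φ.normed volume with hβ
  have hβs : ContDiff ℝ ((⊤ : ℕ∞) : WithTop ℕ∞) β := φ.contDiff_normed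
  have hβcs : HasCompactSupport β := φ.hasCompactSupport_normed
  have hβr : ∀ x, x ∉ closedBall (0 : V) r → β x = 0 := by
    intro x hx
    have h1 : x ∉ Function.support β := by
      rw [hβ, φ.support_normed_eq]
      exact fun h => hx (ball_subset_closedBall h)
    simpa using h1
  have hβ1 : ∫ x, β x = 1 := φ.integral_normed
  have hβ0 : ∀ x, 0 ≤ β x := fun x => φ.nonneg_normed x
  have hm1 : ∀ t ∈ Icc (0 : ℝ) 1, ∀ x, ‖(∫ y, β (x - y) • H t y) - H t x‖ ≤ ε / 2 := by
    intro t ht x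
    refine ApA_moll (hHs t).continuous hβs.continuous hβ0 hβ1 hβr fun y hy => ?_
    exact hu1 t ht y x (hy.trans ((min_le_right _ _).trans (min_le_left _ _)))
  have hm2 : ∀ t ∈ Icc (0 : ℝ) 1, ∀ x,
      ‖(∫ y, β (x - y) • fderiv ℝ (H t) y) - fderiv ℝ (H t) x‖ ≤ ε / 2 := by
    intro t ht x
    refine ApA_moll ((hHs t).continuous_fderiv (by simp)) hβs.continuous hβ0 hβ1 hβr
      fun y hy => ?_
    exact hu2 t ht y x (hy.trans ((min_le_right _ _).trans (min_le_right _ _)))
  -- bounds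
  obtain ⟨M, hM0, hM⟩ := ApA_bound hHc hc hK
  have hbc : Continuous (Function.uncurry fun (_ : ℝ) (x : V) => β x) :=
    hβs.continuous.comp continuous_snd
  have hDβ : Continuous (Function.uncurry fun (_ : ℝ) (x : V) => fderiv ℝ β x) :=
    (hβs.continuous_fderiv (by simp)).comp continuous_snd
  have hDβr : ∀ (_ : ℝ), ∀ x, x ∉ closedBall (0 : V) r → fderiv ℝ β x = 0 := by
    intro _ x hx
    have e : β =ᶠ[𝓝 x] fun _ => (0 : ℝ) := by
      filter_upwards [isClosed_closedBall.isOpen_compl.mem_nhds hx] with y hy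
      exact hβr y hy
    rw [e.fderiv_eq, fderiv_fun_const]
    rfl
  have hcb : IsCompact (closedBall (0 : V) r) := isCompact_closedBall _ _
  obtain ⟨B1, hB10, hB1⟩ := ApA_bound hbc hcb fun _ => hβr
  obtain ⟨B2, hB20, hB2⟩ := ApA_bound hDβ hcb hDβr
  set B : ℝ := B1 + B2 + 1 with hBdef
  have hBpos : 0 < B := by positivity
  have hBβ : ∀ x, ‖β x‖ ≤ B := fun x => (hB1 0 (by simp) x).trans (by rw [hBdef]; linarith)
  have hBD : ∀ x, ‖fderiv ℝ β x‖ ≤ B := fun x => (hB2 0 (by simp) x).trans (by rw [hBdef]; linarith)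
  set w : ℝ := (volume K).toReal with hw
  have hw0 : 0 ≤ w := ENNReal.toReal_nonneg
  set η1 : ℝ := ε / (4 * (w + 1) * B) with hη1
  set η2 : ℝ := ε / (4 * (w + 1) * (M + 1)) with hη2
  have hη1p : 0 < η1 := by positivity
  have hη2p : 0 < η2 := by positivity
  have hηB : η1 * B = ε / (4 * (w + 1)) := by rw [hη1]; field_simp
  have hηM : M * η2 ≤ ε / (4 * (w + 1)) := by
    have h1 : (M + 1) * η2 = ε / (4 * (w + 1)) := by rw [hη2]; field_simp
    nlinarith
  have hw1 : ε / (4 * (w + 1)) * w ≤ ε / 4 := by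
    have h1 : ε / (4 * (w + 1)) * (w + 1) = ε / 4 := by field_simp
    have h2 : 0 < ε / (4 * (w + 1)) := by positivity
    nlinarith
  have hfin : (η1 * B + M * η2) * w ≤ ε / 2 := by
    have h1 : (η1 * B + M * η2) * w ≤ (ε / (4 * (w + 1)) + ε / (4 * (w + 1))) * w :=
      mul_le_mul_of_nonneg_right (by linarith) hw0
    linarith
  obtain ⟨δ3, hδ3, hu3⟩ := ApA_unif hHc hc hK hη1p
  obtain ⟨δ4, hδ4, hu4⟩ := ApA_unif hbc hcb (fun _ => hβr) hη2p
  obtain ⟨δ5, hδ5, hu5⟩ := ApA_unif hDβ hcb hDβr hη2p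
  set δ : ℝ := min δ3 (min δ4 δ5) with hδdef
  have hδ : 0 < δ := lt_min hδ3 (lt_min hδ4 hδ5)
  obtain ⟨m, Q, c, hQ, hd, hQK, hcK, hcδ⟩ := ApA_part hc hδ
  set a : Fin m → ℝ → ℝ := fun j t => (volume (Q j)).toReal * H t (c j) with ha
  have has : ∀ j, ContDiff ℝ ((⊤ : ℕ∞) : WithTop ℕ∞) (a j) := fun j =>
    contDiff_const.mul (hH.comp (contDiff_id.prodMk contDiff_const))
  -- the mean value
  have hmean : |∫ t in (0 : ℝ)..1, ∑ j, a j t| ≤ η1 * w := by
    have hc1 : Continuous fun t => ∫ x, H t x := by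
      have h1 : (fun t => ∫ x, H t x) = fun t => ∫ x in K, H t x := by
        funext t
        exact (setIntegral_eq_integral_of_forall_compl_eq_zero (hK t)).symm
      rw [h1]
      exact continuous_parametric_integral_of_continuous hHc hc
    have hc2 : Continuous fun t => ∑ j, a j t :=
      continuous_finsetSum _ fun j _ => (has j).continuous
    have h1 : (∫ t in (0 : ℝ)..1, ((∫ x, H t x) - ∑ j, a j t)) =
        - ∫ t in (0 : ℝ)..1, ∑ j, a j t := by
      rw [intervalIntegral.integral_sub (hc1.intervalIntegrable _ _) (hc2.intervalIntegrable _ _),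
        h0, zero_sub]
    rw [← abs_neg, ← h1, ← Real.norm_eq_abs]
    have h2 := intervalIntegral.norm_integral_le_of_norm_le_const (a := (0 : ℝ)) (b := 1)
      (f := fun t => (∫ x, H t x) - ∑ j, a j t) (C := η1 * w) (fun t ht => by
        rw [uIoc_of_le zero_le_one] at ht
        have ht' : t ∈ Icc (0 : ℝ) 1 := Ioc_subset_Icc_self ht
        have h3 := ApA_riemann hc hQ hd hQK (hHs t).continuous (hK t) (c := c) (η := η1)
          (fun j y hy => hu3 t ht' _ _ ((hcδ j y hy).trans (min_le_left _ _)))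
        simpa [ha, smul_eq_mul] using h3)
    simpa using h2
  have hηw : η1 * w * B ≤ ε := by
    have h1 : η1 * w * B = ε / (4 * (w + 1)) * w := by rw [← hηB]; ring
    rw [h1]; linarith
  refine ⟨m, β, c, a, hβs, ?_, hcK, has, ?_, ?_, ?_, ?_⟩
  · intro x hx
    exact hβr x fun h => hx (closedBall_subset_closedBall (min_le_left _ _) h)
  · intro t ht x
    have h1 := ApA_rs hc hQ hd hQK (hHs t).continuous (hK t) hβs.continuous hη1p.le hM0
      (fun x y hxy => hu3 t ht x y (hxy.trans (min_le_left _ _))) (hM t ht) hBβ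
      (fun x y hxy => hu4 0 (by simp) x y (hxy.trans ((min_le_right _ _).trans (min_le_left _ _))))
      hcδ x
    have h2 := hm1 t ht x
    have e1 : (∫ y, β (x - y) • H t y) = ∫ y, H t y • β (x - y) := by
      refine integral_congr_ae (Eventually.of_forall fun y => ?_)
      simp [smul_eq_mul, mul_comm]
    have e2 : ∑ j, (volume (Q j)).toReal • (H t (c j) • β (x - c j)) =
        ∑ j, a j t * β (x - c j) := by
      refine Finset.sum_congr rfl fun j _ => ?_
      simp [ha, smul_eq_mul, mul_assoc]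
    rw [e1] at h2
    rw [e2] at h1
    rw [← Real.norm_eq_abs]
    calc ‖H t x - ∑ j, a j t * β (x - c j)‖ =
        ‖((∫ y, H t y • β (x - y)) - ∑ j, a j t * β (x - c j)) -
          ((∫ y, H t y • β (x - y)) - H t x)‖ := by congr 1; ring
      _ ≤ _ := norm_sub_le _ _
      _ ≤ (η1 * B + M * η2) * w + ε / 2 := add_le_add h1 h2
      _ ≤ ε := by linarith
  · intro t ht x
    have h1 := ApA_rs hc hQ hd hQK (hHs t).continuous (hK t) (hβs.continuous_fderiv (by simp))
      hη1p.le hM0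
      (fun x y hxy => hu3 t ht x y (hxy.trans (min_le_left _ _))) (hM t ht) hBD
      (fun x y hxy => hu5 0 (by simp) x y (hxy.trans ((min_le_right _ _).trans (min_le_right _ _))))
      hcδ x
    have h2 := hm2 t ht x
    rw [ApA_conv (hHs t) (hHcs t) hβs hβcs x] at h2
    have e2 : ∑ j, (volume (Q j)).toReal • (H t (c j) • fderiv ℝ β (x - c j)) =
        ∑ j, a j t • fderiv ℝ β (x - c j) := by
      refine Finset.sum_congr rfl fun j _ => ?_
      simp only [ha]
      rw [smul_smul]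
    rw [e2] at h1
    have e3 : fderiv ℝ (fun x => H t x - ∑ j, a j t * β (x - c j)) x =
        fderiv ℝ (H t) x - ∑ j, a j t • fderiv ℝ β (x - c j) := by
      have hd1 : HasFDerivAt (H t) (fderiv ℝ (H t) x) x :=
        ((hHs t).differentiable (by simp) x).hasFDerivAt
      have hd2 : ∀ j, HasFDerivAt (fun x => a j t * β (x - c j))
          (a j t • fderiv ℝ β (x - c j)) x := by
        intro j
        have h3 : HasFDerivAt (fun x : V => x - c j) (ContinuousLinearMap.id ℝ V) x :=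
          (hasFDerivAt_id x).sub_const (c j)
        have h5 : HasFDerivAt β (fderiv ℝ β (x - c j)) (x - c j) :=
          ((hβs.differentiable (by simp)) (x - c j)).hasFDerivAt
        have h4 := h5.comp x h3
        rw [ContinuousLinearMap.comp_id] at h4
        have h6 : HasFDerivAt (fun x : V => β (x - c j)) (fderiv ℝ β (x - c j)) x := h4
        exact h6.const_mul _
      exact (hd1.sub (HasFDerivAt.fun_sum fun j _ => hd2 j)).fderiv
    rw [e3]
    calc ‖fderiv ℝ (H t) x - ∑ j, a j t • fderiv ℝ β (x - c j)‖ =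
        ‖((∫ y, H t y • fderiv ℝ β (x - y)) - ∑ j, a j t • fderiv ℝ β (x - c j)) -
          ((∫ y, H t y • fderiv ℝ β (x - y)) - fderiv ℝ (H t) x)‖ := by congr 1; abel
      _ ≤ _ := norm_sub_le _ _
      _ ≤ (η1 * B + M * η2) * w + ε / 2 := add_le_add h1 h2
      _ ≤ ε := by linarith
  · intro x
    rw [abs_mul]
    refine (mul_le_mul hmean (hBβ x) (abs_nonneg _) (by positivity)).trans hηw
  · intro x
    rw [norm_smul, Real.norm_eq_abs]
    refine (mul_le_mul hmean (hBD x) (norm_nonneg _) (by positivity)).trans hηw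

end ApA_aux

theorem ApA_inst0 (α : Type) [NormedAddCommGroup α] [NormedSpace ℝ α] [FiniteDimensional ℝ α]
    [MeasureSpace α] [BorelSpace α] [SecondCountableTopology α]
    [(volume : Measure α).IsAddHaarMeasure] : (volume : Measure (α × α)).IsAddHaarMeasure := by
  rw [Measure.volume_eq_prod]
  infer_instance

/-- Approximation. `K'` is a closed Euclidean ball `CB n R`, `R < 1`, containing a neighbourhood of
`K` (library `exists_CB`). Let `β` be a smooth bump function (`ContDiffBump (0 : E n)`, normed so that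
`∫ β = 1`) with support in the closed ball of radius `ρ`. For `ρ` small, uniformly for `t ∈ [0, 1]`,
`H t * β` and its space derivative (which is `fderiv (H t) * β`) are within `ε / 2` of `H t` and
`fderiv (H t)`: uniform continuity of `H` and of its space derivative. Fix `ρ`. Partition `K` into
finitely many measurable sets `Q j` of small diameter, choose `x j ∈ Q j` (nonempty pieces) and put
`a j t = vol(Q j) * H t (x j)`; then `∑ a j t β (x - x j)` and its derivative approximate the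
convolution integral `∫ H t y β (x - y) dy` over `K` and its derivative (uniform continuity of
`(t, x, y) ↦ H t y β (x - y)` and of the derivative in `x`), and `∑ a j t` approximates `∫ H t`,
uniformly in `t ∈ [0, 1]`, so that `∫ ∑ a j` is as small as needed after `ρ` and `β` are fixed, as
`cal H = 0`. -/
theorem approx {H : ℝ → E n → ℝ} (hH : ContDiff ℝ ((⊤ : ℕ∞) : WithTop ℕ∞) (Function.uncurry H))
    {K : Set (E n)} (hc : IsCompact K) (hKB : K ⊆ Bl n) (hK : ∀ t, ∀ x, x ∉ K → H t x = 0)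
    (h0 : cal H = 0) :
    ∃ K' : Set (E n), IsCompact K' ∧ K' ⊆ Bl n ∧ K ⊆ K' ∧ ∀ ε : ℝ, 0 < ε →
      ∃ (m : ℕ) (β : E n → ℝ) (ρ : ℝ) (p : Fin m → E n) (q : E n) (a : Fin m → ℝ → ℝ),
        0 < ρ ∧ ContDiff ℝ ((⊤ : ℕ∞) : WithTop ℕ∞) β ∧ (∀ x, x ∉ closedBall 0 ρ → β x = 0) ∧
        closedBall q ρ ⊆ K' ∧ (∀ j, closedBall (p j) ρ ⊆ K') ∧
        (∀ j, ContDiff ℝ ((⊤ : ℕ∞) : WithTop ℕ∞) (a j)) ∧
        (∀ t ∈ Icc (0 : ℝ) 1, ∀ x, |H t x - ∑ j, a j t * β (x - p j)| ≤ ε) ∧
        (∀ t ∈ Icc (0 : ℝ) 1, ∀ x,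
          ‖fderiv ℝ (fun x => H t x - ∑ j, a j t * β (x - p j)) x‖ ≤ ε) ∧
        (∀ x, |(∫ t in (0 : ℝ)..1, ∑ j, a j t) * β x| ≤ ε) ∧
        ∀ x, ‖(∫ t in (0 : ℝ)..1, ∑ j, a j t) • fderiv ℝ β x‖ ≤ ε := by
  obtain ⟨r, hr0, hr1, hKr⟩ := exists_CB hc hKB
  set R : ℝ := (1 + r) / 2 with hR
  have hR0 : 0 ≤ R := by rw [hR]; linarith
  have hR1 : R < 1 := by rw [hR]; linarith
  have hrR : r < R := by rw [hR]; linarith
  have ho : IsOpen {x : E n | qf x < R ^ 2} := isOpen_lt qf_smooth.continuous continuous_const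
  have hsub : CB n r ⊆ {x : E n | qf x < R ^ 2} := by
    intro x hx
    have h1 : qf x ≤ r ^ 2 := hx
    have h2 : r ^ 2 < R ^ 2 := pow_lt_pow_left₀ hrR hr0.le two_ne_zero
    exact lt_of_le_of_lt h1 h2
  obtain ⟨ρ, hρ, hρs⟩ := (isCompact_CB r).exists_cthickening_subset_open ho hsub
  have hball : ∀ c ∈ CB n r, closedBall c ρ ⊆ CB n R := by
    intro c hcr x hx
    have h1 : qf x < R ^ 2 := hρs (closedBall_subset_cthickening hcr ρ hx)
    exact h1.le
  have h0r : (0 : E n) ∈ CB n r := by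
    rw [mem_CB hr0.le, en_zero]; exact hr0.le
  refine ⟨CB n R, isCompact_CB R, CB_sub hR0 hR1, hKr.trans (CB_mono hr0.le hrR.le),
    fun ε hε => ?_⟩
  have := ApA_inst0 (Fin n → ℝ)
  obtain ⟨m, β, p, a, h1, h2, h3, h4, h5, h6, h7, h8⟩ := ApA_core hH hc hK h0 hρ hε
  exact ⟨m, β, ρ, p, 0, a, hρ, h1, h2, hball 0 h0r, fun j => hball _ (hKr (h3 j)), h4, h5, h6,
    h7, h8⟩

end Pool.Agent.W_68f289_h35

end

section

/-!
Hamiltonian translations.
-/

open Set Metric Topology Pool.Agent.W_MP_68f289_gt MeasureTheory Filter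
open scoped NNReal ContDiff

namespace Pool.Agent.W_68f289_h35

variable {n : ℕ}

/-- Hamiltonian translations. The set `S = {x + s (q - p) : x ∈ closedBall p ρ, 0 ≤ s ≤ 1}` is compact
and contained in the open convex set `Bl n`. Take the linear function `l x = om (q - p) x` written out
(so that `XH l = q - p` up to sign), a smooth cut-off `ζ` with compact support in `Bl n`, equal to `1` near
`S` (`exists_contDiff_tsupport_subset` or `exists_smooth_one_nhds_of_interior`-type lemmas), and the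
library flow of `ζ * l` (`Adm.ev`, `isHam_ev`); for `x ∈ closedBall p ρ` the curve `x + s (q - p)` is the
integral curve (`Good.sol_eq`). The library has similar moves in `Swindle.lean`/`Twist.lean`. -/
theorem exists_translation {p q : E n} {ρ : ℝ} (hρ : 0 < ρ) (hp : closedBall p ρ ⊆ Bl n)
    (hq : closedBall q ρ ⊆ Bl n) :
    ∃ g : E n ≃ₜ E n, IsHam n g ∧ ∀ x ∈ closedBall p ρ, g x = x + (q - p) := by
  obtain ⟨B, hB⟩ := exists_om_clm n
  set v : E n := q - p with hv
  -- the linear Hamiltonian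
  have hXl : ∀ z : E n, XH (fun x => B v x) z = v := by
    intro z
    have h1 : ∀ w, om (XH (fun x => B v x) z + (-1 : ℝ) • v) w = 0 := by
      intro w
      rw [om_add_left, om_smul_left, om_XH, ← hB v w]
      have h2 : fderiv ℝ (fun x => B v x) z = B v := (B v).fderiv
      rw [h2]
      ring
    have h3 := om_nondeg h1
    rw [neg_one_smul, add_neg_eq_zero] at h3
    exact h3
  -- the compact set of the translates
  set S : Set (E n) := (fun y : E n × ℝ => y.1 + y.2 • v) '' (closedBall p ρ ×ˢ Icc (0 : ℝ) 1)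
    with hS
  have hSc : IsCompact S :=
    ((isCompact_closedBall p ρ).prod isCompact_Icc).image (by fun_prop)
  have hSB : S ⊆ Bl n := by
    rintro _ ⟨⟨x, s⟩, ⟨hx, hs⟩, rfl⟩
    have hx1 : en x < 1 := mem_Bl.1 (hp hx)
    have hx2 : en (x + v) < 1 := by
      refine mem_Bl.1 (hq ?_)
      rw [mem_closedBall, dist_eq_norm] at hx ⊢
      have e : x + v - q = x - p := by rw [hv]; abel
      rw [e]; exact hx
    change x + s • v ∈ Bl n
    rw [mem_Bl]
    have e : x + s • v = (1 - s) • x + s • (x + v) := by module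
    rw [e]
    refine lt_of_le_of_lt (en_add _ _) ?_
    rw [en_smul, en_smul, abs_of_nonneg (by linarith [hs.2]), abs_of_nonneg hs.1]
    have hs1 := hs.1
    have hs2 := hs.2
    rcases eq_or_lt_of_le hs1 with h | h
    · have hs0 : s = 0 := h.symm
      subst hs0
      simpa using hx1
    · have h1 : s * en (x + v) < s * 1 := mul_lt_mul_of_pos_left hx2 h
      have h2 : (1 - s) * en x ≤ (1 - s) * 1 := mul_le_mul_of_nonneg_left hx1.le (by linarith)
      linarith
  obtain ⟨r, hr0, hr1, hSr⟩ := exists_CB hSc hSB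
  -- the cut-off function
  set a : ℝ := (1 + r ^ 2) / 2 with ha
  have hr2 : r ^ 2 < 1 := pow_lt_one₀ hr0.le hr1 two_ne_zero
  set R : ℝ := Real.sqrt ((1 + a) / 2) with hR
  have hRa : R ^ 2 = (1 + a) / 2 := Real.sq_sqrt (by rw [ha]; positivity)
  have ha1 : a < 1 := by rw [ha]; linarith
  have hra : r ^ 2 < a := by rw [ha]; linarith
  have hR0 : 0 ≤ R := Real.sqrt_nonneg _
  have hR1 : R < 1 := by
    have : R ^ 2 < 1 := by rw [hRa]; linarith
    by_contra hcon
    push Not at hcon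
    have := one_le_pow₀ (n := 2) hcon
    linarith
  set ζ : E n → ℝ := fun x => Real.smoothTransition ((R ^ 2 - qf x) / (R ^ 2 - a)) with hζ
  have hRapos : 0 < R ^ 2 - a := by rw [hRa]; linarith
  have hζs : ContDiff ℝ ((⊤ : ℕ∞) : WithTop ℕ∞) ζ :=
    Real.smoothTransition.contDiff.comp ((contDiff_const.sub qf_smooth).div_const _)
  have hζ1 : ∀ x, qf x < a → ζ x = 1 := by
    intro x hx
    simp only [hζ]
    apply Real.smoothTransition.one_of_one_le
    rw [one_le_div hRapos]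
    linarith
  have hζ0 : ∀ x, x ∉ CB n R → ζ x = 0 := by
    intro x hx
    simp only [hζ]
    apply Real.smoothTransition.zero_of_nonpos
    refine div_nonpos_of_nonpos_of_nonneg ?_ hRapos.le
    have : R ^ 2 < qf x := not_le.1 hx
    linarith
  have hA : Adm n (fun (_ : ℝ) x => ζ x * B v x) (CB n R) := by
    refine ⟨?_, isCompact_CB R, CB_sub hR0 hR1, ?_⟩
    · exact (hζs.comp contDiff_snd).mul ((B v).contDiff.comp contDiff_snd)
    · intro _ x hx
      rw [hζ0 x hx, zero_mul]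
  have hXS : ∀ z ∈ S, XH (fun x => ζ x * B v x) z = v := by
    intro z hz
    refine Eq.trans (XH_congr ?_) (hXl z)
    have hz1 : qf z ≤ r ^ 2 := hSr hz
    have ho : IsOpen {x : E n | qf x < a} := isOpen_lt qf_smooth.continuous continuous_const
    filter_upwards [ho.mem_nhds (show z ∈ {x : E n | qf x < a} from lt_of_le_of_lt hz1 hra)] with y hy
    rw [hζ1 y hy, one_mul]
  refine ⟨hA.ev ⟨0, by simp⟩ ⟨1, by simp⟩, isHam_ev hA _ _, fun x hx => ?_⟩
  have hIC : IC (fun t => XH ((fun (_ : ℝ) x => ζ x * B v x) t)) (fun s => x + s • v) := by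
    intro s hs
    have h1 : XH (fun x => ζ x * B v x) (x + s • v) = v := hXS _ ⟨(x, s), ⟨hx, hs⟩, rfl⟩
    change HasDerivWithinAt (fun s : ℝ => x + s • v) (XH (fun x => ζ x * B v x) (x + s • v))
      (Icc 0 1) s
    rw [h1]
    have h2 : HasDerivAt (fun s : ℝ => x + s • v) ((1 : ℝ) • v) s :=
      ((hasDerivAt_id s).smul_const v).const_add x
    rw [one_smul] at h2
    exact h2.hasDerivWithinAt
  have h3 := hA.good.sol_eq (s := ⟨0, by simp⟩) (x := x) hIC (by simp) (t := 1) (by simp)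
  change hA.good.sol ⟨0, by simp⟩ x ((⟨1, by simp⟩ : Icc (0 : ℝ) 1) : ℝ) = x + v
  rw [h3, one_smul]

end Pool.Agent.W_68f289_h35

end

section

/-!
Bump functions.
-/

open Set Metric Topology Pool.Agent.W_MP_68f289_gt MeasureTheory Filter
open scoped NNReal ContDiff

namespace Pool.Agent.W_68f289_h35

variable {n : ℕ}

/-- a bump function with integral one -/
theorem exists_bump (n : ℕ) : ∃ b : E n → ℝ, ContDiff ℝ ((⊤ : ℕ∞) : WithTop ℕ∞) b ∧
    (∃ K : Set (E n), IsCompact K ∧ K ⊆ Bl n ∧ ∀ x, x ∉ K → b x = 0) ∧ ∫ x, b x = 1 := by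
  have h0 : (0 : E n) ∈ Bl n := by rw [mem_Bl, en_zero]; norm_num
  obtain ⟨r, hr, hrB⟩ := Metric.nhds_basis_closedBall.mem_iff.1 (isOpen_Bl.mem_nhds h0)
  let f : ContDiffBump (0 : E n) := ⟨r / 2, r, by positivity, by linarith⟩
  refine ⟨f.normed volume, f.contDiff_normed, ⟨closedBall 0 r, isCompact_closedBall _ _, hrB, ?_⟩,
    f.integral_normed⟩
  intro x hx
  have h1 : x ∉ Function.support (f.normed volume) := by
    rw [f.support_normed_eq]
    exact fun h => hx (ball_subset_closedBall h)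
  simpa using h1

end Pool.Agent.W_68f289_h35

end
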