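import Pool.Agent.W_68f289_h35m.Al

section

/-!
Extension of the Calabi homomorphism.
-/

open Set Metric Topology Pool.Agent.W_MP_68f289_gt MeasureTheory Filter commutatorElement
open scoped NNReal ContDiff

namespace Pool.Agent.W_68f289_h35

/-- elements with a Calabi invariant are hameomorphisms -/
lemma HasCal.mem {n : ℕ} {u : E n ≃ₜ E n} {c : ℝ} (h : HasCal u c) : u ∈ Hameo n := by
  obtain ⟨K, H, ψ, Φ, h1, h2, -⟩ := h
  rw [← h2]
  exact h1.endp_mem

/-- Hameomorphisms as a subgroup of the group of Hamiltonian homeomorphisms. It is normal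
(`HasCal.conj`), invariant under homotheties (`HasCal.homoth`), contains the smallest nontrivial
normal subgroup, and so does the kernel of `C`, which is normal in `G n` because `C` is invariant
under conjugation by elements of `G n` (`HasCal.conj`), and nontrivial (it contains the commutators
of Hamiltonian diffeos, some of which are nontrivial). Apply `extend_hom` with `Γ = G n`,
`S = Hameo n` in `G n`, `M` = kernel of `C`, `σ` = homothety by `r`, `κ = r ^ (2 n + 2)`. -/
theorem exists_extension {n : ℕ} (hn : 1 ≤ n) {C : Hm n →* Multiplicative ℝ}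
    (hC : ∀ (u : Hm n) (c : ℝ), HasCal (u : E n ≃ₜ E n) c ↔ (C u).toAdd = c) :
    ∃ D : G n →* Multiplicative ℝ, ∀ (u : Hm n) (v : G n), (v : E n ≃ₜ E n) = u → D v = C u := by
  let S : Subgroup (G n) := (Hameo n).subgroupOf (HamBar n)
  let C' : S →* Multiplicative ℝ :=
    { toFun := fun x => C ⟨((x : G n) : E n ≃ₜ E n), x.2⟩
      map_one' := C.map_one
      map_mul' := fun x y => C.map_mul ⟨((x : G n) : E n ≃ₜ E n), x.2⟩
        ⟨((y : G n) : E n ≃ₜ E n), y.2⟩ }
  have hC' : ∀ (x : G n) (hx : x ∈ S) (c : ℝ),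
      HasCal (x : E n ≃ₜ E n) c ↔ (C' ⟨x, hx⟩).toAdd = c := fun x hx c => hC ⟨x, hx⟩ c
  have hS : ∀ (x : G n) (c : ℝ), HasCal (x : E n ≃ₜ E n) c → x ∈ S := fun x c h => h.mem
  let N : Subgroup (G n) := C'.ker.map S.subtype
  have hNmem : ∀ x : G n, x ∈ N ↔ HasCal (x : E n ≃ₜ E n) 0 := by
    intro x
    constructor
    · rintro ⟨y, hy, rfl⟩
      refine (hC' (y : G n) y.2 0).2 ?_
      have h1 : C' y = 1 := hy
      exact congrArg Multiplicative.toAdd h1
    · intro h
      refine ⟨⟨x, hS x 0 h⟩, ?_, rfl⟩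
      have h1 := (hC' x (hS x 0 h) 0).1 h
      exact congrArg Multiplicative.ofAdd h1
  have hN : N.Normal := by
    refine ⟨fun m hm g => ?_⟩
    rw [hNmem] at hm ⊢
    exact hm.conj g.2
  have hN1 : N ≠ ⊥ := by
    intro h
    apply (sysL hn (big_Hameo (n := n))).Mo_ne_bot
    rw [eq_bot_iff]
    unfold Mo
    rw [Subgroup.commutator_le]
    intro a _ b _
    have h1 : C ⁅a, b⁆ = 1 := by
      rw [map_commutatorElement]
      exact commutatorElement_eq_one_iff_mul_comm.2 (mul_comm _ _)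
    have h2 : HasCal ((⁅a, b⁆ : Hm n) : E n ≃ₜ E n) 0 :=
      (hC ⁅a, b⁆ 0).2 (congrArg Multiplicative.toAdd h1)
    have h3 : (⟨((⁅a, b⁆ : Hm n) : E n ≃ₜ E n), Hameo_le (⁅a, b⁆ : Hm n).2⟩ : G n) ∈ N :=
      (hNmem _).2 h2
    rw [h, Subgroup.mem_bot] at h3
    rw [Subgroup.mem_bot]
    exact Subtype.ext (congrArg (fun x : G n => (x : E n ≃ₜ E n)) h3)
  have hhom : ∀ (r : ℝ) (h0 : 0 < r) (h1 : r ≤ 1) (h : G n) (hh : h ∈ S),
      HasCal ((((sc n r h0 h1).a h : G n)) : E n ≃ₜ E n)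
        (r ^ (2 * n + 2) * (C' ⟨h, hh⟩).toAdd) := by
    intro r h0 h1 h hh
    exact ((hC' h hh _).2 rfl).homoth h0 h1
  have hσH : ∀ (r : ℝ) (h0 : 0 < r) (h1 : r ≤ 1), ∀ h ∈ S, (sc n r h0 h1).a h ∈ S :=
    fun r h0 h1 h hh => hS _ _ (hhom r h0 h1 h hh)
  obtain ⟨D, hD⟩ := exists_extend_HamBar hn N hN hN1 S C'
    (fun x hx hxN => congrArg Multiplicative.ofAdd ((hC' x hx 0).1 ((hNmem x).1 hxN))) hσH
    (fun r => r ^ (2 * n + 2)) (fun r h0 _ => (pow_pos h0 _).ne')
    (fun r h0 h1 h hh => (hC' _ (hσH r h0 h1 h hh) _).1 (hhom r h0 h1 h hh))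
  refine ⟨D, fun u v huv => ?_⟩
  have hv : v ∈ S := by
    change (v : E n ≃ₜ E n) ∈ Hameo n
    rw [huv]
    exact u.2
  rw [hD v hv]
  exact congrArg C (Subtype.ext huv)

end Pool.Agent.W_68f289_h35

end

section

/-!
Closed normal subgroups.
-/

open Set Metric Topology Pool.Agent.W_MP_68f289_gt MeasureTheory Filter
open scoped NNReal ContDiff

namespace Pool.Agent.W_68f289_h35

variable {n : ℕ}

/-- flows of the multiples of an autonomous Hamiltonian -/
lemma FinA_flow {b : E n → ℝ} {χ : ℝ → E n → E n} (hb : ContDiff ℝ ((⊤ : ℕ∞) : WithTop ℕ∞) b)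
    (h : HIso n (fun _ => b) χ) (c : ℝ) :
    HIso n (fun _ x => c * b x) (fun t x => χ (c * t) x) := by
  obtain ⟨K, hK, hKB, h0⟩ := h.supp
  refine ⟨?_, ⟨K, hK, hKB, ?_⟩, ?_, ?_⟩
  · exact contDiff_const.mul (hb.comp contDiff_snd)
  · intro t x hx
    rw [h0 t x hx, mul_zero]
  · intro x
    rw [mul_zero, h.zero]
  · intro t x
    have hd : DifferentiableAt ℝ b (χ (c * t) x) := hb.differentiable (by simp) _
    have h1 := h.der (c * t) x
    have h2 : HasDerivAt (fun s : ℝ => c * s) c t := by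
      simpa using (hasDerivAt_id t).const_mul c
    have h3 := HasDerivAt.scomp (g₁ := fun s => χ s x) t h1 h2
    change HasDerivAt (fun s => χ (c * s) x) (XH (fun x => c * b x) (χ (c * t) x)) t
    rw [XH_const_mul hd]
    exact h3

/-- bound for the autonomous field -/
lemma FinA_bound {b : E n → ℝ} {χ : ℝ → E n → E n} (h : HIso n (fun _ => b) χ) :
    ∃ M : ℝ, 0 ≤ M ∧ ∀ x, ‖XH b x‖ ≤ M := by
  obtain ⟨K, -, -, hC⟩ := HIso.cfield h
  obtain ⟨C, hg, -, -⟩ := hC.exists_bounds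
  exact ⟨C, C.2, fun x => hg.bd 0 (by simp) x⟩

lemma FinA_dist {b : E n → ℝ} {χ : ℝ → E n → E n} (h : HIso n (fun _ => b) χ) {M : ℝ}
    (hM : ∀ x, ‖XH b x‖ ≤ M) (s t : ℝ) (x : E n) : dist (χ s x) (χ t x) ≤ M * |s - t| := by
  have h1 := Convex.norm_image_sub_le_of_norm_hasDerivWithin_le (f := fun s => χ s x)
    (f' := fun s => XH b (χ s x)) (s := univ) (x := t) (y := s) (C := M)
    (fun r _ => (h.der r x).hasDerivWithinAt) (fun r _ => hM _) convex_univ (mem_univ _)
    (mem_univ _)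
  rw [dist_eq_norm]
  exact h1

/-- the Calabi invariant of the multiples of a bump -/
lemma FinA_cal {b : E n → ℝ} (hb1 : ∫ x, b x = 1) (c : ℝ) : cal (fun _ x => c * b x) = c := by
  have h1 : cal (fun _ x => c * b x) = c * cal (fun _ => b) := cal_const_mul (fun _ => b) c
  have h2 : cal (fun _ : ℝ => b) = 1 := by
    unfold cal
    simp only [hb1]
    simp
  rw [h1, h2, mul_one]

/-- the invariants of Hamiltonian diffeos -/
lemma FinA_hasCal {G : ℝ → E n → ℝ} {χ : ℝ → E n → E n} (h : HIso n G χ) :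
    HasCal (tm h : E n ≃ₜ E n) (cal G) := by
  obtain ⟨K, hK, hKB, h0⟩ := h.supp
  exact ⟨K, fun _ => G, fun _ => χ, fun t => HIso.homeo h t, TPath.of_HIso h hK hKB h0, rfl,
    tendsto_const_nhds⟩

/-- the path of the multiples of a bump -/
lemma FinA_path {b : E n → ℝ} {χ : ℝ → E n → E n} (hb : ContDiff ℝ ((⊤ : ℕ∞) : WithTop ℕ∞) b)
    (h : HIso n (fun _ => b) χ) {K : Set (E n)} (hK : IsCompact K) (hKB : K ⊆ Bl n)
    (h0 : ∀ x, x ∉ K → b x = 0) {c : ℕ → ℝ} {a : ℝ} (hc : Tendsto c atTop (𝓝 a)) :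
    TPath n K (fun k _ x => c k * b x) (fun k t x => χ (c k * t) x)
      (fun t => HIso.homeo (FinA_flow hb h a) t) := by
  have hbd : ∀ _ : ℝ, Bd b := by
    intro t
    exact bd_of_supp (H := fun _ => b) (hb.continuous.comp continuous_snd) hK (fun _ => h0) t
  refine ⟨hK, hKB, fun k => FinA_flow hb h (c k), ?_, ?_, ?_⟩
  · intro k t x hx
    rw [h0 x hx, mul_zero]
  · intro ε hε
    have hcs : CauchySeq c := hc.cauchySeq
    have hB : 0 ≤ hofer (fun _ : ℝ => b) := hofer_nonneg hbd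
    obtain ⟨N, hN⟩ := Metric.cauchySeq_iff.1 hcs (ε / (hofer (fun _ : ℝ => b) + 1))
      (by positivity)
    refine ⟨N, fun j k hj hk => ?_⟩
    have h1 : (fun (t : ℝ) (x : E n) => (fun k (_ : ℝ) x => c k * b x) j t x -
        (fun k (_ : ℝ) x => c k * b x) k t x) = fun _ x => (c j - c k) * b x := by
      funext t x
      ring
    rw [h1, hofer_const_mul hbd]
    have h2 := hN j hj k hk
    rw [Real.dist_eq, lt_div_iff₀ (by positivity)] at h2
    nlinarith [abs_nonneg (c j - c k)]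
  · intro ε hε
    obtain ⟨M, hM0, hM⟩ := FinA_bound h
    obtain ⟨N, hN⟩ := Metric.tendsto_atTop.1 hc (ε / (M + 1)) (by positivity)
    refine ⟨N, fun k hk t x => ?_⟩
    have h1 := FinA_dist h hM (c k * t) (a * t) x
    have h2 := hN k hk
    rw [Real.dist_eq, lt_div_iff₀ (by positivity)] at h2
    have h3 : |c k * t - a * t| ≤ |c k - a| := by
      rw [← sub_mul, abs_mul, abs_of_nonneg t.2.1]
      exact mul_le_of_le_one_right (abs_nonneg _) t.2.2
    change dist (χ (c k * t) x) (χ (a * t) x) < ε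
    calc dist (χ (c k * t) x) (χ (a * t) x) ≤ M * |c k * t - a * t| := h1
      _ ≤ M * |c k - a| := mul_le_mul_of_nonneg_left h3 hM0
      _ < ε := by nlinarith [abs_nonneg (c k - a)]

/-- a bump, its flow -/
lemma FinA_bump (n : ℕ) : ∃ (b : E n → ℝ) (χ : ℝ → E n → E n) (K : Set (E n)),
    ContDiff ℝ ((⊤ : ℕ∞) : WithTop ℕ∞) b ∧ IsCompact K ∧ K ⊆ Bl n ∧ (∀ x, x ∉ K → b x = 0) ∧
      ∫ x, b x = 1 ∧ HIso n (fun _ => b) χ := by
  obtain ⟨b, hb, ⟨K, hK, hKB, h0⟩, h1⟩ := exists_bump n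
  obtain ⟨χ, hχ⟩ := exists_flow (H := fun _ => b) (hb.comp contDiff_snd) hK hKB (fun _ => h0)
  exact ⟨b, χ, K, hb, hK, hKB, h0, h1, hχ⟩

/-- in the first case, the closed nontrivial normal subgroups are the preimages of the closed
subgroups of `ℝ`. Direct part: `N` contains the kernel of `C` by `mem_of_tendsto_zero`, so
`N = C⁻¹ (C N)`, and `C N` is closed: if `c k → c`, `c k ∈ C N`, then the constant-in-time
Hamiltonians `c k * b x`, `b` the bump of `exists_bump`, form a topological Hamiltonian path, whose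
time-one maps have invariant `c k`, so are in `N`. Converse: `C⁻¹ Λ` is normal; it is closed because the
time-one map of `ψ k` has invariant `cal (H k)`, which converges to the invariant of the end point; it
is nontrivial as it contains the kernel. -/
theorem closed_normal_iff (hn : 1 ≤ n) {C : Hm n →* Multiplicative ℝ}
    (hC : ∀ (u : Hm n) (c : ℝ), HasCal (u : E n ≃ₜ E n) c ↔ (C u).toAdd = c)
    (N : Subgroup (Hm n)) (hN1 : N ≠ ⊥) : N.Normal ∧ HClosed N ↔
      ∃ Λ : AddSubgroup ℝ, IsClosed (Λ : Set ℝ) ∧ ∀ u : Hm n, u ∈ N ↔ (C u).toAdd ∈ Λ := by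
  constructor
  · rintro ⟨hN, hNc⟩
    have key : ∀ w : Hm n, (C w).toAdd = 0 → w ∈ N := by
      intro w hw
      obtain ⟨K, H, ψ, Φ, h1, h2, h3⟩ := (hC w 0).2 hw
      exact mem_of_tendsto_zero hn hN hN1 hNc h1 h3 h2.symm
    let Λ : AddSubgroup ℝ :=
      { carrier := {c | ∃ u ∈ N, (C u).toAdd = c}
        zero_mem' := ⟨1, N.one_mem, by rw [map_one]; rfl⟩
        add_mem' := by
          rintro _ _ ⟨u, hu, rfl⟩ ⟨v, hv, rfl⟩
          exact ⟨u * v, N.mul_mem hu hv, by rw [map_mul]; rfl⟩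
        neg_mem' := by
          rintro _ ⟨u, hu, rfl⟩
          exact ⟨u⁻¹, N.inv_mem hu, by rw [map_inv]; rfl⟩ }
    have hmem : ∀ u : Hm n, u ∈ N ↔ (C u).toAdd ∈ Λ := by
      intro u
      constructor
      · intro hu
        exact ⟨u, hu, rfl⟩
      · rintro ⟨v, hv, hvu⟩
        have h1 : u * v⁻¹ ∈ N := by
          apply key
          rw [map_mul, map_inv, toAdd_mul, toAdd_inv, hvu, add_neg_cancel]
        have h2 := N.mul_mem h1 hv
        rwa [inv_mul_cancel_right] at h2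
    refine ⟨Λ, ?_, hmem⟩
    apply IsSeqClosed.isClosed
    intro c a hc hca
    obtain ⟨b, χ, K, hb, hK, hKB, h0, hb1, hχ⟩ := FinA_bump n
    have hp := FinA_path hb hχ hK hKB h0 hca
    obtain ⟨u, hu, hue⟩ := hNc _ _ _ _ hp (fun k => by
      refine ⟨tm (FinA_flow hb hχ (c k)), ?_, fun x => rfl⟩
      rw [hmem]
      have h1 := FinA_hasCal (FinA_flow hb hχ (c k))
      rw [FinA_cal hb1] at h1
      rw [(hC _ _).1 h1]
      exact hc k)
    have h2 : HasCal (u : E n ≃ₜ E n) a := by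
      refine ⟨_, _, _, _, hp, hue.symm, ?_⟩
      simp only [FinA_cal hb1]
      exact hca
    rw [← (hC _ _).1 h2]
    exact (hmem u).1 hu
  · rintro ⟨Λ, hΛ, hmem⟩
    refine ⟨⟨fun u hu g => ?_⟩, ?_⟩
    · rw [hmem] at hu ⊢
      have h1 : C (g * u * g⁻¹) = C u := by
        rw [map_mul C, map_mul C, map_inv C, mul_comm (C g), mul_inv_cancel_right]
      rw [h1]
      exact hu
    · intro K H ψ Φ hp hk
      obtain ⟨a, ha⟩ := hp.cal_tendsto hn
      refine ⟨⟨endp Φ, hp.endp_mem⟩, ?_, rfl⟩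
      rw [hmem]
      have h1 : HasCal ((⟨endp Φ, hp.endp_mem⟩ : Hm n) : E n ≃ₜ E n) a :=
        ⟨K, H, ψ, Φ, hp, rfl, ha⟩
      rw [(hC _ _).1 h1]
      refine hΛ.mem_of_tendsto ha (Eventually.of_forall fun k => ?_)
      obtain ⟨u, hu, hux⟩ := hk k
      have h2 : u = tm (hp.iso k) := by
        apply Subtype.ext
        ext x : 1
        exact hux x
      have h3 := FinA_hasCal (hp.iso k)
      rw [← h2] at h3
      have h4 := (hmem u).1 hu
      rw [(hC _ _).1 h3] at h4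
      exact h4

end Pool.Agent.W_68f289_h35

end

section

/-!
Not simple.
-/

open Set Metric Topology Pool.Agent.W_MP_68f289_gt MeasureTheory Filter
open scoped NNReal ContDiff

namespace Pool.Agent.W_68f289_h35

variable {n : ℕ}

theorem FinB_aux (hn : 1 ≤ n) {L : Subgroup (E n ≃ₜ E n)} (hL : Big L)
    {D : L →* Multiplicative ℝ} (hD : D ≠ 1) : ¬ IsSimpleGroup L := by
  intro hs
  have S := sysL hn hL
  rcases hs.eq_bot_or_eq_top_of_normal D.ker inferInstance with h | h
  · apply S.Mo_ne_bot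
    rw [eq_bot_iff, ← h, Mo, Subgroup.commutator_le]
    intro a _ b _
    rw [MonoidHom.mem_ker, map_commutatorElement, commutatorElement_eq_one_iff_mul_comm]
    exact mul_comm _ _
  · apply hD
    ext x
    have hx : x ∈ D.ker := by
      rw [h]
      exact Subgroup.mem_top _
    rw [MonoidHom.mem_ker] at hx
    rw [hx]
    rfl

/-- a group with a nontrivial real character with nontrivial kernel is not simple; `G n` and `Hm n`
have noncommuting elements (library: `comm_mem` for the trivial... or `Mo ≠ ⊥`), so the kernel is not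
trivial -/
theorem not_simple (hn : 1 ≤ n) {C : Hm n →* Multiplicative ℝ} (hC1 : C ≠ 1) :
    ¬ IsSimpleGroup (Hm n) :=
  FinB_aux hn big_Hameo hC1

theorem not_simple' (hn : 1 ≤ n) {D : G n →* Multiplicative ℝ} (hD : D ≠ 1) :
    ¬ IsSimpleGroup (G n) :=
  FinB_aux hn big_HamBar hD

end Pool.Agent.W_68f289_h35

end
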