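import Pool.Agent.W_68f289_h35m.Tq

section

/-!
Small Hamiltonian diffeos.
-/

open Set Metric Topology Pool.Agent.W_MP_68f289_gt MeasureTheory Filter
open scoped NNReal ContDiff

namespace Pool.Agent.W_68f289_h35

variable {n : ℕ}

/-- time-one maps of flows supported in `K`, of Hofer length at most `ε`, which stay within `ε` of
the identity -/
def Small (K : Set (E n)) (ε : ℝ) (v : Hm n) : Prop :=
  ∃ (L : ℝ → E n → ℝ) (μ : ℝ → E n → E n), HIso n L μ ∧ (∀ t, ∀ x, x ∉ K → L t x = 0) ∧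
    hofer L ≤ ε ∧ (∀ t ∈ Icc (0 : ℝ) 1, ∀ x, dist (μ t x) x ≤ ε) ∧
    ∀ x, (v : E n ≃ₜ E n) x = μ 1 x

/-- the time changes of `isHam_mul` are monotone -/
lemma NzA_mono (b : ℝ) (t : ℝ) : 0 ≤ deriv (fun t : ℝ => th (3 * t - b)) t := by
  have h : Monotone (fun t : ℝ => th (3 * t - b)) := by
    intro s t hst
    exact Real.smoothTransition.monotone (by linarith)
  exact h.deriv_nonneg

/-- concatenation of flows, see `isHam_mul` -/
lemma NzA_concat {Hu Hv : ℝ → E n → ℝ} {pu pv : ℝ → E n → E n} (hu : HIso n Hu pu)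
    (hv : HIso n Hv pv) :
    HIso n (fun t x => deriv (fun t : ℝ => th (3 * t - 0)) t * Hv (th (3 * t - 0)) x +
      deriv (fun t : ℝ => th (3 * t - 2)) t * Hu (th (3 * t - 2)) x)
      (fun t x => pu (th (3 * t - 2)) (pv (th (3 * t - 0)) x)) := by
  set r1 : ℝ → ℝ := fun t => th (3 * t - 0) with hr1
  set r2 : ℝ → ℝ := fun t => th (3 * t - 2) with hr2
  have hr1s : ContDiff ℝ ((⊤ : ℕ∞) : WithTop ℕ∞) r1 := th_comp_smooth 3 0
  have hr2s : ContDiff ℝ ((⊤ : ℕ∞) : WithTop ℕ∞) r2 := th_comp_smooth 3 2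
  have hr1d : ContDiff ℝ ((⊤ : ℕ∞) : WithTop ℕ∞) (deriv r1) := (contDiff_infty_iff_deriv.1 hr1s).2
  have hr2d : ContDiff ℝ ((⊤ : ℕ∞) : WithTop ℕ∞) (deriv r2) := (contDiff_infty_iff_deriv.1 hr2s).2
  have h1 : ∀ t : ℝ, 1 / 3 < t → r1 =ᶠ[𝓝 t] fun _ => 1 := by
    intro t ht
    filter_upwards [Ioi_mem_nhds ht] with s hs
    exact Real.smoothTransition.one_of_one_le (by have : 1 / 3 < s := hs; linarith)
  have h2 : ∀ t : ℝ, t < 2 / 3 → r2 =ᶠ[𝓝 t] fun _ => 0 := by
    intro t ht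
    filter_upwards [Iio_mem_nhds ht] with s hs
    exact Real.smoothTransition.zero_of_nonpos (by have : s < 2 / 3 := hs; linarith)
  have hd1 : ∀ t, HasDerivAt r1 (deriv r1 t) t := fun t =>
    (hr1s.differentiable (by simp) t).hasDerivAt
  have hd2 : ∀ t, HasDerivAt r2 (deriv r2 t) t := fun t =>
    (hr2s.differentiable (by simp) t).hasDerivAt
  refine ⟨?_, ?_, ?_, ?_⟩
  · refine ContDiff.add ?_ ?_
    · exact (hr1d.comp contDiff_fst).mul (hv.smooth.comp ((hr1s.comp contDiff_fst).prodMk contDiff_snd))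
    · exact (hr2d.comp contDiff_fst).mul (hu.smooth.comp ((hr2s.comp contDiff_fst).prodMk contDiff_snd))
  · obtain ⟨K, hK, hKB, hKs⟩ := hu.supp
    obtain ⟨K', hK', hKB', hKs'⟩ := hv.supp
    refine ⟨K ∪ K', hK.union hK', union_subset hKB hKB', fun t x hx => ?_⟩
    rw [mem_union, not_or] at hx
    show deriv r1 t * Hv (r1 t) x + deriv r2 t * Hu (r2 t) x = 0
    rw [hKs _ _ hx.1, hKs' _ _ hx.2]; ring
  · intro x
    have e1 : r1 0 = 0 := Real.smoothTransition.zero_of_nonpos (by norm_num)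
    have e2 : r2 0 = 0 := Real.smoothTransition.zero_of_nonpos (by norm_num)
    show pu (r2 0) (pv (r1 0) x) = x
    rw [e1, e2, hu.zero, hv.zero]
  · intro t x
    show HasDerivAt (fun s => pu (r2 s) (pv (r1 s) x))
      (XH (fun x => deriv r1 t * Hv (r1 t) x + deriv r2 t * Hu (r2 t) x)
        (pu (r2 t) (pv (r1 t) x))) t
    rcases lt_or_ge t (2 / 3) with ht | ht
    · have e0 : r2 t = 0 := (h2 t ht).eq_of_nhds
      have e1 : deriv r2 t = 0 := by rw [(h2 t ht).deriv_eq, deriv_const]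
      have e2 : (fun s => pu (r2 s) (pv (r1 s) x)) =ᶠ[𝓝 t] fun s => pv (r1 s) x := by
        filter_upwards [h2 t ht] with s hs
        rw [hs, hu.zero]
      refine HasDerivAt.congr_of_eventuallyEq ?_ e2
      have e3 : (fun x => deriv r1 t * Hv (r1 t) x + deriv r2 t * Hu (r2 t) x) =
          fun x => deriv r1 t * Hv (r1 t) x := by
        funext y; rw [e1]; ring
      rw [e3, XH_const_mul (HIso.smooth_t hv _ _), e0, hu.zero]
      exact (hv.der (r1 t) x).scomp t (hd1 t)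
    · have ht' : 1 / 3 < t := by linarith
      have e0 : r1 t = 1 := (h1 t ht').eq_of_nhds
      have e1 : deriv r1 t = 0 := by rw [(h1 t ht').deriv_eq, deriv_const]
      have e2 : (fun s => pu (r2 s) (pv (r1 s) x)) =ᶠ[𝓝 t] fun s => pu (r2 s) (pv 1 x) := by
        filter_upwards [h1 t ht'] with s hs
        rw [hs]
      refine HasDerivAt.congr_of_eventuallyEq ?_ e2
      have e3 : (fun x => deriv r1 t * Hv (r1 t) x + deriv r2 t * Hu (r2 t) x) =
          fun x => deriv r2 t * Hu (r2 t) x := by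
        funext y; rw [e1]; ring
      rw [e3, XH_const_mul (HIso.smooth_t hu _ _), e0]
      exact (hu.der (r2 t) (pv 1 x)).scomp t (hd2 t)

/-- concatenate as in `isHam_mul` (`r1 t = th (3 t)`, `r2 t = th (3 t - 2)`) -/
lemma Small.mul {K : Set (E n)} (hc : IsCompact K) {ε δ : ℝ} {v w : Hm n}
    (hv : Small K ε v) (hw : Small K δ w) : Small K (ε + δ) (v * w) := by
  obtain ⟨Lv, μv, hv1, hv2, hv3, hv4, hv5⟩ := hv
  obtain ⟨Lw, μw, hw1, hw2, hw3, hw4, hw5⟩ := hw
  set r1 : ℝ → ℝ := fun t => th (3 * t - 0) with hr1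
  set r2 : ℝ → ℝ := fun t => th (3 * t - 2) with hr2
  have hr1s : ContDiff ℝ ((⊤ : ℕ∞) : WithTop ℕ∞) r1 := th_comp_smooth 3 0
  have hr2s : ContDiff ℝ ((⊤ : ℕ∞) : WithTop ℕ∞) r2 := th_comp_smooth 3 2
  have hr1d : ContDiff ℝ ((⊤ : ℕ∞) : WithTop ℕ∞) (deriv r1) := (contDiff_infty_iff_deriv.1 hr1s).2
  have hr2d : ContDiff ℝ ((⊤ : ℕ∞) : WithTop ℕ∞) (deriv r2) := (contDiff_infty_iff_deriv.1 hr2s).2
  have hr1m : ∀ t, r1 t ∈ Icc (0 : ℝ) 1 := fun t =>
    ⟨Real.smoothTransition.nonneg _, Real.smoothTransition.le_one _⟩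
  have hr2m : ∀ t, r2 t ∈ Icc (0 : ℝ) 1 := fun t =>
    ⟨Real.smoothTransition.nonneg _, Real.smoothTransition.le_one _⟩
  refine ⟨fun t x => deriv r1 t * Lw (r1 t) x + deriv r2 t * Lv (r2 t) x,
    fun t x => μv (r2 t) (μw (r1 t) x), NzA_concat hv1 hw1, ?_, ?_, ?_, ?_⟩
  · intro t x hx
    show deriv r1 t * Lw (r1 t) x + deriv r2 t * Lv (r2 t) x = 0
    rw [hv2 _ x hx, hw2 _ x hx]
    ring
  · have c1 : Continuous (Function.uncurry (fun (t : ℝ) (x : E n) => deriv r1 t * Lw (r1 t) x)) :=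
      ((hr1d.comp contDiff_fst).mul
        (hw1.smooth.comp ((hr1s.comp contDiff_fst).prodMk contDiff_snd))).continuous
    have c2 : Continuous (Function.uncurry (fun (t : ℝ) (x : E n) => deriv r2 t * Lv (r2 t) x)) :=
      ((hr2d.comp contDiff_fst).mul
        (hv1.smooth.comp ((hr2s.comp contDiff_fst).prodMk contDiff_snd))).continuous
    have a1 := hofer_add_le c1 c2 hc
      (fun t x hx => by show deriv r1 t * Lw (r1 t) x = 0; rw [hw2 _ x hx, mul_zero])
      (fun t x hx => by show deriv r2 t * Lv (r2 t) x = 0; rw [hv2 _ x hx, mul_zero])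
    have a2 := hofer_reparam_le hw1.smooth.continuous hc hw2 hr1s (NzA_mono 0) (hr1m 0).1 (hr1m 1).2
    have a3 := hofer_reparam_le hv1.smooth.continuous hc hv2 hr2s (NzA_mono 2) (hr2m 0).1 (hr2m 1).2
    calc hofer (fun t x => deriv r1 t * Lw (r1 t) x + deriv r2 t * Lv (r2 t) x)
        ≤ hofer (fun t x => deriv r1 t * Lw (r1 t) x) +
          hofer (fun t x => deriv r2 t * Lv (r2 t) x) := a1
      _ ≤ hofer Lw + hofer Lv := add_le_add a2 a3
      _ ≤ ε + δ := by linarith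
  · intro t ht x
    calc dist (μv (r2 t) (μw (r1 t) x)) x
        ≤ dist (μv (r2 t) (μw (r1 t) x)) (μw (r1 t) x) + dist (μw (r1 t) x) x := dist_triangle _ _ _
      _ ≤ ε + δ := add_le_add (hv4 _ (hr2m t) _) (hw4 _ (hr1m t) _)
  · intro x
    have e1 : r1 1 = 1 := Real.smoothTransition.one_of_one_le (by norm_num)
    have e2 : r2 1 = 1 := Real.smoothTransition.one_of_one_le (by norm_num)
    show (v : E n ≃ₜ E n) ((w : E n ≃ₜ E n) x) = μv (r2 1) (μw (r1 1) x)
    rw [e1, e2, ← hw5, ← hv5]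

/-- the zero Hamiltonian -/
lemma Small.one (K : Set (E n)) {ε : ℝ} (hε : 0 ≤ ε) : Small K ε (1 : Hm n) := by
  refine ⟨fun _ _ => 0, fun _ x => x, ⟨contDiff_const, ⟨∅, isCompact_empty, empty_subset _,
    fun _ _ _ => rfl⟩, fun _ => rfl, fun t x => ?_⟩, fun _ _ _ => rfl, ?_, ?_, fun _ => rfl⟩
  · rw [XH_zero]
    exact hasDerivAt_const _ _
  · have : hofer (fun (_ : ℝ) (_ : E n) => (0 : ℝ)) = 0 := by
      unfold Pool.Agent.W_MP_68f289_gt.hofer
      simp
    rw [this]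
    exact hε
  · intro t _ x
    simpa using hε

lemma Small.mono {K : Set (E n)} {ε δ : ℝ} (h : ε ≤ δ) {v : Hm n} (hv : Small K ε v) :
    Small K δ v := by
  obtain ⟨L, μ, h1, h2, h3, h4, h5⟩ := hv
  exact ⟨L, μ, h1, h2, h3.trans h, fun t ht x => (h4 t ht x).trans h, h5⟩

lemma Small.isHam {K : Set (E n)} {ε : ℝ} {v : Hm n} (hv : Small K ε v) :
    IsHam n (v : E n ≃ₜ E n) := by
  obtain ⟨L, μ, h1, -, -, -, h5⟩ := hv
  exact ⟨L, μ, h1, h5⟩

end Pool.Agent.W_68f289_h35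

end

section

/-!
Commutators; closed normal subgroups.
-/

open Set Metric Topology Pool.Agent.W_MP_68f289_gt MeasureTheory Filter
open scoped NNReal ContDiff

namespace Pool.Agent.W_68f289_h35

variable {n : ℕ}

/-- the time-one map of a flow, as a hameomorphism -/
noncomputable def tm {H : ℝ → E n → ℝ} {ψ : ℝ → E n → E n} (h : HIso n H ψ) : Hm n :=
  ⟨HIso.homeo h 1, Subgroup.subset_closure (isHam_hameos ⟨H, ψ, h, fun _ => rfl⟩)⟩

lemma tm_apply {H : ℝ → E n → ℝ} {ψ : ℝ → E n → E n} (h : HIso n H ψ) (x : E n) :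
    (tm h : E n ≃ₜ E n) x = ψ 1 x := rfl

lemma tm_isHam {H : ℝ → E n → ℝ} {ψ : ℝ → E n → E n} (h : HIso n H ψ) :
    IsHam n (tm h : E n ≃ₜ E n) := ⟨H, ψ, h, fun _ => rfl⟩

/-- commutators of Hamiltonian diffeos are in every nontrivial normal subgroup: library, `sysL`,
`Sys.Mo_le` and `isHam_memL` as in the proof of `dense_Mo`, or the statement of
`Results/MP_68f289_gt/Monolith.lean` -/
lemma comm_mem (hn : 1 ≤ n) {N : Subgroup (Hm n)} (hN : N.Normal) (hN1 : N ≠ ⊥) {u v : Hm n}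
    (hu : IsHam n (u : E n ≃ₜ E n)) (hv : IsHam n (v : E n ≃ₜ E n)) :
    u * v * u⁻¹ * v⁻¹ ∈ N := by
  have S := sysL hn (big_Hameo (n := n))
  have h1 : Mo (Hameo n) (Bl n) ≤ N := S.Mo_le hN1 (fun m _ l hl => hN.conj_mem l hl m)
  exact h1 (Subgroup.commutator_mem_commutator (isHam_memL big_Hameo hu) (Subgroup.mem_top v))

/-- If `u` is a Hamiltonian diffeo, and for every `ε > 0` there is a small `v` with `v * u ∈ N`, then
`u ∈ N`, for `N` closed. Proof: take `v k` for `ε = 1 / (k + 1)`, the topological Hamiltonian path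
`TPath.of_small` of the `v k`, the constant sequence `TPath.of_HIso` of `u`, and their concatenation
`TPath.mul`: its time-one maps are the `v k * u ∈ N` and its end point is `u`. -/
lemma HClosed.mem_of_small {N : Subgroup (Hm n)} (hN : HClosed N) {u : Hm n}
    (hu : IsHam n (u : E n ≃ₜ E n)) {K : Set (E n)} (hc : IsCompact K) (hKB : K ⊆ Bl n)
    (h : ∀ ε : ℝ, 0 < ε → ∃ v : Hm n, Small K ε v ∧ v * u ∈ N) : u ∈ N := by
  obtain ⟨G, χ, hG, hu1⟩ := hu
  obtain ⟨K', hK', hK'B, hsupp⟩ := hG.supp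
  have hpos : ∀ k : ℕ, (0 : ℝ) < 1 / ((k : ℝ) + 1) := fun k => by positivity
  choose v hv using fun k : ℕ => h (1 / ((k : ℝ) + 1)) (hpos k)
  choose L μ hL hLs hLh hLd hLv using fun k : ℕ => (hv k).1
  have hT1 : TPath n K L μ (fun _ => 1) :=
    TPath.of_small hc hKB hL hLs tendsto_one_div_add_atTop_nhds_zero_nat hLh hLd
  have hT2 := TPath.of_HIso hG hK' hK'B hsupp
  obtain ⟨K'', H'', ψ'', Φ'', hT, he, hψ, -⟩ := hT1.mul hT2
  obtain ⟨u', hu', hu'e⟩ := hN K'' H'' ψ'' Φ'' hT (fun k => ⟨v k * u, (hv k).2, fun x => by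
    rw [hψ k x]
    change (v k : E n ≃ₜ E n) ((u : E n ≃ₜ E n) x) = _
    rw [hLv k, hu1]⟩)
  have hfin : u' = u := by
    apply Subtype.ext
    rw [hu'e, he]
    apply Homeomorph.ext
    intro x
    change χ 1 x = (u : E n ≃ₜ E n) x
    exact (hu1 x).symm
  rwa [hfin] at hu'

end Pool.Agent.W_68f289_h35

end

section

/-!
C1-small Hamiltonians generate small diffeos.
-/

open Set Metric Topology Pool.Agent.W_MP_68f289_gt MeasureTheory Filter
open scoped NNReal ContDiff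

namespace Pool.Agent.W_68f289_h35

variable {n : ℕ}

/-- a Hamiltonian which is `C¹`-small generates a small diffeo: displacement at most
`∫ ‖XH‖ ≤ δ` by `norm_XH_le` and the mean value inequality -/
lemma small_of_C1 {H : ℝ → E n → ℝ} {ψ : ℝ → E n → E n} (h : HIso n H ψ) {K : Set (E n)}
    (hc : IsCompact K) (hK : ∀ t, ∀ x, x ∉ K → H t x = 0) {δ : ℝ}
    (h0 : ∀ t ∈ Icc (0 : ℝ) 1, ∀ x, |H t x| ≤ δ)
    (h1 : ∀ t ∈ Icc (0 : ℝ) 1, ∀ x, ‖fderiv ℝ (H t) x‖ ≤ δ) : Small K (2 * δ) (tm h) := by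
  have hδ : 0 ≤ δ := (abs_nonneg _).trans (h0 0 (left_mem_Icc.2 zero_le_one) 0)
  refine ⟨H, ψ, h, hK, ?_, ?_, fun x => tm_apply h x⟩
  · rw [hofer_eq]
    have h2 : ∀ t ∈ Set.uIoc (0 : ℝ) 1, ‖osc (H t)‖ ≤ 2 * δ := by
      intro t ht
      rw [uIoc_of_le zero_le_one] at ht
      have ht' := Ioc_subset_Icc_self ht
      rw [Real.norm_eq_abs, abs_of_nonneg (osc_nonneg ⟨δ, h0 t ht'⟩)]
      exact osc_le (h0 t ht')
    have h3 := intervalIntegral.norm_integral_le_of_norm_le_const h2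
    rw [sub_zero, abs_one, mul_one] at h3
    exact (le_abs_self _).trans h3
  · intro t ht x
    have h2 : ∀ s ∈ Icc (0 : ℝ) 1, HasDerivWithinAt (fun s : ℝ => ψ s x) (XH (H s) (ψ s x))
        (Icc 0 1) s := fun s _ => (h.der s x).hasDerivWithinAt
    have h3 : ∀ s ∈ Ico (0 : ℝ) 1, ‖XH (H s) (ψ s x)‖ ≤ δ := fun s hs =>
      (norm_XH_le _ _).trans (h1 s (Ico_subset_Icc_self hs) _)
    have h4 := norm_image_sub_le_of_norm_deriv_le_segment' h2 h3 t ht
    simp only [h.zero x, sub_zero] at h4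
    rw [dist_eq_norm]
    refine h4.trans ?_
    nlinarith [ht.1, ht.2]

end Pool.Agent.W_68f289_h35

end

section

/-!
Bounds for the comparison of flows.
-/

open Set Metric Topology Pool.Agent.W_MP_68f289_gt MeasureTheory Filter
open scoped NNReal ContDiff

namespace Pool.Agent.W_68f289_h35

variable {n : ℕ}

/-- the maps of a flow are Hamiltonian diffeos: `HIso.reparam` with `s τ = t * τ` -/
lemma HIso.isHam_homeo {H : ℝ → E n → ℝ} {ψ : ℝ → E n → E n} (h : HIso n H ψ) (t : ℝ) :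
    IsHam n (HIso.homeo h t) := by
  have hs : ContDiff ℝ ((⊤ : ℕ∞) : WithTop ℕ∞) (fun τ : ℝ => t * τ) :=
    contDiff_const.mul contDiff_id
  refine ⟨_, _, HIso.reparam h hs, fun x => ?_⟩
  have h0 : HIso.inv h 0 x = x := by
    have h1 := HIso.inv_apply h 0 x
    rwa [h.zero] at h1
  change ψ t x = ψ (t * 1) (HIso.inv h (t * 0) x)
  rw [mul_one, mul_zero, h0]

/-- the maps of a flow, as hameomorphisms -/
noncomputable def fl {H : ℝ → E n → ℝ} {ψ : ℝ → E n → E n} (h : HIso n H ψ) (t : ℝ) : Hm n :=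
  ⟨HIso.homeo h t, Subgroup.subset_closure (isHam_hameos (HIso.isHam_homeo h t))⟩

lemma fl_isHam {H : ℝ → E n → ℝ} {ψ : ℝ → E n → E n} (h : HIso n H ψ) (t : ℝ) :
    IsHam n (fl h t : E n ≃ₜ E n) := HIso.isHam_homeo h t

lemma fl_one {H : ℝ → E n → ℝ} {ψ : ℝ → E n → E n} (h : HIso n H ψ) : fl h 1 = tm h := rfl

lemma fl_zero {H : ℝ → E n → ℝ} {ψ : ℝ → E n → E n} (h : HIso n H ψ) : fl h 0 = 1 := by
  apply Subtype.ext
  apply Homeomorph.ext
  exact h.zero

lemma fl_apply {H : ℝ → E n → ℝ} {ψ : ℝ → E n → E n} (h : HIso n H ψ) (t : ℝ) (x : E n) :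
    (fl h t : E n ≃ₜ E n) x = ψ t x := rfl

/-- the inverse flow is the identity off the support -/
lemma HIso.inv_off {H : ℝ → E n → ℝ} {ψ : ℝ → E n → E n} (h : HIso n H ψ) {K : Set (E n)}
    (hc : IsCompact K) (hK : ∀ t, ∀ x, x ∉ K → H t x = 0) (t : ℝ) {x : E n} (hx : x ∉ K) :
    HIso.inv h t x = x := by
  have h1 := HIso.inv_apply h t x
  rwa [HIso.off h hc hK t hx] at h1

/-- Smooth functions of `(t, a, x)` which vanish for `x` off `K` are Lipschitz in `a`. -/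
lemma lip_param {W : Type*} [NormedAddCommGroup W] [NormedSpace ℝ W] {D : ℝ × ℝ × E n → W}
    (hD : ContDiff ℝ ((⊤ : ℕ∞) : WithTop ℕ∞) D) {K : Set (E n)} (hc : IsCompact K)
    (hK : ∀ t a x, x ∉ K → D (t, a, x) = 0) :
    ∃ M : ℝ, 0 ≤ M ∧ ∀ t ∈ Icc (0 : ℝ) 1, ∀ a ∈ Icc (0 : ℝ) 1, ∀ b ∈ Icc (0 : ℝ) 1, ∀ x,
      ‖D (t, b, x) - D (t, a, x)‖ ≤ M * |b - a| := by
  have hfd : Continuous (fun p : ℝ × ℝ × E n => fderiv ℝ D p) := hD.continuous_fderiv (by simp)
  obtain ⟨C, hC⟩ := ((isCompact_Icc (a := (0 : ℝ)) (b := 1)).prod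
    ((isCompact_Icc (a := (0 : ℝ)) (b := 1)).prod hc)).exists_bound_of_continuousOn
      hfd.continuousOn
  refine ⟨max C 0, le_max_right _ _, fun t ht a ha b hb x => ?_⟩
  by_cases hx : x ∈ K
  · have h1 : ∀ s ∈ Icc (0 : ℝ) 1, HasDerivWithinAt (fun s => D (t, s, x))
        (fderiv ℝ D (t, s, x) (0, 1, 0)) (Icc 0 1) s := by
      intro s _
      have h2 : HasFDerivAt D (fderiv ℝ D (t, s, x)) (t, s, x) :=
        (hD.differentiable (by simp) _).hasFDerivAt
      have h3 : HasDerivAt (fun s : ℝ => ((t, s, x) : ℝ × ℝ × E n)) (0, 1, 0) s :=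
        (hasDerivAt_const s t).prodMk ((hasDerivAt_id s).prodMk (hasDerivAt_const s x))
      exact (h2.comp_hasDerivAt s h3).hasDerivWithinAt
    have h4 := (convex_Icc (0 : ℝ) 1).norm_image_sub_le_of_norm_hasDerivWithin_le
      (C := max C 0) h1 (fun s hs => ?_) ha hb
    · rwa [Real.norm_eq_abs] at h4
    · calc ‖fderiv ℝ D (t, s, x) (0, 1, 0)‖
          ≤ ‖fderiv ℝ D (t, s, x)‖ * ‖((0, 1, 0) : ℝ × ℝ × E n)‖ :=
            ContinuousLinearMap.le_opNorm _ _
        _ ≤ max C 0 * 1 := by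
            gcongr
            · exact (hC _ ⟨ht, hs, hx⟩).trans (le_max_left _ _)
            · simp [Prod.norm_def]
        _ = _ := mul_one _
  · rw [hK _ _ _ hx, hK _ _ _ hx, sub_zero, norm_zero]
    positivity

/-- Analytic bounds. All functions involved are jointly smooth in the real parameters and `x`; those
in (1), (2) vanish for `x` off `K` and in (3) the map is the identity off `K`, so derivatives are
bounded for parameters in `[0, 1]` (compactness).
(1) `|H t (χ t x) - H t (χ a x)| ≤ M |t - a|`: mean value inequality in the second time variable for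
`(t, a, x) ↦ H t (χ a x)`. (2) the same for the space derivative. (3) the space derivative of
`P = (χ a)⁻¹ ∘ ψ t ∘ (ψ a)⁻¹ ∘ χ a`. -/
lemma inc_bounds {H L : ℝ → E n → ℝ} {ψ χ : ℝ → E n → E n} (h : HIso n H ψ) (hL : HIso n L χ)
    {K : Set (E n)} (hc : IsCompact K) (hK : ∀ t, ∀ x, x ∉ K → H t x = 0)
    (hK' : ∀ t, ∀ x, x ∉ K → L t x = 0) : ∃ M : ℝ, 0 ≤ M ∧
      ∀ t ∈ Icc (0 : ℝ) 1, ∀ a ∈ Icc (0 : ℝ) 1, ∀ x,
        |H t (χ t x) - H t (χ a x)| ≤ M * |t - a| ∧
        ‖fderiv ℝ (fun x => H t (χ t x) - H t (χ a x)) x‖ ≤ M * |t - a| ∧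
        ‖fderiv ℝ (fun x => HIso.inv hL a (ψ t (HIso.inv h a (χ a x)))) x‖ ≤ M := by
  -- the three functions
  have hF : ContDiff ℝ ((⊤ : ℕ∞) : WithTop ℕ∞)
      (fun p : ℝ × ℝ × E n => H p.1 (χ p.2.1 p.2.2)) :=
    h.smooth.comp (contDiff_fst.prodMk ((HIso.contDiff hL).comp
      ((contDiff_fst.comp contDiff_snd).prodMk (contDiff_snd.comp contDiff_snd))))
  have hF0 : ∀ t a x, x ∉ K → H t (χ a x) = 0 := by
    intro t a x hx
    rw [HIso.off hL hc hK' a hx]
    exact hK t x hx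
  have hD : ContDiff ℝ ((⊤ : ℕ∞) : WithTop ℕ∞)
      (fun p : ℝ × ℝ × E n => fderiv ℝ (fun y => H p.1 (χ p.2.1 y)) p.2.2) := by
    refine ContDiff.fderiv (𝕜 := ℝ) (f := fun (p : ℝ × ℝ × E n) (y : E n) => H p.1 (χ p.2.1 y))
      (g := fun p => p.2.2) (m := ((⊤ : ℕ∞) : WithTop ℕ∞)) (n := ((⊤ : ℕ∞) : WithTop ℕ∞))
      ?_ (contDiff_snd.comp contDiff_snd) (by simp)
    exact hF.comp ((contDiff_fst.comp contDiff_fst).prodMk
      (((contDiff_fst.comp contDiff_snd).comp contDiff_fst).prodMk contDiff_snd))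
  have hD0 : ∀ t a x, x ∉ K → fderiv ℝ (fun y => H t (χ a y)) x = 0 := by
    intro t a x hx
    have e : (fun y => H t (χ a y)) =ᶠ[𝓝 x] fun _ => (0 : ℝ) := by
      filter_upwards [hc.isClosed.isOpen_compl.mem_nhds hx] with y hy
      exact hF0 t a y hy
    rw [e.fderiv_eq, fderiv_fun_const]
    rfl
  have hP : ContDiff ℝ ((⊤ : ℕ∞) : WithTop ℕ∞)
      (fun p : ℝ × ℝ × E n => HIso.inv hL p.2.1 (ψ p.1 (HIso.inv h p.2.1 (χ p.2.1 p.2.2)))) := by
    have ha : ContDiff ℝ ((⊤ : ℕ∞) : WithTop ℕ∞) (fun p : ℝ × ℝ × E n => p.2.1) :=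
      contDiff_fst.comp contDiff_snd
    have hx : ContDiff ℝ ((⊤ : ℕ∞) : WithTop ℕ∞) (fun p : ℝ × ℝ × E n => p.2.2) :=
      contDiff_snd.comp contDiff_snd
    exact (HIso.inv_contDiff hL).comp (ha.prodMk ((HIso.contDiff h).comp (contDiff_fst.prodMk
      ((HIso.inv_contDiff h).comp (ha.prodMk ((HIso.contDiff hL).comp (ha.prodMk hx)))))))
  have hQ : Continuous
      (fun p : ℝ × ℝ × E n => fderiv ℝ
        (fun y => HIso.inv hL p.2.1 (ψ p.1 (HIso.inv h p.2.1 (χ p.2.1 y)))) p.2.2) := by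
    have := ContDiff.fderiv (𝕜 := ℝ) (f := fun (p : ℝ × ℝ × E n) (y : E n) =>
        HIso.inv hL p.2.1 (ψ p.1 (HIso.inv h p.2.1 (χ p.2.1 y))))
      (g := fun p => p.2.2) (m := ((⊤ : ℕ∞) : WithTop ℕ∞)) (n := ((⊤ : ℕ∞) : WithTop ℕ∞))
      (hP.comp ((contDiff_fst.comp contDiff_fst).prodMk
        (((contDiff_fst.comp contDiff_snd).comp contDiff_fst).prodMk contDiff_snd)))
      (contDiff_snd.comp contDiff_snd) (by simp)
    exact this.continuous
  have hQ0 : ∀ t a x, x ∉ K →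
      fderiv ℝ (fun y => HIso.inv hL a (ψ t (HIso.inv h a (χ a y)))) x =
        ContinuousLinearMap.id ℝ (E n) := by
    intro t a x hx
    have e : (fun y => HIso.inv hL a (ψ t (HIso.inv h a (χ a y)))) =ᶠ[𝓝 x] fun y => y := by
      filter_upwards [hc.isClosed.isOpen_compl.mem_nhds hx] with y hy
      rw [HIso.off hL hc hK' a hy, HIso.inv_off h hc hK a hy, HIso.off h hc hK t hy,
        HIso.inv_off hL hc hK' a hy]
    rw [e.fderiv_eq]
    exact fderiv_fun_id
  obtain ⟨M1, hM1, h1⟩ := lip_param hF hc hF0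
  obtain ⟨M2, hM2, h2⟩ := lip_param hD hc hD0
  obtain ⟨M3, h3⟩ := ((isCompact_Icc (a := (0 : ℝ)) (b := 1)).prod
    ((isCompact_Icc (a := (0 : ℝ)) (b := 1)).prod hc)).exists_bound_of_continuousOn
      hQ.continuousOn
  refine ⟨M1 + M2 + |M3| + 1, by positivity, fun t ht a ha x => ⟨?_, ?_, ?_⟩⟩
  · refine (h1 t ht a ha t ht x).trans ?_
    have := abs_nonneg M3
    gcongr
    linarith
  · have hd : ∀ b, DifferentiableAt ℝ (fun y => H t (χ b y)) x := fun b =>
      (hF.comp (contDiff_const.prodMk (contDiff_const.prodMk contDiff_id))).differentiable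
        (by simp) x
    have e : fderiv ℝ (fun x => H t (χ t x) - H t (χ a x)) x =
        fderiv ℝ (fun y => H t (χ t y)) x - fderiv ℝ (fun y => H t (χ a y)) x :=
      fderiv_fun_sub (hd t) (hd a)
    rw [e]
    refine (h2 t ht a ha t ht x).trans ?_
    have := abs_nonneg M3
    gcongr
    linarith
  · by_cases hx : x ∈ K
    · have := h3 (t, a, x) ⟨ht, ha, hx⟩
      refine this.trans ?_
      have := le_abs_self M3
      linarith
    · rw [hQ0 t a x hx]
      refine ContinuousLinearMap.norm_id_le.trans ?_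
      have := abs_nonneg M3
      linarith

end Pool.Agent.W_68f289_h35

end

section

/-!
Comparison of flows on short time intervals.
-/

open Set Metric Topology Pool.Agent.W_MP_68f289_gt MeasureTheory Filter
open scoped NNReal ContDiff

namespace Pool.Agent.W_68f289_h35

variable {n : ℕ}

/-- Let `η` be the flow of `H t ∘ χ t` and let `0 ≤ a ≤ b ≤ 1`. Then `η b (η a)⁻¹` is the product of the
conjugate `(χ a)⁻¹ ψ b (ψ a)⁻¹ χ a` and a diffeo which is small of order `(b - a)²`. Proof: let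
`r τ = a + (b - a) th τ`, `th` the smooth transition. By `HIso.reparam`, `η (r τ) (η a)⁻¹` is generated by
`r' (H (r τ) ∘ χ (r τ))` and `ψ (r τ) (ψ a)⁻¹` by `r' H (r τ)`; by `HIso.conj` with `g = (χ a)⁻¹` the isotopy
`P τ = (χ a)⁻¹ ψ (r τ) (ψ a)⁻¹ χ a` is generated by `r' H (r τ) ∘ χ a`. By `HIso.diff` the isotopy
`(P τ)⁻¹ η (r τ) (η a)⁻¹` is generated by `r' (H (r τ) ∘ χ (r τ) - H (r τ) ∘ χ a) ∘ P τ`. By
`inc_bounds` and `0 ≤ r' ≤ C (b - a)`, `|r τ - a| ≤ b - a` this Hamiltonian and its space derivative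
are bounded by `C' (b - a)²`, so `small_of_C1` applies. -/
theorem inc {H L : ℝ → E n → ℝ} {ψ χ η : ℝ → E n → E n} (h : HIso n H ψ) (hL : HIso n L χ)
    (hη : HIso n (fun t x => H t (χ t x)) η) {K : Set (E n)} (hc : IsCompact K) (hKB : K ⊆ Bl n)
    (hK : ∀ t, ∀ x, x ∉ K → H t x = 0) (hK' : ∀ t, ∀ x, x ∉ K → L t x = 0) :
    ∃ M : ℝ, 0 ≤ M ∧ ∀ a b : ℝ, 0 ≤ a → a ≤ b → b ≤ 1 → ∃ v : Hm n,
      Small K (M * (b - a) ^ 2) v ∧
      fl hη b * (fl hη a)⁻¹ = (fl hL a)⁻¹ * (fl h b * (fl h a)⁻¹) * fl hL a * v := by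
  obtain ⟨M0, hM0, hB⟩ := inc_bounds h hL hc hK hK'
  have hths : ContDiff ℝ ((⊤ : ℕ∞) : WithTop ℕ∞) th := th_smooth
  have hthd : ContDiff ℝ ((⊤ : ℕ∞) : WithTop ℕ∞) (deriv th) :=
    (contDiff_infty_iff_deriv.1 hths).2
  obtain ⟨C, hC⟩ := (isCompact_Icc (a := (0 : ℝ)) (b := 1)).exists_bound_of_continuousOn
    hthd.continuous.continuousOn
  have hC0 : 0 ≤ C := (norm_nonneg _).trans (hC 0 (by simp))
  refine ⟨2 * (C * M0 * (1 + M0)), by positivity, fun a b ha hab hb => ?_⟩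
  -- the change of time
  set r : ℝ → ℝ := fun τ => a + (b - a) * th τ with hr
  have hrs : ContDiff ℝ ((⊤ : ℕ∞) : WithTop ℕ∞) r :=
    contDiff_const.add (contDiff_const.mul hths)
  have hr0 : r 0 = a := by simp [hr, th]
  have hr1 : r 1 = b := by simp [hr, th]
  have hrd : ∀ τ, deriv r τ = (b - a) * deriv th τ := by
    intro τ
    have h2 : HasDerivAt th (deriv th τ) τ := (hths.differentiable (by simp) τ).hasDerivAt
    have h3 : HasDerivAt r ((b - a) * deriv th τ) τ := by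
      simpa [hr] using (h2.const_mul (b - a)).const_add a
    exact h3.deriv
  have hth0 : ∀ τ, 0 ≤ th τ := fun τ => Real.smoothTransition.nonneg τ
  have hth1 : ∀ τ, th τ ≤ 1 := fun τ => Real.smoothTransition.le_one τ
  have hba : 0 ≤ b - a := by linarith
  have hra : ∀ τ, |r τ - a| ≤ b - a := by
    intro τ
    have e : r τ - a = (b - a) * th τ := by simp [hr]
    rw [e, abs_of_nonneg (mul_nonneg hba (hth0 τ))]
    exact mul_le_of_le_one_right hba (hth1 τ)
  have hr01 : ∀ τ, r τ ∈ Icc (0 : ℝ) 1 := by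
    intro τ
    have h2 := mul_nonneg hba (hth0 τ)
    have h3 := mul_le_of_le_one_right hba (hth1 τ)
    simp only [hr]
    constructor <;> linarith
  have hrb : ∀ τ ∈ Icc (0 : ℝ) 1, |deriv r τ| ≤ C * (b - a) := by
    intro τ hτ
    rw [hrd, abs_mul, abs_of_nonneg hba, mul_comm]
    have := hC τ hτ
    rw [Real.norm_eq_abs] at this
    gcongr
  have ha01 : a ∈ Icc (0 : ℝ) 1 := ⟨ha, hab.trans hb⟩
  -- the flows
  have hgs : ContDiff ℝ ((⊤ : ℕ∞) : WithTop ℕ∞) (HIso.homeo hL a).symm :=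
    (HIso.inv_contDiff hL).comp (contDiff_const.prodMk contDiff_id)
  have hgi : ContDiff ℝ ((⊤ : ℕ∞) : WithTop ℕ∞) (HIso.homeo hL a).symm.symm :=
    (HIso.contDiff hL).comp (contDiff_const.prodMk contDiff_id)
  have hgB : ∀ x ∈ Bl n, (HIso.homeo hL a).symm x ∈ Bl n := by
    intro x hx
    change HIso.inv hL a x ∈ Bl n
    by_cases hxK : x ∈ K
    · apply hKB
      rw [← HIso.mem_iff hL hc hK' a, HIso.apply_inv hL]
      exact hxK
    · rw [HIso.inv_off hL hc hK' a hxK]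
      exact hx
  set P : ℝ → E n → E n := fun τ x => HIso.inv hL a (ψ (r τ) (HIso.inv h a (χ a x))) with hPdef
  have h2 : HIso n (fun τ x => deriv r τ * H (r τ) (χ (r τ) x))
      (fun τ x => η (r τ) (HIso.inv hη a x)) := by
    have e := HIso.reparam hη hrs
    rw [hr0] at e
    exact e
  have h3 : HIso n (fun τ x => deriv r τ * H (r τ) (χ a x)) P := by
    have e := HIso.reparam h hrs
    rw [hr0] at e
    exact HIso.conj e (g := (HIso.homeo hL a).symm) hgs hgi (HIso.inv_symp hL a) hgB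
  have h4 := HIso.diff h3 h2
  have hPs : ∀ τ, ContDiff ℝ ((⊤ : ℕ∞) : WithTop ℕ∞) (P τ) := by
    intro τ
    exact ((HIso.inv_contDiff hL).comp (contDiff_const.prodMk ((HIso.contDiff h).comp
      (contDiff_const.prodMk ((HIso.inv_contDiff h).comp (contDiff_const.prodMk
        ((HIso.contDiff hL).comp (contDiff_const.prodMk contDiff_id))))))))
  have hPoff : ∀ τ x, x ∉ K → P τ x = x := by
    intro τ x hx
    simp only [hPdef]
    rw [HIso.off hL hc hK' a hx, HIso.inv_off h hc hK a hx, HIso.off h hc hK _ hx,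
      HIso.inv_off hL hc hK' a hx]
  -- the Hamiltonian of the difference
  have hH : ∀ τ, (fun x => deriv r τ * H (r τ) (χ (r τ) (P τ x)) -
      deriv r τ * H (r τ) (χ a (P τ x))) = fun x =>
      deriv r τ * (H (r τ) (χ (r τ) (P τ x)) - H (r τ) (χ a (P τ x))) := by
    intro τ
    ext x
    ring
  have hv := small_of_C1 h4 (K := K) hc (δ := C * M0 * (1 + M0) * (b - a) ^ 2) ?_ ?_ ?_
  · refine ⟨tm h4, ?_, ?_⟩
    · have e : 2 * (C * M0 * (1 + M0)) * (b - a) ^ 2 = 2 * (C * M0 * (1 + M0) * (b - a) ^ 2) := by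
        ring
      rw [e]
      exact hv
    · apply Subtype.ext
      apply Homeomorph.ext
      intro x
      have e1 := HIso.apply_inv h3 1 (η (r 1) (HIso.inv hη a x))
      change η b (HIso.inv hη a x) = HIso.inv hL a (ψ b (HIso.inv h a (χ a
        (HIso.inv h3 1 (η (r 1) (HIso.inv hη a x))))))
      simp only [hPdef, hr1] at e1
      rw [hr1]
      exact e1.symm
  · intro τ x hx
    rw [hPoff τ x hx, HIso.off hL hc hK' _ hx, HIso.off hL hc hK' _ hx, sub_self]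
  · intro τ hτ x
    rw [← mul_sub, abs_mul]
    have h5 := (hB (r τ) (hr01 τ) a ha01 (P τ x)).1
    have h6 : 0 ≤ C * M0 * (b - a) ^ 2 := by positivity
    calc |deriv r τ| * |H (r τ) (χ (r τ) (P τ x)) - H (r τ) (χ a (P τ x))|
        ≤ (C * (b - a)) * (M0 * (b - a)) := by
          gcongr
          · exact hrb τ hτ
          · exact h5.trans (by gcongr; exact hra τ)
      _ = C * M0 * (b - a) ^ 2 := by ring
      _ ≤ _ := by nlinarith
  · intro τ hτ x
    rw [hH τ]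
    have hG : ContDiff ℝ ((⊤ : ℕ∞) : WithTop ℕ∞)
        (fun y => H (r τ) (χ (r τ) y) - H (r τ) (χ a y)) := by
      have h7 : ∀ s, ContDiff ℝ ((⊤ : ℕ∞) : WithTop ℕ∞) (fun y => H (r τ) (χ s y)) := fun s =>
        h.smooth.comp (contDiff_const.prodMk ((HIso.contDiff hL).comp
          (contDiff_const.prodMk contDiff_id)))
      exact (h7 _).sub (h7 _)
    have hGd : DifferentiableAt ℝ (fun y => H (r τ) (χ (r τ) y) - H (r τ) (χ a y)) (P τ x) :=
      hG.differentiable (by simp) _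
    have hPd : DifferentiableAt ℝ (P τ) x := (hPs τ).differentiable (by simp) _
    have e : fderiv ℝ (fun x => deriv r τ *
        (H (r τ) (χ (r τ) (P τ x)) - H (r τ) (χ a (P τ x)))) x = deriv r τ •
        ((fderiv ℝ (fun y => H (r τ) (χ (r τ) y) - H (r τ) (χ a y)) (P τ x)).comp
          (fderiv ℝ (P τ) x)) := by
      have e1 := fderiv_comp x hGd hPd
      rw [← e1]
      exact fderiv_const_mul (hGd.comp x hPd) (deriv r τ)
    rw [e, norm_smul, Real.norm_eq_abs]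
    have h5 := (hB (r τ) (hr01 τ) a ha01 (P τ x)).2.1
    have h8 := (hB (r τ) (hr01 τ) a ha01 x).2.2
    have h6 : 0 ≤ C * M0 * (b - a) ^ 2 := by positivity
    calc |deriv r τ| * ‖(fderiv ℝ (fun y => H (r τ) (χ (r τ) y) - H (r τ) (χ a y)) (P τ x)).comp
          (fderiv ℝ (P τ) x)‖
        ≤ (C * (b - a)) * ((M0 * (b - a)) * M0) := by
          gcongr
          · exact hrb τ hτ
          · refine (ContinuousLinearMap.opNorm_comp_le _ _).trans ?_
            gcongr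
            exact h5.trans (by gcongr; exact hra τ)
      _ = C * M0 * (b - a) ^ 2 * M0 := by ring
      _ ≤ _ := by nlinarith

end Pool.Agent.W_68f289_h35

end
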