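import Pool.Agent.W_68f289_h35m.Stmt
import Pool.Agent.W_68f289_h35m.TCal

section

/-!
Oscillation.
-/

open Set Metric Topology Pool.Agent.W_MP_68f289_gt MeasureTheory
open scoped NNReal ContDiff

namespace Pool.Agent.W_68f289_h35

variable {n : ℕ}

/-- oscillation -/
noncomputable def osc (f : E n → ℝ) : ℝ := (⨆ x, f x) - ⨅ x, f x

lemma hofer_eq (H : ℝ → E n → ℝ) : hofer H = ∫ t in (0 : ℝ)..1, osc (H t) := rfl

/-- bounded functions -/
def Bd (f : E n → ℝ) : Prop := ∃ M : ℝ, ∀ x, |f x| ≤ M

lemma Bd.bddAbove {f : E n → ℝ} (hf : Bd f) : BddAbove (range f) := by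
  obtain ⟨M, hM⟩ := hf
  refine ⟨M, ?_⟩
  rintro _ ⟨x, rfl⟩
  exact (abs_le.1 (hM x)).2

lemma Bd.bddBelow {f : E n → ℝ} (hf : Bd f) : BddBelow (range f) := by
  obtain ⟨M, hM⟩ := hf
  refine ⟨-M, ?_⟩
  rintro _ ⟨x, rfl⟩
  exact (abs_le.1 (hM x)).1

lemma Bd.add {f g : E n → ℝ} (hf : Bd f) (hg : Bd g) : Bd (fun x => f x + g x) := by
  obtain ⟨M, hM⟩ := hf
  obtain ⟨N, hN⟩ := hg
  exact ⟨M + N, fun x => (abs_add_le _ _).trans (add_le_add (hM x) (hN x))⟩

lemma Bd.sub {f g : E n → ℝ} (hf : Bd f) (hg : Bd g) : Bd (fun x => f x - g x) := by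
  obtain ⟨M, hM⟩ := hf
  obtain ⟨N, hN⟩ := hg
  exact ⟨M + N, fun x => (abs_sub _ _).trans (add_le_add (hM x) (hN x))⟩

lemma Bd.comp {f : E n → ℝ} (hf : Bd f) (g : E n → E n) : Bd (fun x => f (g x)) := by
  obtain ⟨M, hM⟩ := hf
  exact ⟨M, fun x => hM (g x)⟩

lemma Bd.const_mul {f : E n → ℝ} (hf : Bd f) (c : ℝ) : Bd (fun x => c * f x) := by
  obtain ⟨M, hM⟩ := hf
  refine ⟨|c| * M, fun x => ?_⟩
  rw [abs_mul]
  exact mul_le_mul_of_nonneg_left (hM x) (abs_nonneg c)

/-- differences of values are bounded by the oscillation -/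
lemma sub_le_osc {f : E n → ℝ} (hf : Bd f) (x y : E n) : f x - f y ≤ osc f :=
  sub_le_sub (le_ciSup hf.bddAbove x) (ciInf_le hf.bddBelow y)

/-- the oscillation is the least bound for the differences -/
lemma osc_le_of {f : E n → ℝ} {c : ℝ} (h : ∀ x y, f x - f y ≤ c) : osc f ≤ c := by
  unfold osc
  have h1 : ∀ y, (⨆ x, f x) ≤ c + f y := fun y => ciSup_le fun x => by linarith [h x y]
  have h2 : (⨆ x, f x) - c ≤ ⨅ y, f y := le_ciInf fun y => by linarith [h1 y]
  linarith

/-- also true for unbounded functions with the junk values `0`? not needed -/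
lemma osc_nonneg {f : E n → ℝ} (hf : Bd f) : 0 ≤ osc f := by
  have := sub_le_osc hf 0 0
  linarith

lemma osc_add_le {f g : E n → ℝ} (hf : Bd f) (hg : Bd g) :
    osc (fun x => f x + g x) ≤ osc f + osc g := by
  refine osc_le_of fun x y => ?_
  have h1 := sub_le_osc hf x y
  have h2 := sub_le_osc hg x y
  linarith

lemma osc_sub_le {f g : E n → ℝ} (hf : Bd f) (hg : Bd g) :
    osc (fun x => f x - g x) ≤ osc f + osc g := by
  refine osc_le_of fun x y => ?_
  have h1 := sub_le_osc hf x y
  have h2 := sub_le_osc hg y x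
  linarith

lemma osc_const_mul_le {f : E n → ℝ} (hf : Bd f) (c : ℝ) :
    osc (fun x => c * f x) ≤ |c| * osc f := by
  refine osc_le_of fun x y => ?_
  have h1 := sub_le_osc hf x y
  have h2 := sub_le_osc hf y x
  have h3 : |f x - f y| ≤ osc f := abs_le.2 ⟨by linarith, h1⟩
  calc c * f x - c * f y = c * (f x - f y) := by ring
    _ ≤ |c * (f x - f y)| := le_abs_self _
    _ = |c| * |f x - f y| := abs_mul _ _
    _ ≤ |c| * osc f := mul_le_mul_of_nonneg_left h3 (abs_nonneg c)

lemma osc_const_mul {f : E n → ℝ} (hf : Bd f) (c : ℝ) : osc (fun x => c * f x) = |c| * osc f := by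
  refine le_antisymm (osc_const_mul_le hf c) ?_
  rcases eq_or_ne c 0 with rfl | hc
  · rw [abs_zero, zero_mul]
    exact osc_nonneg (hf.const_mul 0)
  · have h1 := osc_const_mul_le (hf.const_mul c) c⁻¹
    have e : (fun x => c⁻¹ * (c * f x)) = f := by
      funext x
      rw [inv_mul_cancel_left₀ hc]
    rw [e, abs_inv] at h1
    have hc' : 0 < |c| := abs_pos.2 hc
    calc |c| * osc f ≤ |c| * (|c|⁻¹ * osc (fun x => c * f x)) :=
          mul_le_mul_of_nonneg_left h1 hc'.le
      _ = osc (fun x => c * f x) := mul_inv_cancel_left₀ hc'.ne' _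

lemma osc_le {f : E n → ℝ} {M : ℝ} (h : ∀ x, |f x| ≤ M) : osc f ≤ 2 * M := by
  refine osc_le_of fun x y => ?_
  have h1 := (abs_le.1 (h x)).2
  have h2 := (abs_le.1 (h y)).1
  linarith

/-- for functions with a zero -/
lemma abs_le_osc {f : E n → ℝ} (hf : Bd f) {x₀ : E n} (h0 : f x₀ = 0) (x : E n) : |f x| ≤ osc f := by
  have h1 := sub_le_osc hf x x₀
  have h2 := sub_le_osc hf x₀ x
  rw [h0] at h1 h2
  exact abs_le.2 ⟨by linarith, by linarith⟩

/-- `Function.Surjective.iSup_comp`, `iInf_comp` -/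
lemma osc_comp (f : E n → ℝ) {g : E n → E n} (hg : Function.Surjective g) :
    osc (fun x => f (g x)) = osc f := by
  unfold osc
  rw [hg.iSup_comp (g := f), hg.iInf_comp (g := f)]

end Pool.Agent.W_68f289_h35

end

section

/-!
Continuity of the oscillation.
-/

open Set Metric Topology Pool.Agent.W_MP_68f289_gt MeasureTheory
open scoped NNReal ContDiff

namespace Pool.Agent.W_68f289_h35

variable {n : ℕ}

/-- smooth, or just jointly continuous, functions with support in a compact set are bounded on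
compact time intervals -/
lemma exists_bound {H : ℝ → E n → ℝ} (hH : Continuous (Function.uncurry H)) {K : Set (E n)}
    (hc : IsCompact K) (hK : ∀ t, ∀ x, x ∉ K → H t x = 0) (a b : ℝ) :
    ∃ M : ℝ, 0 ≤ M ∧ ∀ t ∈ Icc a b, ∀ x, |H t x| ≤ M := by
  obtain ⟨C, hC⟩ := (isCompact_Icc (a := a) (b := b)).prod hc
    |>.exists_bound_of_continuousOn hH.continuousOn
  refine ⟨max C 0, le_max_right _ _, fun t ht x => ?_⟩
  by_cases hx : x ∈ K
  · exact le_trans (hC (t, x) ⟨ht, hx⟩) (le_max_left _ _)
  · rw [hK t x hx, abs_zero]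
    exact le_max_right _ _

lemma bd_of_supp {H : ℝ → E n → ℝ} (hH : Continuous (Function.uncurry H)) {K : Set (E n)}
    (hc : IsCompact K) (hK : ∀ t, ∀ x, x ∉ K → H t x = 0) (t : ℝ) : Bd (H t) := by
  obtain ⟨M, -, hM⟩ := exists_bound hH hc hK t t
  exact ⟨M, hM t ⟨le_refl t, le_refl t⟩⟩

/-- `|osc f - osc g| ≤ 2 sup |f - g|` and uniform continuity of `H` on `[t - 1, t + 1] × K`, or
`Continuous.iSup`-type lemmas on the compact set `K` -/
lemma continuous_osc {H : ℝ → E n → ℝ} (hH : Continuous (Function.uncurry H)) {K : Set (E n)}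
    (hc : IsCompact K) (hK : ∀ t, ∀ x, x ∉ K → H t x = 0) : Continuous (fun t => osc (H t)) := by
  have hlip : ∀ s t : ℝ, ∀ δ : ℝ, (∀ x, |H s x - H t x| ≤ δ) → osc (H s) ≤ osc (H t) + 2 * δ := by
    intro s t δ h
    have h1 := osc_add_le (bd_of_supp hH hc hK t)
      ((bd_of_supp hH hc hK s).sub (bd_of_supp hH hc hK t))
    have h2 : (fun x => H t x + (H s x - H t x)) = H s := by
      funext x
      ring
    rw [h2] at h1
    have h3 := osc_le h
    linarith
  rw [continuous_iff_continuousAt]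
  intro t
  rw [Metric.continuousAt_iff']
  intro ε hε
  have hev : ∀ᶠ s in 𝓝 t, ∀ x ∈ K, |H s x - H t x| < ε / 4 := by
    refine hc.eventually_forall_of_forall_eventually fun y _ => ?_
    have hcont : Continuous fun z : ℝ × E n => |H z.1 z.2 - H t z.2| := by
      have h1 : Continuous fun z : ℝ × E n => H z.1 z.2 := hH
      have h2 : Continuous fun z : ℝ × E n => H t z.2 :=
        hH.comp (continuous_const.prodMk continuous_snd)
      exact (h1.sub h2).abs
    refine hcont.continuousAt.eventually_lt continuousAt_const ?_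
    show |H t y - H t y| < ε / 4
    rw [sub_self, abs_zero]
    positivity
  filter_upwards [hev] with s hs
  have hs' : ∀ x, |H s x - H t x| ≤ ε / 4 := by
    intro x
    by_cases hx : x ∈ K
    · exact (hs x hx).le
    · rw [hK s x hx, hK t x hx, sub_self, abs_zero]
      positivity
  have h1 := hlip s t (ε / 4) hs'
  have h2 := hlip t s (ε / 4) fun x => by rw [abs_sub_comm]; exact hs' x
  rw [Real.dist_eq, abs_lt]
  constructor <;> linarith

end Pool.Agent.W_68f289_h35

end

section

/-!
Hofer norm.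
-/

open Set Metric Topology Pool.Agent.W_MP_68f289_gt MeasureTheory
open scoped NNReal ContDiff

namespace Pool.Agent.W_68f289_h35

variable {n : ℕ}

/-- the Hofer norm of a time change of the difference of two Hamiltonians, for a monotone time change
with values in `[0, 1]` -/
lemma hofer_reparam_le {H : ℝ → E n → ℝ} (hH : Continuous (Function.uncurry H)) {K : Set (E n)}
    (hc : IsCompact K) (hK : ∀ t, ∀ x, x ∉ K → H t x = 0) {s : ℝ → ℝ}
    (hs : ContDiff ℝ ((⊤ : ℕ∞) : WithTop ℕ∞) s) (hmono : ∀ t, 0 ≤ deriv s t)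
    (h0 : 0 ≤ s 0) (h1 : s 1 ≤ 1) :
    hofer (fun t x => deriv s t * H (s t) x) ≤ hofer H := by
  have hcont : Continuous fun u => osc (H u) := continuous_osc hH hc hK
  have hd : Continuous (deriv s) := hs.continuous_deriv (by norm_num)
  have hdiff : Differentiable ℝ s := hs.differentiable (by norm_num)
  have hm : Monotone s := monotone_of_deriv_nonneg hdiff hmono
  have h01 : s 0 ≤ s 1 := hm zero_le_one
  rw [hofer_eq, hofer_eq]
  have e1 : ∫ t in (0 : ℝ)..1, osc (fun x => deriv s t * H (s t) x) =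
      ∫ t in (0 : ℝ)..1, ((fun u => osc (H u)) ∘ s) t * deriv s t := by
    refine intervalIntegral.integral_congr fun t _ => ?_
    show osc (fun x => deriv s t * H (s t) x) = osc (H (s t)) * deriv s t
    rw [osc_const_mul (bd_of_supp hH hc hK (s t)), abs_of_nonneg (hmono t), mul_comm]
  rw [e1, intervalIntegral.integral_comp_mul_deriv (fun t _ => (hdiff t).hasDerivAt)
    hd.continuousOn hcont]
  refine intervalIntegral.integral_mono_interval h0 h01 h1 ?_ (hcont.intervalIntegrable 0 1)
  exact Filter.Eventually.of_forall fun t => osc_nonneg (bd_of_supp hH hc hK t)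

/-- time reversal preserves the Hofer norm -/
lemma hofer_reverse (H : ℝ → E n → ℝ) : hofer (fun t x => H (1 - t) x) = hofer H := by
  rw [hofer_eq, hofer_eq]
  have h := intervalIntegral.integral_comp_sub_left (a := 0) (b := 1) (fun t => osc (H t)) (1 : ℝ)
  rw [sub_self, sub_zero] at h
  exact h

lemma hofer_nonneg {H : ℝ → E n → ℝ} (hb : ∀ t, Bd (H t)) : 0 ≤ hofer H := by
  rw [hofer_eq]
  exact intervalIntegral.integral_nonneg zero_le_one fun t _ => osc_nonneg (hb t)

/-- triangle inequality -/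
lemma hofer_add_le {H H' : ℝ → E n → ℝ} (hH : Continuous (Function.uncurry H))
    (hH' : Continuous (Function.uncurry H')) {K : Set (E n)} (hc : IsCompact K)
    (hK : ∀ t, ∀ x, x ∉ K → H t x = 0) (hK' : ∀ t, ∀ x, x ∉ K → H' t x = 0) :
    hofer (fun t x => H t x + H' t x) ≤ hofer H + hofer H' := by
  have c1 : Continuous fun u => osc (H u) := continuous_osc hH hc hK
  have c2 : Continuous fun u => osc (H' u) := continuous_osc hH' hc hK'
  have hsum : Continuous (Function.uncurry fun (t : ℝ) (x : E n) => H t x + H' t x) :=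
    hH.add hH'
  have c3 : Continuous fun u => osc (fun x => H u x + H' u x) :=
    continuous_osc (H := fun t x => H t x + H' t x) hsum hc fun t x hx => by
      show H t x + H' t x = 0
      rw [hK t x hx, hK' t x hx, add_zero]
  rw [hofer_eq, hofer_eq, hofer_eq,
    ← intervalIntegral.integral_add (c1.intervalIntegrable 0 1) (c2.intervalIntegrable 0 1)]
  refine intervalIntegral.integral_mono_on zero_le_one (c3.intervalIntegrable 0 1)
    ((c1.add c2).intervalIntegrable 0 1) fun t _ => ?_
  exact osc_add_le (bd_of_supp hH hc hK t) (bd_of_supp hH' hc hK' t)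

lemma hofer_sub_le {H H' : ℝ → E n → ℝ} (hH : Continuous (Function.uncurry H))
    (hH' : Continuous (Function.uncurry H')) {K : Set (E n)} (hc : IsCompact K)
    (hK : ∀ t, ∀ x, x ∉ K → H t x = 0) (hK' : ∀ t, ∀ x, x ∉ K → H' t x = 0) :
    hofer (fun t x => H t x - H' t x) ≤ hofer H + hofer H' := by
  have c1 : Continuous fun u => osc (H u) := continuous_osc hH hc hK
  have c2 : Continuous fun u => osc (H' u) := continuous_osc hH' hc hK'
  have hsum : Continuous (Function.uncurry fun (t : ℝ) (x : E n) => H t x - H' t x) :=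
    hH.sub hH'
  have c3 : Continuous fun u => osc (fun x => H u x - H' u x) :=
    continuous_osc (H := fun t x => H t x - H' t x) hsum hc fun t x hx => by
      show H t x - H' t x = 0
      rw [hK t x hx, hK' t x hx, sub_zero]
  rw [hofer_eq, hofer_eq, hofer_eq,
    ← intervalIntegral.integral_add (c1.intervalIntegrable 0 1) (c2.intervalIntegrable 0 1)]
  refine intervalIntegral.integral_mono_on zero_le_one (c3.intervalIntegrable 0 1)
    ((c1.add c2).intervalIntegrable 0 1) fun t _ => ?_
  exact osc_sub_le (bd_of_supp hH hc hK t) (bd_of_supp hH' hc hK' t)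

lemma hofer_const_mul {H : ℝ → E n → ℝ} (hb : ∀ t, Bd (H t)) (c : ℝ) :
    hofer (fun t x => c * H t x) = |c| * hofer H := by
  rw [hofer_eq, hofer_eq, ← intervalIntegral.integral_const_mul]
  exact intervalIntegral.integral_congr fun t _ => osc_const_mul (hb t) c

/-- uniformly small Hamiltonians have small Hofer norm -/
lemma hofer_le_of_abs_le {H : ℝ → E n → ℝ} (hH : Continuous (Function.uncurry H)) {K : Set (E n)}
    (hc : IsCompact K) (hK : ∀ t, ∀ x, x ∉ K → H t x = 0) {M : ℝ}
    (h : ∀ t ∈ Icc (0 : ℝ) 1, ∀ x, |H t x| ≤ M) : hofer H ≤ 2 * M := by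
  have c1 : Continuous fun u => osc (H u) := continuous_osc hH hc hK
  rw [hofer_eq]
  calc ∫ t in (0 : ℝ)..1, osc (H t) ≤ ∫ _t in (0 : ℝ)..1, 2 * M :=
        intervalIntegral.integral_mono_on zero_le_one (c1.intervalIntegrable 0 1)
          (continuous_const.intervalIntegrable 0 1) fun t ht => osc_le (h t ht)
    _ = 2 * M := by rw [intervalIntegral.integral_const, sub_zero, one_smul]

/-- invariance under a time dependent change of the space variable -/
lemma hofer_comp (H : ℝ → E n → ℝ) {g : ℝ → E n → E n} (hg : ∀ t, Function.Surjective (g t)) :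
    hofer (fun t x => H t (g t x)) = hofer H := by
  rw [hofer_eq, hofer_eq]
  exact intervalIntegral.integral_congr fun t _ => osc_comp (H t) (hg t)

lemma hofer_homoth {H : ℝ → E n → ℝ} (hb : ∀ t, Bd (H t)) {r : ℝ} (h0 : 0 < r) :
    hofer (fun t x => r ^ 2 * H t (r⁻¹ • x)) = r ^ 2 * hofer H := by
  have hsurj : Function.Surjective fun x : E n => r⁻¹ • x := by
    intro y
    refine ⟨r • y, ?_⟩
    show r⁻¹ • r • y = y
    rw [smul_smul, inv_mul_cancel₀ h0.ne', one_smul]
  have h1 := hofer_const_mul (H := fun t x => H t (r⁻¹ • x)) (fun t => (hb t).comp _) (r ^ 2)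
  rw [h1, abs_of_nonneg (by positivity)]
  congr 1
  exact hofer_comp H (g := fun _ x => r⁻¹ • x) fun _ => hsurj

end Pool.Agent.W_68f289_h35

end

section

/-!
Calabi invariant.
-/

open Set Metric Topology Pool.Agent.W_MP_68f289_gt MeasureTheory
open scoped NNReal ContDiff

namespace Pool.Agent.W_68f289_h35

variable {n : ℕ}

lemma OsD_cont {H : ℝ → E n → ℝ} (hH : Continuous (Function.uncurry H)) {K : Set (E n)}
    (hc : IsCompact K) (hK : ∀ t, ∀ x, x ∉ K → H t x = 0) : Continuous fun t => ∫ x, H t x := by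
  have h1 : ∀ t, ∫ x, H t x = ∫ x in K, H t x := by
    intro t
    rw [setIntegral_eq_integral_of_forall_compl_eq_zero]
    exact fun x hx => hK t x hx
  simp only [h1]
  exact continuous_parametric_integral_of_continuous hH hc

lemma OsD_integrable {H : ℝ → E n → ℝ} (hH : Continuous (Function.uncurry H)) {K : Set (E n)}
    (hc : IsCompact K) (hK : ∀ t, ∀ x, x ∉ K → H t x = 0) (t : ℝ) : Integrable (H t) := by
  have h1 : Continuous (H t) := hH.comp (continuous_const.prodMk continuous_id)
  refine h1.integrable_of_hasCompactSupport ?_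
  exact HasCompactSupport.intro hc (fun x hx => hK t x hx)

lemma OsD_vol : volume (Bl n) < ⊤ := by
  refine Bornology.IsBounded.measure_lt_top ?_
  refine (Metric.isBounded_closedBall (x := (0 : E n)) (r := 1)).subset ?_
  intro w hw
  have h1 : qf w < 1 := hw
  unfold qf at h1
  rw [mem_closedBall_zero_iff, Prod.norm_def, max_le_iff, pi_norm_le_iff_of_nonneg zero_le_one,
    pi_norm_le_iff_of_nonneg zero_le_one]
  have h2 : ∀ i, (w.1 i) ^ 2 + (w.2 i) ^ 2 < 1 := by
    intro i
    refine lt_of_le_of_lt ?_ h1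
    exact Finset.single_le_sum (f := fun i => (w.1 i) ^ 2 + (w.2 i) ^ 2)
      (fun j _ => by positivity) (Finset.mem_univ i)
  constructor
  · intro i
    rw [Real.norm_eq_abs, abs_le_one_iff_mul_self_le_one]
    nlinarith [h2 i, sq_nonneg (w.2 i)]
  · intro i
    rw [Real.norm_eq_abs, abs_le_one_iff_mul_self_le_one]
    nlinarith [h2 i, sq_nonneg (w.1 i)]

lemma OsD_out (hn : 1 ≤ n) : ((fun _ => 1, 0) : E n) ∉ Bl n := by
  intro h
  have h1 : qf ((fun _ => 1, 0) : E n) < 1 := h
  unfold qf at h1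
  have h2 : (1 : ℝ) ≤ n := by exact_mod_cast hn
  simp at h1
  omega

/-- the Calabi invariant is bounded by the Hofer norm: `|∫ x, H t x| ≤ vol(B) osc (H t)` because
`H t` vanishes off `K` (and somewhere: `E n` is not compact for `n ≥ 1`) -/
lemma abs_cal_le (hn : 1 ≤ n) {H : ℝ → E n → ℝ} (hH : Continuous (Function.uncurry H))
    {K : Set (E n)} (hc : IsCompact K) (hKB : K ⊆ Bl n) (hK : ∀ t, ∀ x, x ∉ K → H t x = 0) :
    |cal H| ≤ (volume (Bl n)).toReal * hofer H := by
  have hb : ∀ t, Bd (H t) := fun t => bd_of_supp hH hc hK t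
  have h1 : ∀ t, ‖∫ x, H t x‖ ≤ (volume (Bl n)).toReal * osc (H t) := by
    intro t
    have h2 : ∫ x, H t x = ∫ x in Bl n, H t x := by
      rw [setIntegral_eq_integral_of_forall_compl_eq_zero]
      exact fun x hx => hK t x fun h => hx (hKB h)
    rw [h2, mul_comm]
    refine norm_setIntegral_le_of_norm_le_const OsD_vol fun x _ => ?_
    rw [Real.norm_eq_abs]
    exact abs_le_osc (hb t) (hK t _ fun h => OsD_out hn (hKB h)) x
  unfold cal
  rw [← Real.norm_eq_abs, hofer_eq, ← intervalIntegral.integral_const_mul]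
  refine intervalIntegral.norm_integral_le_of_norm_le zero_le_one
    (Filter.Eventually.of_forall fun t _ => h1 t) ?_
  exact ((continuous_osc hH hc hK).const_mul _).intervalIntegrable _ _

lemma cal_add {H H' : ℝ → E n → ℝ} (hH : Continuous (Function.uncurry H))
    (hH' : Continuous (Function.uncurry H')) {K : Set (E n)} (hc : IsCompact K)
    (hK : ∀ t, ∀ x, x ∉ K → H t x = 0) (hK' : ∀ t, ∀ x, x ∉ K → H' t x = 0) :
    cal (fun t x => H t x + H' t x) = cal H + cal H' := by
  unfold cal
  have h1 : ∀ t, ∫ x, H t x + H' t x = (∫ x, H t x) + ∫ x, H' t x := fun t =>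
    integral_add (OsD_integrable hH hc hK t) (OsD_integrable hH' hc hK' t)
  simp only [h1]
  exact intervalIntegral.integral_add ((OsD_cont hH hc hK).intervalIntegrable _ _)
    ((OsD_cont hH' hc hK').intervalIntegrable _ _)

lemma cal_sub {H H' : ℝ → E n → ℝ} (hH : Continuous (Function.uncurry H))
    (hH' : Continuous (Function.uncurry H')) {K : Set (E n)} (hc : IsCompact K)
    (hK : ∀ t, ∀ x, x ∉ K → H t x = 0) (hK' : ∀ t, ∀ x, x ∉ K → H' t x = 0) :
    cal (fun t x => H t x - H' t x) = cal H - cal H' := by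
  unfold cal
  have h1 : ∀ t, ∫ x, H t x - H' t x = (∫ x, H t x) - ∫ x, H' t x := fun t =>
    integral_sub (OsD_integrable hH hc hK t) (OsD_integrable hH' hc hK' t)
  simp only [h1]
  exact intervalIntegral.integral_sub ((OsD_cont hH hc hK).intervalIntegrable _ _)
    ((OsD_cont hH' hc hK').intervalIntegrable _ _)

lemma cal_const_mul (H : ℝ → E n → ℝ) (c : ℝ) : cal (fun t x => c * H t x) = c * cal H := by
  unfold cal
  have h1 : ∀ t, ∫ x, c * H t x = c * ∫ x, H t x := fun t => integral_const_mul _ _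
  simp only [h1]
  exact intervalIntegral.integral_const_mul _ _

end Pool.Agent.W_68f289_h35

end

section

/-!
Calabi invariant and change of variables.
-/

open Set Metric Topology Pool.Agent.W_MP_68f289_gt MeasureTheory
open scoped NNReal ContDiff

namespace Pool.Agent.W_68f289_h35

variable {n : ℕ}

/-- substitution `u = s t` -/
lemma cal_reparam {H : ℝ → E n → ℝ} (hH : Continuous (Function.uncurry H)) {K : Set (E n)}
    (hc : IsCompact K) (hK : ∀ t, ∀ x, x ∉ K → H t x = 0) {s : ℝ → ℝ}
    (hs : ContDiff ℝ ((⊤ : ℕ∞) : WithTop ℕ∞) s) :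
    cal (fun t x => deriv s t * H (s t) x) = ∫ t in (s 0)..(s 1), ∫ x, H t x := by
  unfold cal
  have hs1 : ∀ t, HasDerivAt s (deriv s t) t := fun t =>
    (hs.differentiable (by simp) t).hasDerivAt
  have hs2 : Continuous (deriv s) := (contDiff_infty_iff_deriv.1 hs).2.continuous
  have h1 : ∀ t, ∫ x, deriv s t * H (s t) x = (∫ x, H (s t) x) * deriv s t := by
    intro t
    rw [integral_const_mul, mul_comm]
  simp only [h1]
  exact intervalIntegral.integral_comp_mul_deriv (a := 0) (b := 1) (f := s)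
    (f' := deriv s) (g := fun u => ∫ x, H u x) (fun t _ => hs1 t) hs2.continuousOn
    (OsD_cont hH hc hK)

/-- `∫ x, H t (r⁻¹ • x) = r ^ (2 n) ∫ x, H t x` -/
lemma cal_homoth (H : ℝ → E n → ℝ) {r : ℝ} (h0 : 0 < r) :
    cal (fun t x => r ^ 2 * H t (r⁻¹ • x)) = r ^ (2 * n + 2) * cal H := by
  unfold cal
  have h1 : ∀ t : ℝ, ∫ x, r ^ 2 * H t (r⁻¹ • x) = r ^ (2 * n + 2) * ∫ x, H t x := by
    intro t
    have h2 : Module.finrank ℝ (E n) = 2 * n := by
      simp [two_mul]
    rw [integral_const_mul, Measure.integral_comp_smul, h2, smul_eq_mul, inv_pow, inv_inv,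
      abs_of_pos (pow_pos h0 _)]
    ring
  simp only [h1]
  rw [intervalIntegral.integral_const_mul]

lemma cal_comp (H : ℝ → E n → ℝ) {g : ℝ → E n ≃ₜ E n}
    (hg : ∀ t, MeasurePreserving (g t) volume volume) :
    cal (fun t x => H t (g t x)) = cal H := by
  unfold cal
  have h1 : ∀ t : ℝ, ∫ x, H t (g t x) = ∫ x, H t x := fun t =>
    (hg t).integral_comp (g t).measurableEmbedding (H t)
  simp only [h1]

end Pool.Agent.W_68f289_h35

end
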