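import Pool.Agent.W_MP_68f289_gt.Flow

section

/-!
Bounds for compactly supported smooth fields.
-/

open Set Metric Topology Pool.Agent.W_MP_68f289_gt
open scoped NNReal ContDiff

namespace Pool.Agent.W_68f289_h35

/-- smooth time dependent vector fields supported in the compact set `K` -/
structure CField {V : Type} [NormedAddCommGroup V] [NormedSpace ℝ V] (X : ℝ → V → V)
    (K : Set V) : Prop where
  smooth : ContDiff ℝ ((⊤ : ℕ∞) : WithTop ℕ∞) (Function.uncurry X)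
  comp : IsCompact K
  supp : ∀ (t : ℝ) (x : V), x ∉ K → X t x = 0

variable {V : Type} [NormedAddCommGroup V] [NormedSpace ℝ V] {X : ℝ → V → V} {K : Set V}

/-- The space derivative is jointly smooth. Proof: `ContDiff.fderiv` as in `Adm.exists_good` (library
`Pool/Agent/W_MP_68f289_gt/Ham.lean`). -/
lemma CField.contDiff_fderiv (hX : CField X K) : ContDiff ℝ ((⊤ : ℕ∞) : WithTop ℕ∞)
    (fun p : ℝ × V => fderiv ℝ (X p.1) p.2) := by
  have h1 : ContDiff ℝ ((⊤ : ℕ∞) : WithTop ℕ∞) (fun q : (ℝ × V) × V => X q.1.1 q.2) :=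
    hX.smooth.comp ((contDiff_fst.comp contDiff_fst).prodMk contDiff_snd)
  exact ContDiff.fderiv (𝕜 := ℝ) (f := fun (p : ℝ × V) (y : V) => X p.1 y)
      (g := fun p => p.2) (m := ((⊤ : ℕ∞) : WithTop ℕ∞)) (n := ((⊤ : ℕ∞) : WithTop ℕ∞))
      h1 contDiff_snd (by simp)

lemma CField.CF_cont2 (hX : CField X K) :
    Continuous (fun p : ℝ × V => fderiv ℝ (fderiv ℝ (X p.1)) p.2) := by
  have h1 : ContDiff ℝ ((⊤ : ℕ∞) : WithTop ℕ∞)
      (fun q : (ℝ × V) × V => fderiv ℝ (X q.1.1) q.2) :=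
    hX.contDiff_fderiv.comp ((contDiff_fst.comp contDiff_fst).prodMk contDiff_snd)
  exact (ContDiff.fderiv (𝕜 := ℝ) (f := fun (p : ℝ × V) (y : V) => fderiv ℝ (X p.1) y)
      (g := fun p => p.2) (m := ((⊤ : ℕ∞) : WithTop ℕ∞)) (n := ((⊤ : ℕ∞) : WithTop ℕ∞))
      h1 contDiff_snd (by simp)).continuous

/-- Off `K` the space derivative vanishes (`K` is closed, so `X t` vanishes near `x`). -/
lemma CField.fderiv_off (hX : CField X K) (t : ℝ) {x : V} (hx : x ∉ K) :
    fderiv ℝ (X t) x = 0 := by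
  have e : X t =ᶠ[𝓝 x] fun _ => (0 : V) := by
    filter_upwards [hX.comp.isClosed.isOpen_compl.mem_nhds hx] with y hy
    exact hX.supp t y hy
  rw [e.fderiv_eq, fderiv_fun_const]
  rfl

lemma CField.CF_off2 (hX : CField X K) (t : ℝ) {x : V} (hx : x ∉ K) :
    fderiv ℝ (fderiv ℝ (X t)) x = 0 := by
  have e : fderiv ℝ (X t) =ᶠ[𝓝 x] fun _ => (0 : V →L[ℝ] V) := by
    filter_upwards [hX.comp.isClosed.isOpen_compl.mem_nhds hx] with y hy
    exact hX.fderiv_off t hy
  rw [e.fderiv_eq, fderiv_fun_const]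
  rfl

/-- A compactly supported smooth field is bounded and Lipschitz on `[0, 1]`, with bounds on the
derivative and on the second order Taylor remainder. Proof: `X`, its space derivative and the space
derivative of that are continuous, hence bounded by some constants on the compact set `[0,1] × K`, and
vanish off `K`; then the mean value inequality (`lipschitzWith_of_nnnorm_fderiv_le`) for `X t` and for
`fderiv ℝ (X t)`; for the last item apply the mean value inequality on the segment to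
`w ↦ X t (x + w) - fderiv ℝ (X t) x w` (`Convex.norm_image_sub_le_of_norm_fderiv_le`, the derivative
at a point `x + s w` is `fderiv ℝ (X t) (x + s w) - fderiv ℝ (X t) x`, of norm at most `C ‖w‖`). See
`Adm.exists_good` in the library for the first part. -/
lemma CField.exists_bounds (hX : CField X K) : ∃ C : ℝ≥0, Good X C ∧
    (∀ t ∈ Icc (0 : ℝ) 1, ∀ x, ‖fderiv ℝ (X t) x‖ ≤ C) ∧
    ∀ t ∈ Icc (0 : ℝ) 1, ∀ x w, ‖X t (x + w) - X t x - fderiv ℝ (X t) x w‖ ≤ C * ‖w‖ ^ 2 := by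
  have hc : Continuous (fun p : ℝ × V => X p.1 p.2) := hX.smooth.continuous
  have hK : IsCompact (Icc (0 : ℝ) 1 ×ˢ K) := isCompact_Icc.prod hX.comp
  have hfd : Continuous (fun p : ℝ × V => fderiv ℝ (X p.1) p.2) := hX.contDiff_fderiv.continuous
  obtain ⟨C1, hC1⟩ := hK.exists_bound_of_continuousOn hc.continuousOn
  obtain ⟨C2, hC2⟩ := hK.exists_bound_of_continuousOn hfd.continuousOn
  obtain ⟨C3, hC3⟩ := hK.exists_bound_of_continuousOn hX.CF_cont2.continuousOn
  have hXd : ∀ t, Differentiable ℝ (X t) := fun t =>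
    (hX.smooth.comp (contDiff_const.prodMk contDiff_id)).differentiable (by simp)
  have hXd2 : ∀ t, Differentiable ℝ (fderiv ℝ (X t)) := fun t =>
    (hX.contDiff_fderiv.comp (contDiff_const.prodMk contDiff_id)).differentiable (by simp)
  set C : ℝ≥0 := max (Real.toNNReal C1) (max (Real.toNNReal C2) (Real.toNNReal C3)) with hC
  have hCC1 : C1 ≤ (C : ℝ) :=
    (Real.le_coe_toNNReal C1).trans (NNReal.coe_le_coe.2 (le_max_left _ _))
  have hCC2 : C2 ≤ (C : ℝ) := (Real.le_coe_toNNReal C2).trans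
    (NNReal.coe_le_coe.2 ((le_max_left _ _).trans (le_max_right _ _)))
  have hCC3 : C3 ≤ (C : ℝ) := (Real.le_coe_toNNReal C3).trans
    (NNReal.coe_le_coe.2 ((le_max_right _ _).trans (le_max_right _ _)))
  have hb1 : ∀ t ∈ Icc (0 : ℝ) 1, ∀ x, ‖fderiv ℝ (X t) x‖ ≤ C := by
    intro t ht x
    by_cases hx : x ∈ K
    · exact (hC2 (t, x) ⟨ht, hx⟩).trans hCC2
    · rw [hX.fderiv_off t hx, norm_zero]
      exact C.2
  have hb2 : ∀ t ∈ Icc (0 : ℝ) 1, ∀ x, ‖fderiv ℝ (fderiv ℝ (X t)) x‖ ≤ C := by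
    intro t ht x
    by_cases hx : x ∈ K
    · exact (hC3 (t, x) ⟨ht, hx⟩).trans hCC3
    · rw [hX.CF_off2 t hx, norm_zero]
      exact C.2
  refine ⟨C, ⟨fun x => ?_, fun t ht => ?_, fun t ht x => ?_⟩, hb1, ?_⟩
  · exact (hc.comp (continuous_id.prodMk continuous_const)).continuousOn
  · refine lipschitzWith_of_nnnorm_fderiv_le (𝕜 := ℝ) (hXd t) fun x => ?_
    rw [← NNReal.coe_le_coe, coe_nnnorm]
    exact hb1 t ht x
  · by_cases hx : x ∈ K
    · exact (hC1 (t, x) ⟨ht, hx⟩).trans hCC1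
    · rw [hX.supp t x hx, norm_zero]
      exact C.2
  · intro t ht x w
    have hL : LipschitzWith C (fderiv ℝ (X t)) := by
      refine lipschitzWith_of_nnnorm_fderiv_le (𝕜 := ℝ) (hXd2 t) fun x => ?_
      rw [← NNReal.coe_le_coe, coe_nnnorm]
      exact hb2 t ht x
    have h1 : ∀ y ∈ closedBall x ‖w‖, HasFDerivWithinAt
        (fun y => X t y - fderiv ℝ (X t) x y) (fderiv ℝ (X t) y - fderiv ℝ (X t) x)
        (closedBall x ‖w‖) y := by
      intro y _
      exact ((hXd t y).hasFDerivAt.sub (fderiv ℝ (X t) x).hasFDerivAt).hasFDerivWithinAt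
    have h2 : ∀ y ∈ closedBall x ‖w‖, ‖fderiv ℝ (X t) y - fderiv ℝ (X t) x‖ ≤ C * ‖w‖ := by
      intro y hy
      rw [← dist_eq_norm]
      refine (hL.dist_le_mul y x).trans ?_
      exact mul_le_mul_of_nonneg_left (mem_closedBall.1 hy) C.2
    have h3 := Convex.norm_image_sub_le_of_norm_hasFDerivWithin_le h1 h2
      (convex_closedBall x ‖w‖) (mem_closedBall_self (norm_nonneg w))
      (show x + w ∈ closedBall x ‖w‖ by
        rw [mem_closedBall, dist_eq_norm, add_sub_cancel_left])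
    have h4 : X t (x + w) - X t x - fderiv ℝ (X t) x w =
        (X t (x + w) - fderiv ℝ (X t) x (x + w)) - (X t x - fderiv ℝ (X t) x x) := by
      rw [map_add]
      abel
    rw [h4]
    refine h3.trans (le_of_eq ?_)
    rw [add_sub_cancel_left]
    ring

end Pool.Agent.W_68f289_h35

end

section

/-!
Linearised field: definition, smoothness, growth.
-/

open Set Metric Topology Pool.Agent.W_MP_68f289_gt
open scoped NNReal ContDiff

namespace Pool.Agent.W_68f289_h35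

variable {V : Type} [NormedAddCommGroup V] [NormedSpace ℝ V] [FiniteDimensional ℝ V]
  {X : ℝ → V → V} {K : Set V}

/-- the linearised field on `V × (V →L V)`, cut off by `ζ` -/
noncomputable def linF (X : ℝ → V → V) (ζ : (V →L[ℝ] V) → ℝ) (t : ℝ) (p : V × (V →L[ℝ] V)) :
    V × (V →L[ℝ] V) :=
  (ζ p.2 • X t p.1, ζ p.2 • (fderiv ℝ (X t) p.1).comp p.2)

/-- The linearised field is smooth with compact support `K ×ˢ tsupport ζ`: smoothness from
`CField.contDiff_fderiv` and `ContDiff.clm_comp`; for `p.1 ∉ K` use `hX.supp` and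
`CField.fderiv_off`. -/
lemma CField.linF (hX : CField X K) {ζ : (V →L[ℝ] V) → ℝ}
    (hζ : ContDiff ℝ ((⊤ : ℕ∞) : WithTop ℕ∞) ζ) (hc : HasCompactSupport ζ) :
    CField (linF X ζ) (K ×ˢ tsupport ζ) := by
  refine ⟨?_, hX.comp.prod hc, ?_⟩
  · have hζ2 : ContDiff ℝ ((⊤ : ℕ∞) : WithTop ℕ∞)
        (fun q : ℝ × (V × (V →L[ℝ] V)) => ζ q.2.2) :=
      hζ.comp (contDiff_snd.comp contDiff_snd)
    have hX2 : ContDiff ℝ ((⊤ : ℕ∞) : WithTop ℕ∞)
        (fun q : ℝ × (V × (V →L[ℝ] V)) => X q.1 q.2.1) :=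
      hX.smooth.comp (contDiff_fst.prodMk (contDiff_fst.comp contDiff_snd))
    have hD2 : ContDiff ℝ ((⊤ : ℕ∞) : WithTop ℕ∞)
        (fun q : ℝ × (V × (V →L[ℝ] V)) => fderiv ℝ (X q.1) q.2.1) :=
      hX.contDiff_fderiv.comp (contDiff_fst.prodMk (contDiff_fst.comp contDiff_snd))
    have hJ2 : ContDiff ℝ ((⊤ : ℕ∞) : WithTop ℕ∞)
        (fun q : ℝ × (V × (V →L[ℝ] V)) => q.2.2) := contDiff_snd.comp contDiff_snd
    exact (hζ2.smul hX2).prodMk (hζ2.smul (hD2.clm_comp hJ2))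
  · intro t p hp
    rw [mem_prod, not_and_or] at hp
    rcases hp with h | h
    · simp only [Pool.Agent.W_68f289_h35.linF]
      rw [hX.supp t p.1 h, hX.fderiv_off t h, ContinuousLinearMap.zero_comp, smul_zero, smul_zero]
      rfl
    · have hz : ζ p.2 = 0 := image_eq_zero_of_notMem_tsupport h
      simp only [Pool.Agent.W_68f289_h35.linF]
      rw [hz, zero_smul, zero_smul]
      rfl

/-- A bound for the linear part: integral curves of the linearised field on `[0, 1]`, for `0 ≤ ζ ≤ 1`,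
satisfy `‖J t‖ ≤ ‖J 0‖ e^C` by Gronwall (`norm_le_gronwallBound_of_norm_deriv_right_le` with `ε = 0`,
`gronwallBound_ε0`), as `‖J'‖ ≤ C ‖J‖`. -/
lemma linF_bound {C : ℝ≥0} (hC : ∀ t ∈ Icc (0 : ℝ) 1, ∀ x, ‖fderiv ℝ (X t) x‖ ≤ C)
    {ζ : (V →L[ℝ] V) → ℝ} (h0 : ∀ J, 0 ≤ ζ J) (h1 : ∀ J, ζ J ≤ 1)
    {α : ℝ → V × (V →L[ℝ] V)} (hα : IC (linF X ζ) α) {t : ℝ} (ht : t ∈ Icc (0 : ℝ) 1) :
    ‖(α t).2‖ ≤ ‖(α 0).2‖ * Real.exp C := by
  have hf : ContinuousOn (fun s => (α s).2) (Icc 0 1) := hα.continuousOn.snd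
  have hf' : ∀ s ∈ Ico (0 : ℝ) 1, HasDerivWithinAt (fun s => (α s).2)
      (ζ (α s).2 • (fderiv ℝ (X s) (α s).1).comp (α s).2) (Ici s) s := by
    intro s hs
    exact (hα.right hs).snd
  have hb : ∀ s ∈ Ico (0 : ℝ) 1, ‖ζ (α s).2 • (fderiv ℝ (X s) (α s).1).comp (α s).2‖ ≤
      (C : ℝ) * ‖(α s).2‖ + 0 := by
    intro s hs
    rw [norm_smul, Real.norm_of_nonneg (h0 _), add_zero]
    have h2 : ‖(fderiv ℝ (X s) (α s).1).comp (α s).2‖ ≤ C * ‖(α s).2‖ :=
      (ContinuousLinearMap.opNorm_comp_le _ _).trans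
        (mul_le_mul_of_nonneg_right (hC s (Ico_subset_Icc_self hs) _) (norm_nonneg _))
    calc ζ (α s).2 * ‖(fderiv ℝ (X s) (α s).1).comp (α s).2‖
        ≤ 1 * ‖(fderiv ℝ (X s) (α s).1).comp (α s).2‖ :=
          mul_le_mul_of_nonneg_right (h1 _) (norm_nonneg _)
      _ ≤ C * ‖(α s).2‖ := by rw [one_mul]; exact h2
  have hfin := norm_le_gronwallBound_of_norm_deriv_right_le hf hf' le_rfl hb t ht
  rw [gronwallBound_ε0, sub_zero] at hfin
  refine hfin.trans (mul_le_mul_of_nonneg_left (Real.exp_le_exp.mpr ?_) (norm_nonneg _))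
  calc (C : ℝ) * t ≤ C * 1 := mul_le_mul_of_nonneg_left ht.2 C.2
    _ = C := mul_one _

end Pool.Agent.W_68f289_h35

end

section

/-!
Linearised field: main estimate.
-/

open Set Metric Topology Pool.Agent.W_MP_68f289_gt
open scoped NNReal ContDiff

namespace Pool.Agent.W_68f289_h35

variable {V : Type} [NormedAddCommGroup V] [NormedSpace ℝ V] [FiniteDimensional ℝ V]
  {X : ℝ → V → V} {K : Set V}

/-- The main estimate. Let `α = (y, J)` be an integral curve of the linearised field with `ζ (J t) = 1`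
on `[0, 1]` and `J 0 = id`, and let `β` be an integral curve of `X` starting at `y 0 + w`. Then
`‖β 1 - y 1 - J 1 w‖ ≤ C (e^C)^3 ‖w‖^2` (any constant depending only on `C`). Proof: `y` is an integral
curve of `X`, so `δ = β - y` satisfies `‖δ t‖ ≤ ‖w‖ e^C` (`dist_le_of_trajectories_ODE`), and
`e = δ - J w` satisfies `e 0 = 0`, `e' = (X(y+δ) - X(y) - DX(y) δ) + DX(y) e`, hence
`‖e'‖ ≤ C ‖e‖ + C (‖w‖ e^C)^2`; Gronwall (`norm_le_gronwallBound_of_norm_deriv_right_le`,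
`gronwallBound` formula, `gronwallBound_of_K_ne_0`, or compare with `C + 1` in place of `C` to avoid
the case `C = 0`). -/
lemma linF_est {C : ℝ≥0} (hG : Good X C) (hC : ∀ t ∈ Icc (0 : ℝ) 1, ∀ x, ‖fderiv ℝ (X t) x‖ ≤ C)
    (hT : ∀ t ∈ Icc (0 : ℝ) 1, ∀ x w, ‖X t (x + w) - X t x - fderiv ℝ (X t) x w‖ ≤ C * ‖w‖ ^ 2) :
    ∃ M : ℝ, ∀ (ζ : (V →L[ℝ] V) → ℝ) (α : ℝ → V × (V →L[ℝ] V)) (β : ℝ → V) (w : V),
      IC (linF X ζ) α → (∀ t ∈ Icc (0 : ℝ) 1, ζ (α t).2 = 1) → (α 0).2 = ContinuousLinearMap.id ℝ V →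
      IC X β → β 0 = (α 0).1 + w → ‖β 1 - (α 1).1 - (α 1).2 w‖ ≤ M * ‖w‖ ^ 2 := by
  refine ⟨C * (Real.exp C) ^ 2 / (C + 1) * (Real.exp (C + 1) - 1), ?_⟩
  intro ζ α β w hα hζ hα0 hβ hβ0
  have hC0 : (0 : ℝ) ≤ C := C.2
  -- the components of the curve
  have hy : ∀ t ∈ Ico (0 : ℝ) 1, HasDerivWithinAt (fun s => (α s).1) (X t (α t).1) (Ici t) t := by
    intro t ht
    have h1 := hα.right ht
    have h2 := (hasFDerivAt_fst (𝕜 := ℝ) (p := α t)).comp_hasDerivWithinAt t h1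
    have h3 : (ContinuousLinearMap.fst ℝ V (V →L[ℝ] V)) (linF X ζ t (α t)) = X t (α t).1 := by
      simp only [linF, ContinuousLinearMap.coe_fst', hζ t (Ico_subset_Icc_self ht), one_smul]
    rw [h3] at h2
    exact h2
  have hJ : ∀ t ∈ Ico (0 : ℝ) 1, HasDerivWithinAt (fun s => (α s).2 w)
      (fderiv ℝ (X t) (α t).1 ((α t).2 w)) (Ici t) t := by
    intro t ht
    have h1 := hα.right ht
    have h2 := (hasFDerivAt_snd (𝕜 := ℝ) (p := α t)).comp_hasDerivWithinAt t h1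
    have h3 : (ContinuousLinearMap.snd ℝ V (V →L[ℝ] V)) (linF X ζ t (α t)) =
        (fderiv ℝ (X t) (α t).1).comp (α t).2 := by
      simp only [linF, ContinuousLinearMap.coe_snd', hζ t (Ico_subset_Icc_self ht), one_smul]
    rw [h3] at h2
    have h4 := ((ContinuousLinearMap.apply ℝ V w).hasFDerivAt
      (x := (α t).2)).comp_hasDerivWithinAt t h2
    exact h4
  have hβr : ∀ t ∈ Ico (0 : ℝ) 1, HasDerivWithinAt β (X t (β t)) (Ici t) t := fun t ht =>
    hβ.right ht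
  have hyc : ContinuousOn (fun s => (α s).1) (Icc 0 1) := continuous_fst.comp_continuousOn
    hα.continuousOn
  have hJc : ContinuousOn (fun s => (α s).2 w) (Icc 0 1) :=
    ((ContinuousLinearMap.apply ℝ V w).continuous.comp continuous_snd).comp_continuousOn
      hα.continuousOn
  -- the first estimate
  have hd : ∀ t ∈ Icc (0 : ℝ) 1, ‖β t - (α t).1‖ ≤ ‖w‖ * Real.exp C := by
    intro t ht
    have h0 : dist (β 0) ((fun s => (α s).1) 0) ≤ ‖w‖ := by
      rw [hβ0, dist_eq_norm]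
      simp
    have h1 := dist_le_of_trajectories_ODE_of_mem (K := C) (v := X) (s := fun _ => univ)
      (fun t ht => (hG.lip t (Ico_subset_Icc_self ht)).lipschitzOnWith)
      hβ.continuousOn hβr (fun _ _ => trivial) hyc hy (fun _ _ => trivial) h0 t ht
    rw [dist_eq_norm] at h1
    refine h1.trans (mul_le_mul_of_nonneg_left (Real.exp_le_exp.2 ?_) (norm_nonneg _))
    have h2 : t - 0 ≤ 1 := by linarith [ht.2]
    calc (C : ℝ) * (t - 0) ≤ C * 1 := mul_le_mul_of_nonneg_left h2 hC0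
      _ = C := mul_one _
  -- the second estimate
  have hf : ContinuousOn (fun s => β s - (α s).1 - (α s).2 w) (Icc 0 1) :=
    (hβ.continuousOn.sub hyc).sub hJc
  have hf' : ∀ t ∈ Ico (0 : ℝ) 1, HasDerivWithinAt (fun s => β s - (α s).1 - (α s).2 w)
      (X t (β t) - X t (α t).1 - fderiv ℝ (X t) (α t).1 ((α t).2 w)) (Ici t) t := fun t ht =>
    ((hβr t ht).fun_sub (hy t ht)).fun_sub (hJ t ht)
  have ha : ‖(fun s => β s - (α s).1 - (α s).2 w) 0‖ ≤ 0 := by
    simp [hβ0, hα0]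
  have hb : ∀ t ∈ Ico (0 : ℝ) 1,
      ‖X t (β t) - X t (α t).1 - fderiv ℝ (X t) (α t).1 ((α t).2 w)‖ ≤
        ((C : ℝ) + 1) * ‖(fun s => β s - (α s).1 - (α s).2 w) t‖ +
          C * (‖w‖ * Real.exp C) ^ 2 := by
    intro t ht
    have ht' := Ico_subset_Icc_self ht
    have e1 : X t (β t) - X t (α t).1 - fderiv ℝ (X t) (α t).1 ((α t).2 w) =
        (X t ((α t).1 + (β t - (α t).1)) - X t (α t).1 -
          fderiv ℝ (X t) (α t).1 (β t - (α t).1)) +
        fderiv ℝ (X t) (α t).1 (β t - (α t).1 - (α t).2 w) := by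
      rw [add_sub_cancel, map_sub (fderiv ℝ (X t) (α t).1) (β t - (α t).1)]
      abel
    rw [e1]
    refine (norm_add_le _ _).trans ?_
    have h1 := hT t ht' (α t).1 (β t - (α t).1)
    have h2 : ‖fderiv ℝ (X t) (α t).1 (β t - (α t).1 - (α t).2 w)‖ ≤
        C * ‖β t - (α t).1 - (α t).2 w‖ :=
      ((fderiv ℝ (X t) (α t).1).le_opNorm _).trans
        (mul_le_mul_of_nonneg_right (hC t ht' _) (norm_nonneg _))
    have h3 : ‖β t - (α t).1‖ ^ 2 ≤ (‖w‖ * Real.exp C) ^ 2 :=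
      pow_le_pow_left₀ (norm_nonneg _) (hd t ht') 2
    have h4 := mul_le_mul_of_nonneg_left h3 hC0
    have h5 := norm_nonneg (β t - (α t).1 - (α t).2 w)
    simp only
    linarith
  have hfin := norm_le_gronwallBound_of_norm_deriv_right_le hf hf' ha hb 1
    (right_mem_Icc.2 zero_le_one)
  have hK : (C : ℝ) + 1 ≠ 0 := by positivity
  rw [gronwallBound_of_K_ne_0 hK] at hfin
  simp only [zero_mul, zero_add, sub_zero, mul_one] at hfin
  refine hfin.trans (le_of_eq ?_)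
  ring

end Pool.Agent.W_68f289_h35

end

section

/-!
The time-one map is differentiable.
-/

open Set Metric Topology Pool.Agent.W_MP_68f289_gt
open scoped NNReal ContDiff

namespace Pool.Agent.W_68f289_h35

variable {V : Type} [NormedAddCommGroup V] [NormedSpace ℝ V] [FiniteDimensional ℝ V]
  {X : ℝ → V → V} {K : Set V}

/-- The time-one map is differentiable and its derivative is the second component of the time-one
map of the linearised field. Proof: choose a smooth compactly supported `ζ` with values in `[0,1]`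
which is `1` on the closed ball of radius `e^C + 1` (`exists_contDiff_tsupport_subset` or
`ContDiffBump` on the finite dimensional space `V →L[ℝ] V`; `‖id‖ ≤ 1`). By `linF_bound` the solution
`α` starting at `(x, id)` has `‖J‖ ≤ e^C`, so `ζ = 1` along it and its first component is the solution
of `X` starting at `x` (uniqueness `Good.sol_eq`). Then `linF_est` gives `HasFDerivAt` (from the
`O(‖w‖²)` estimate: `HasFDerivAt.of_isLittleO` / `hasFDerivAt_iff_isLittleO_nhds_zero` with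
`isBigO`, `Asymptotics.isLittleO_norm_pow_id`-type lemmas). -/
lemma exists_linF (hX : CField X K) {C : ℝ≥0} (hG : Good X C) :
    ∃ (ζ : (V →L[ℝ] V) → ℝ) (C' : ℝ≥0) (hG' : Good (linF X ζ) C'),
      CField (linF X ζ) (K ×ˢ tsupport ζ) ∧
      ∀ x : V, HasFDerivAt (fun x => hG.sol ⟨0, by simp⟩ x 1)
        ((hG'.sol ⟨0, by simp⟩ (x, ContinuousLinearMap.id ℝ V) 1).2) x := by
  obtain ⟨C1, hG1, hb1, hT1⟩ := hX.exists_bounds
  obtain ⟨M, hM⟩ := linF_est hG1 hb1 hT1
  have hpos : (0 : ℝ) < Real.exp C1 + 1 := by positivity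
  let ζ : ContDiffBump (0 : V →L[ℝ] V) := ⟨Real.exp C1 + 1, Real.exp C1 + 2, hpos, by linarith⟩
  have hF : CField (linF X ζ) (K ×ˢ tsupport ζ) := hX.linF ζ.contDiff ζ.hasCompactSupport
  obtain ⟨C', hG', -, -⟩ := hF.exists_bounds
  refine ⟨ζ, C', hG', hF, fun x => ?_⟩
  have hα : IC (linF X ζ) (hG'.sol ⟨0, by simp⟩ (x, ContinuousLinearMap.id ℝ V)) :=
    hG'.sol_IC _ _
  have hα0 : hG'.sol ⟨0, by simp⟩ (x, ContinuousLinearMap.id ℝ V) 0 =
      (x, ContinuousLinearMap.id ℝ V) := hG'.sol_self ⟨0, by simp⟩ _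
  have hid : ‖ContinuousLinearMap.id ℝ V‖ ≤ 1 := ContinuousLinearMap.norm_id_le
  have hζ1 : ∀ t ∈ Icc (0 : ℝ) 1,
      ζ (hG'.sol ⟨0, by simp⟩ (x, ContinuousLinearMap.id ℝ V) t).2 = 1 := by
    intro t ht
    apply ζ.one_of_mem_closedBall
    rw [mem_closedBall, dist_zero_right]
    have h1 := linF_bound hb1 (fun _ => ζ.nonneg) (fun _ => ζ.le_one) hα ht
    rw [hα0] at h1
    refine h1.trans ?_
    calc ‖ContinuousLinearMap.id ℝ V‖ * Real.exp C1 ≤ 1 * Real.exp C1 :=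
          mul_le_mul_of_nonneg_right hid (Real.exp_pos _).le
      _ ≤ Real.exp C1 + 1 := by linarith
  have hJ0 : (hG'.sol ⟨0, by simp⟩ (x, ContinuousLinearMap.id ℝ V) 0).2 =
      ContinuousLinearMap.id ℝ V := by rw [hα0]
  have key : ∀ w : V, ‖hG.sol ⟨0, by simp⟩ (x + w) 1 -
      (hG'.sol ⟨0, by simp⟩ (x, ContinuousLinearMap.id ℝ V) 1).1 -
      (hG'.sol ⟨0, by simp⟩ (x, ContinuousLinearMap.id ℝ V) 1).2 w‖ ≤ M * ‖w‖ ^ 2 := by
    intro w
    refine hM ζ _ (hG.sol ⟨0, by simp⟩ (x + w)) w hα hζ1 hJ0 (hG.sol_IC _ _) ?_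
    rw [hα0]
    exact hG.sol_self ⟨0, by simp⟩ _
  have e0 : hG.sol ⟨0, by simp⟩ x 1 =
      (hG'.sol ⟨0, by simp⟩ (x, ContinuousLinearMap.id ℝ V) 1).1 := by
    have h1 := key 0
    rw [add_zero, map_zero, sub_zero, norm_zero] at h1
    have h2 : ‖hG.sol ⟨0, by simp⟩ x 1 -
      (hG'.sol ⟨0, by simp⟩ (x, ContinuousLinearMap.id ℝ V) 1).1‖ ≤ 0 := by
      simpa using h1
    exact sub_eq_zero.1 (norm_le_zero_iff.1 h2)
  rw [hasFDerivAt_iff_isLittleO_nhds_zero]
  refine Asymptotics.IsBigO.trans_isLittleO (g := fun h : V => ‖h‖ ^ 2) ?_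
    (Asymptotics.isLittleO_norm_pow_id one_lt_two)
  refine Asymptotics.IsBigO.of_bound M (Filter.Eventually.of_forall fun w => ?_)
  rw [e0, norm_pow, norm_norm]
  exact key w

end Pool.Agent.W_68f289_h35

end

section

/-!
The time-one map is smooth.
-/

open Set Metric Topology Pool.Agent.W_MP_68f289_gt
open scoped NNReal ContDiff

namespace Pool.Agent.W_68f289_h35

/-- Proof: induction on `k`, for all spaces at once. `k = 0`: `Good.sol_cont`. Step: by `exists_linF`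
the map is differentiable with `fderiv` equal to `x ↦ (sol (x, id) 1).2` for the field `linF X ζ` on
the finite dimensional space `V × (V →L[ℝ] V)`, which is `C^k` by the induction hypothesis
(`contDiff_succ_iff_fderiv`). -/
lemma contDiff_sol_nat (k : ℕ) : ∀ (V : Type) [NormedAddCommGroup V] [NormedSpace ℝ V]
    [FiniteDimensional ℝ V] (X : ℝ → V → V) (K : Set V), CField X K → ∀ (C : ℝ≥0) (hG : Good X C),
      ContDiff ℝ k (fun x => hG.sol ⟨0, by simp⟩ x 1) := by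
  induction k with
  | zero =>
    intro V _ _ _ X K _ C hG
    rw [Nat.cast_zero, contDiff_zero]
    exact hG.sol_cont ⟨0, by simp⟩ ⟨1, by simp⟩
  | succ k ih =>
    intro V _ _ _ X K hX C hG
    obtain ⟨ζ, C', hG', hCF, hder⟩ := exists_linF hX hG
    rw [Nat.cast_add, Nat.cast_one, contDiff_succ_iff_fderiv]
    refine ⟨fun x => (hder x).differentiableAt, fun h => absurd h (by simp), ?_⟩
    have h1 : fderiv ℝ (fun x => hG.sol ⟨0, by simp⟩ x 1) =
        fun x => (hG'.sol ⟨0, by simp⟩ (x, ContinuousLinearMap.id ℝ V) 1).2 :=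
      funext fun x => (hder x).fderiv
    rw [h1]
    have h2 := ih (V × (V →L[ℝ] V)) (linF X ζ) (K ×ˢ tsupport ζ) hCF C' hG'
    exact (h2.comp (contDiff_id.prodMk contDiff_const)).snd

variable {V : Type} [NormedAddCommGroup V] [NormedSpace ℝ V] [FiniteDimensional ℝ V]
  {X : ℝ → V → V} {K : Set V}

/-- Any family of integral curves on `[0, 1]` has a smooth time-one map. Proof: `contDiff_infty` and
`contDiff_sol_nat`, `Good.sol_eq`, `CField.exists_bounds`. -/
theorem contDiff_timeOne (hX : CField X K) {φ : V → ℝ → V} (h0 : ∀ x, φ x 0 = x)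
    (hφ : ∀ x, IC X (φ x)) : ContDiff ℝ ((⊤ : ℕ∞) : WithTop ℕ∞) (fun x => φ x 1) := by
  obtain ⟨C, hG, -, -⟩ := hX.exists_bounds
  have h1 : (fun x => φ x 1) = fun x => hG.sol ⟨0, by simp⟩ x 1 :=
    funext fun x => (hG.sol_eq (s := ⟨0, by simp⟩) (hφ x) (h0 x) (by simp)).symm
  rw [h1, contDiff_infty]
  exact fun k => contDiff_sol_nat k V X K hX C hG

end Pool.Agent.W_68f289_h35

end

section

/-!
Joint smoothness of flows.
-/

open Set Metric Topology Pool.Agent.W_MP_68f289_gt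
open scoped NNReal ContDiff

namespace Pool.Agent.W_68f289_h35

variable {V : Type} [NormedAddCommGroup V] [NormedSpace ℝ V] [FiniteDimensional ℝ V]
  {X : ℝ → V → V} {K : Set V}

/-- the rescaled field -/
noncomputable def SD2b_Y (ζ : ℝ → ℝ) (X : ℝ → V → V) (s : ℝ) (q : ℝ × V) : ℝ × V :=
  (0, (ζ q.1 * q.1) • X (q.1 * s) q.2)

omit [FiniteDimensional ℝ V] in
theorem SD2b_field (hX : CField X K) {ζ : ℝ → ℝ} (hζ : ContDiff ℝ ((⊤ : ℕ∞) : WithTop ℕ∞) ζ)
    (hc : HasCompactSupport ζ) : CField (SD2b_Y ζ X) (tsupport ζ ×ˢ K) where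
  smooth := by
    have h1 : ContDiff ℝ ((⊤ : ℕ∞) : WithTop ℕ∞)
        (fun p : ℝ × (ℝ × V) => Function.uncurry X (p.2.1 * p.1, p.2.2)) :=
      hX.smooth.comp (((contDiff_fst.comp contDiff_snd).mul contDiff_fst).prodMk
        (contDiff_snd.comp contDiff_snd))
    have h2 : ContDiff ℝ ((⊤ : ℕ∞) : WithTop ℕ∞) (fun p : ℝ × (ℝ × V) => ζ p.2.1 * p.2.1) :=
      (hζ.comp (contDiff_fst.comp contDiff_snd)).mul (contDiff_fst.comp contDiff_snd)
    exact contDiff_const.prodMk (h2.smul h1)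
  comp := hc.prod hX.comp
  supp := by
    intro t q hq
    unfold SD2b_Y
    rw [Set.mem_prod, not_and_or] at hq
    rcases hq with hq | hq
    · have h : ζ q.1 = 0 := image_eq_zero_of_notMem_tsupport hq
      rw [h, zero_mul, zero_smul]
      rfl
    · rw [hX.supp _ _ hq, smul_zero]
      rfl

omit [FiniteDimensional ℝ V] in
theorem SD2b_curve {φ : ℝ → V → V} (hφ : ∀ t x, HasDerivAt (fun s => φ s x) (X t (φ t x)) t)
    {ζ : ℝ → ℝ} {τ : ℝ} (hτ : ζ τ = 1) (x : V) :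
    IC (SD2b_Y ζ X) (fun s => (τ, φ (τ * s) x)) := by
  intro t _
  have h1 : HasDerivAt (fun s : ℝ => τ * s) τ t := by
    have h := (hasDerivAt_id t).const_mul τ
    rw [mul_one] at h
    exact h
  have h2 : HasDerivAt (fun s => φ (τ * s) x) (τ • X (τ * t) (φ (τ * t) x)) t :=
    HasDerivAt.scomp t (hφ (τ * t) x) h1
  have h3 : HasDerivAt (fun s => (τ, φ (τ * s) x)) ((0 : ℝ), τ • X (τ * t) (φ (τ * t) x)) t :=
    (hasDerivAt_const t τ).prodMk h2
  have h4 : SD2b_Y ζ X t (τ, φ (τ * t) x) = ((0 : ℝ), τ • X (τ * t) (φ (τ * t) x)) := by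
    unfold SD2b_Y
    change ((0 : ℝ), (ζ τ * τ) • X (τ * t) (φ (τ * t) x)) = _
    rw [hτ, one_mul]
  have h5 := h3.hasDerivWithinAt (s := Icc 0 1)
  rw [← h4] at h5
  exact h5

/-- Joint smoothness. Proof: it suffices to prove that `(τ, x) ↦ φ τ x` is `C^∞` at points with
`|τ| < T`, for every `T > 0`. Take `ζ : ℝ → ℝ` smooth, compactly supported, `ζ = 1` on `[-T, T]`, and the
field `Y s (τ, x) = (0, (ζ τ * τ) • X (τ * s) x)` on `ℝ × V`; it is a `CField` with support in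
`tsupport ζ ×ˢ K`. For `|τ| ≤ T` the curve `s ↦ (τ, φ (τ s) x)` is an integral curve of it; in general
choose any integral curve (`Good.sol`) when `|τ| > T`. By `contDiff_timeOne` the time-one map
is smooth, and it equals `(τ, φ τ x)` for `|τ| < T`. -/
theorem contDiff_flow (hX : CField X K) {φ : ℝ → V → V} (h0 : ∀ x, φ 0 x = x)
    (hφ : ∀ t x, HasDerivAt (fun s => φ s x) (X t (φ t x)) t) :
    ContDiff ℝ ((⊤ : ℕ∞) : WithTop ℕ∞) (Function.uncurry φ) := by
  rw [contDiff_iff_contDiffAt]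
  intro q₀
  set T : ℝ := |q₀.1| + 1 with hT
  have hT0 : 0 < T := by positivity
  let b : ContDiffBump (0 : ℝ) := ⟨T, T + 1, hT0, by linarith⟩
  have hb1 : ∀ τ : ℝ, |τ| ≤ T → b τ = 1 := by
    intro τ hτ
    apply b.one_of_mem_closedBall
    rw [mem_closedBall, dist_zero_right, Real.norm_eq_abs]
    exact hτ
  have hY : CField (SD2b_Y b X) (tsupport b ×ˢ K) :=
    SD2b_field hX b.contDiff b.hasCompactSupport
  obtain ⟨C, hG, -, -⟩ := hY.exists_bounds
  classical
  let Φ : ℝ × V → ℝ → ℝ × V := fun q s =>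
    if |q.1| ≤ T then (q.1, φ (q.1 * s) q.2) else hG.sol ⟨0, by simp⟩ q s
  have hΦ0 : ∀ q, Φ q 0 = q := by
    intro q
    by_cases hq : |q.1| ≤ T
    · have e : Φ q 0 = (q.1, φ (q.1 * 0) q.2) := if_pos hq
      rw [e, mul_zero, h0]
    · have e : Φ q 0 = hG.sol ⟨0, by simp⟩ q 0 := if_neg hq
      rw [e]
      exact hG.sol_self ⟨0, by simp⟩ q
  have hΦ : ∀ q, IC (SD2b_Y b X) (Φ q) := by
    intro q
    by_cases hq : |q.1| ≤ T
    · have e : Φ q = fun s => (q.1, φ (q.1 * s) q.2) := funext fun s => if_pos hq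
      rw [e]
      exact SD2b_curve hφ (hb1 _ hq) q.2
    · have e : Φ q = hG.sol ⟨0, by simp⟩ q := funext fun s => if_neg hq
      rw [e]
      exact hG.sol_IC ⟨0, by simp⟩ q
  have h1 : ContDiff ℝ ((⊤ : ℕ∞) : WithTop ℕ∞) (fun q : ℝ × V => (Φ q 1).2) :=
    contDiff_snd.comp (contDiff_timeOne hY hΦ0 hΦ)
  refine h1.contDiffAt.congr_of_eventuallyEq ?_
  have h2 : {q : ℝ × V | |q.1| < T} ∈ 𝓝 q₀ := by
    apply IsOpen.mem_nhds
    · exact isOpen_lt (continuous_fst.abs) continuous_const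
    · show |q₀.1| < T
      linarith
  filter_upwards [h2] with q hq
  have hq' : |q.1| < T := hq
  have e : Φ q 1 = (q.1, φ (q.1 * 1) q.2) := if_pos hq'.le
  rw [e, mul_one]
  rfl

end Pool.Agent.W_68f289_h35

end

section

/-!
Smooth inverse of flows.
-/

open Set Metric Topology Pool.Agent.W_MP_68f289_gt
open scoped NNReal ContDiff

namespace Pool.Agent.W_68f289_h35

variable {V : Type} [NormedAddCommGroup V] [NormedSpace ℝ V] [FiniteDimensional ℝ V]
  {X : ℝ → V → V} {K : Set V}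

/-- the time reversed field -/
def SD2c_R (Y : ℝ → V → V) (s : ℝ) (q : V) : V := -(Y (1 - s) q)

omit [FiniteDimensional ℝ V] in
theorem SD2c_rev {Y : ℝ → V → V} (hY : CField Y K) : CField (SD2c_R Y) K where
  smooth := by
    have h1 : ContDiff ℝ ((⊤ : ℕ∞) : WithTop ℕ∞)
        (fun p : ℝ × V => Function.uncurry Y (1 - p.1, p.2)) :=
      hY.smooth.comp ((contDiff_const.sub contDiff_fst).prodMk contDiff_snd)
    exact h1.neg
  comp := hY.comp
  supp := by
    intro t q hq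
    unfold SD2c_R
    rw [hY.supp _ _ hq, neg_zero]

omit [FiniteDimensional ℝ V] in
theorem SD2c_RR (Y : ℝ → V → V) : SD2c_R (SD2c_R Y) = Y := by
  funext s q
  unfold SD2c_R
  rw [neg_neg, sub_sub_cancel]

omit [FiniteDimensional ℝ V] in
theorem SD2c_IC {Y : ℝ → V → V} {c : ℝ → V} (hc : IC Y c) :
    IC (SD2c_R Y) (fun s => c (1 - s)) := by
  intro t ht
  have ht' : 1 - t ∈ Icc (0 : ℝ) 1 := ⟨by linarith [ht.2], by linarith [ht.1]⟩
  have h1 : HasDerivWithinAt (fun s : ℝ => 1 - s) (-1) (Icc 0 1) t := by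
    have h := ((hasDerivAt_id t).const_sub 1).hasDerivWithinAt (s := Icc (0 : ℝ) 1)
    exact h
  have h2 : MapsTo (fun s : ℝ => 1 - s) (Icc 0 1) (Icc 0 1) := by
    intro s hs
    exact ⟨by linarith [hs.2], by linarith [hs.1]⟩
  have h3 := HasDerivWithinAt.scomp t (hc (1 - t) ht') h1 h2
  have h4 : SD2c_R Y t (c (1 - t)) = (-1 : ℝ) • Y (1 - t) (c (1 - t)) := by
    unfold SD2c_R
    rw [neg_smul, one_smul]
  rw [← h4] at h3
  exact h3

omit [FiniteDimensional ℝ V] in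
theorem SD2c_fst {ζ : ℝ → ℝ} {d : ℝ → ℝ × V} (hd : IC (SD2b_Y ζ X) d) :
    (d 1).1 = (d 0).1 := by
  have h1 : ContinuousOn (fun s => (d s).1) (Icc 0 1) :=
    continuous_fst.comp_continuousOn hd.continuousOn
  have h2 : ∀ x ∈ Ico (0 : ℝ) 1, HasDerivWithinAt (fun s => (d s).1) 0 (Ici x) x := by
    intro x hx
    exact (ContinuousLinearMap.fst ℝ ℝ V).hasFDerivAt.comp_hasDerivWithinAt x (hd.right hx)
  exact constant_of_has_deriv_right_zero h1 h2 1 ⟨zero_le_one, le_refl 1⟩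

/-- The inverse evolution exists and is jointly smooth. Proof: for `|τ| < T` use the field
`Y s (τ, x) = (0, -(ζ τ * τ) • X (τ * (1 - s)) x)` on `ℝ × V`, with `ζ` as in `contDiff_flow`; let
`χ τ x` be the second component of its time-one map at `(τ, x)` (the first is `τ`). For `|τ| ≤ T`
the curve `s ↦ (τ, φ (τ (1 - s)) y)` is the integral curve from `(τ, φ τ y)`, so
`χ τ (φ τ y) = y`. Conversely if `z` is the integral curve from `x`, `s ↦ z (1 - s)` and
`s ↦ φ (τ s) (χ τ x)` are integral curves on `[0, 1]` of `s x ↦ τ • X (τ s) x` with the same value at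
`0`, so they agree at `1`: `x = φ τ (χ τ x)`. Since `φ τ` is then bijective, `χ` does not depend on `T`
(or define `χ τ` as the inverse function, with `Function.invFun` or by choice, at the start). -/
theorem exists_inverse_flow (hX : CField X K) {φ : ℝ → V → V} (h0 : ∀ x, φ 0 x = x)
    (hφ : ∀ t x, HasDerivAt (fun s => φ s x) (X t (φ t x)) t) :
    ∃ χ : ℝ → V → V, ContDiff ℝ ((⊤ : ℕ∞) : WithTop ℕ∞) (Function.uncurry χ) ∧
      (∀ t x, φ t (χ t x) = x) ∧ ∀ t x, χ t (φ t x) = x := by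
  -- the local statement
  have key : ∀ T : ℝ, 0 < T → ∃ G : ℝ × V → ℝ × V,
      ContDiff ℝ ((⊤ : ℕ∞) : WithTop ℕ∞) G ∧
      (∀ τ : ℝ, |τ| ≤ T → ∀ y, G (τ, φ τ y) = (τ, y)) ∧
      ∀ τ : ℝ, |τ| ≤ T → ∀ x, ∃ y, φ τ y = x := by
    intro T hT0
    let b : ContDiffBump (0 : ℝ) := ⟨T, T + 1, hT0, by linarith⟩
    have hb1 : ∀ τ : ℝ, |τ| ≤ T → b τ = 1 := by
      intro τ hτ
      apply b.one_of_mem_closedBall
      rw [mem_closedBall, dist_zero_right, Real.norm_eq_abs]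
      exact hτ
    have hY : CField (SD2b_Y b X) (tsupport b ×ˢ K) :=
      SD2b_field hX b.contDiff b.hasCompactSupport
    have hR := SD2c_rev hY
    obtain ⟨C, hG, -, -⟩ := hR.exists_bounds
    obtain ⟨C', hG', -, -⟩ := hY.exists_bounds
    let Ψ : ℝ × V → ℝ → ℝ × V := fun q => hG.sol ⟨0, by simp⟩ q
    have hΨ0 : ∀ q, Ψ q 0 = q := fun q => hG.sol_self ⟨0, by simp⟩ q
    have hΨ : ∀ q, IC (SD2c_R (SD2b_Y b X)) (Ψ q) := fun q => hG.sol_IC ⟨0, by simp⟩ q
    refine ⟨fun q => Ψ q 1, contDiff_timeOne hR hΨ0 hΨ, ?_, ?_⟩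
    · intro τ hτ y
      have hc := SD2c_IC (SD2b_curve hφ (hb1 τ hτ) y)
      have h1 := hG.unique (hΨ (τ, φ τ y)) hc (s := 0) ⟨le_refl _, zero_le_one⟩ (by
        rw [hΨ0, sub_zero, mul_one])
      have h2 := h1 (show (1 : ℝ) ∈ Icc (0 : ℝ) 1 from ⟨zero_le_one, le_refl _⟩)
      show Ψ (τ, φ τ y) 1 = (τ, y)
      rw [h2]
      show (τ, φ (τ * (1 - 1)) y) = (τ, y)
      rw [sub_self, mul_zero, h0]
    · intro τ hτ x
      have hd := SD2c_IC (hΨ (τ, x))
      rw [SD2c_RR] at hd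
      have h1 := SD2c_fst hd
      have h1' : (Ψ (τ, x) (1 - 1)).1 = (Ψ (τ, x) (1 - 0)).1 := h1
      rw [sub_self, sub_zero, hΨ0] at h1'
      refine ⟨(Ψ (τ, x) 1).2, ?_⟩
      have hc := SD2b_curve hφ (hb1 τ hτ) (Ψ (τ, x) 1).2
      have h2 := hG'.unique hd hc (s := 0) ⟨le_refl _, zero_le_one⟩ (by
        rw [sub_zero, mul_zero, h0]
        exact Prod.ext h1'.symm rfl)
      have h3 := h2 (show (1 : ℝ) ∈ Icc (0 : ℝ) 1 from ⟨zero_le_one, le_refl _⟩)
      have h4 : Ψ (τ, x) (1 - 1) = (τ, φ (τ * 1) (Ψ (τ, x) 1).2) := h3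
      rw [sub_self, hΨ0, mul_one] at h4
      exact (congrArg Prod.snd h4).symm
  have hsurj : ∀ t x, ∃ y, φ t y = x := by
    intro t x
    obtain ⟨G, -, -, h3⟩ := key (|t| + 1) (by positivity)
    exact h3 t (by linarith) x
  choose χ hχ using hsurj
  refine ⟨χ, ?_, hχ, ?_⟩
  · rw [contDiff_iff_contDiffAt]
    intro q₀
    obtain ⟨G, hG1, hG2, -⟩ := key (|q₀.1| + 1) (by positivity)
    have h1 : ContDiff ℝ ((⊤ : ℕ∞) : WithTop ℕ∞) (fun q : ℝ × V => (G q).2) :=
      contDiff_snd.comp hG1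
    refine h1.contDiffAt.congr_of_eventuallyEq ?_
    have h2 : {q : ℝ × V | |q.1| < |q₀.1| + 1} ∈ 𝓝 q₀ := by
      apply IsOpen.mem_nhds
      · exact isOpen_lt (continuous_fst.abs) continuous_const
      · show |q₀.1| < |q₀.1| + 1
        linarith
    filter_upwards [h2] with q hq
    have hq' : |q.1| < |q₀.1| + 1 := hq
    have h3 := hG2 q.1 hq'.le (χ q.1 q.2)
    rw [hχ] at h3
    show χ q.1 q.2 = (G q).2
    have h4 : G q = (q.1, χ q.1 q.2) := h3
    rw [h4]
  · intro t x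
    obtain ⟨G, -, h2, -⟩ := key (|t| + 1) (by positivity)
    have e1 := h2 t (by linarith) (χ t (φ t x))
    have e2 := h2 t (by linarith) x
    rw [hχ] at e1
    rw [e1] at e2
    exact congrArg Prod.snd e2

end Pool.Agent.W_68f289_h35

end
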