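import Pool.Agent.W_68f289_h35m.Sd
import Pool.Agent.W_68f289_h35m.Sy
import Pool.Agent.W_MP_68f289_gt.Grp

section

/-!
Hamiltonian flows: smoothness, inverse, support.
-/

open Set Metric Topology Pool.Agent.W_MP_68f289_gt MeasureTheory
open scoped NNReal ContDiff

namespace Pool.Agent.W_68f289_h35

variable {n : ℕ} {H : ℝ → E n → ℝ} {ψ : ℝ → E n → E n}

/-- Proof: `Adm.XH_smooth`, `Adm.XH_off`. -/
lemma HIso.cfield (h : HIso n H ψ) : ∃ K : Set (E n), K ⊆ Bl n ∧
    (∀ t, ∀ x, x ∉ K → H t x = 0) ∧ CField (fun t => XH (H t)) K := by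
  obtain ⟨K, hc, hB, h0⟩ := h.supp
  have hA : Adm n H K := ⟨h.smooth, hc, hB, h0⟩
  exact ⟨K, hB, h0, ⟨hA.XH_smooth, hc, fun t x hx => hA.XH_off t hx⟩⟩

lemma HIso.contDiff (h : HIso n H ψ) : ContDiff ℝ ((⊤ : ℕ∞) : WithTop ℕ∞) (Function.uncurry ψ) := by
  obtain ⟨K, _, _, hK⟩ := HIso.cfield h
  exact contDiff_flow hK h.zero h.der

lemma HIso.exists_inv (h : HIso n H ψ) : ∃ χ : ℝ → E n → E n,
    ContDiff ℝ ((⊤ : ℕ∞) : WithTop ℕ∞) (Function.uncurry χ) ∧
      (∀ t x, ψ t (χ t x) = x) ∧ ∀ t x, χ t (ψ t x) = x := by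
  obtain ⟨K, _, _, hK⟩ := HIso.cfield h
  exact exists_inverse_flow hK h.zero h.der

/-- the inverse maps of the flow -/
noncomputable def HIso.inv (h : HIso n H ψ) : ℝ → E n → E n := (HIso.exists_inv h).choose

lemma HIso.inv_contDiff (h : HIso n H ψ) :
    ContDiff ℝ ((⊤ : ℕ∞) : WithTop ℕ∞) (Function.uncurry (HIso.inv h)) :=
  (HIso.exists_inv h).choose_spec.1

lemma HIso.apply_inv (h : HIso n H ψ) (t : ℝ) (x : E n) : ψ t (HIso.inv h t x) = x :=
  (HIso.exists_inv h).choose_spec.2.1 t x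

lemma HIso.inv_apply (h : HIso n H ψ) (t : ℝ) (x : E n) : HIso.inv h t (ψ t x) = x :=
  (HIso.exists_inv h).choose_spec.2.2 t x

/-- the maps of the flow as homeomorphisms -/
noncomputable def HIso.homeo (h : HIso n H ψ) (t : ℝ) : E n ≃ₜ E n where
  toFun := ψ t
  invFun := HIso.inv h t
  left_inv := HIso.inv_apply h t
  right_inv := HIso.apply_inv h t
  continuous_toFun := (HIso.contDiff h).continuous.comp (continuous_const.prodMk continuous_id)
  continuous_invFun := (HIso.inv_contDiff h).continuous.comp (continuous_const.prodMk continuous_id)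

/-- the flow is the identity off the support (uniqueness of integral curves on `[0, 1]` only gives
this for `t ∈ [0,1]`; for all `t` use the inverse: rescale time, or apply uniqueness
`ODE_solution_unique_univ` with the field which is Lipschitz on compact time intervals; simplest: if
`x ∉ K`, then `s ↦ x` and `s ↦ ψ s x` are integral curves of the field, which is locally Lipschitz:
for `T > 0` the rescaled field `s x ↦ T • XH (H (T s)) x` is `Good` on `[0, 1]` by
`CField.exists_bounds` and `Good.unique` applies; same with `-T`) -/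
lemma HIso.off (h : HIso n H ψ) {K : Set (E n)} (hc : IsCompact K)
    (hK : ∀ t, ∀ x, x ∉ K → H t x = 0) (t : ℝ) {x : E n} (hx : x ∉ K) : ψ t x = x := by
  obtain ⟨K', -, -, hK'⟩ := HIso.cfield h
  have hC : CField (fun s x => t • XH (H (t * s)) x) K' := by
    refine ⟨?_, hK'.comp, fun s y hy => ?_⟩
    · have h1 : ContDiff ℝ ((⊤ : ℕ∞) : WithTop ℕ∞) (fun p : ℝ × E n => (t * p.1, p.2)) :=
        (contDiff_const.mul contDiff_fst).prodMk contDiff_snd
      exact (hK'.smooth.comp h1).const_smul t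
    · change t • XH (H (t * s)) y = 0
      have h1 : XH (H (t * s)) y = 0 := hK'.supp (t * s) y hy
      rw [h1, smul_zero]
  obtain ⟨C, hG, -, -⟩ := hC.exists_bounds
  have hX0 : ∀ s, XH (H s) x = 0 := by
    intro s
    rw [← XH_zero x]
    apply XH_congr
    filter_upwards [hc.isClosed.isOpen_compl.mem_nhds hx] with y hy
    exact hK s y hy
  have hα : IC (fun s x => t • XH (H (t * s)) x) (fun _ => x) := by
    intro s _
    change HasDerivWithinAt (fun _ => x) (t • XH (H (t * s)) x) (Icc 0 1) s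
    rw [hX0, smul_zero]
    exact hasDerivWithinAt_const _ _ _
  have hβ : IC (fun s x => t • XH (H (t * s)) x) (fun s => ψ (t * s) x) := by
    intro s _
    change HasDerivWithinAt (fun s => ψ (t * s) x) (t • XH (H (t * s)) (ψ (t * s) x)) (Icc 0 1) s
    have h1 : HasDerivAt (fun s : ℝ => t * s) t s := by
      simpa using (hasDerivAt_id s).const_mul t
    exact ((h.der (t * s) x).scomp s h1).hasDerivWithinAt
  have h0 : (fun _ : ℝ => x) 0 = (fun s => ψ (t * s) x) 0 := by
    change x = ψ (t * 0) x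
    rw [mul_zero, h.zero]
  have h1 := hG.unique hα hβ (left_mem_Icc.2 zero_le_one) h0 (right_mem_Icc.2 zero_le_one)
  change x = ψ (t * 1) x at h1
  rw [mul_one] at h1
  exact h1.symm

/-- the flow preserves `K` (it is the identity off `K` and bijective) -/
lemma HIso.mem_iff (h : HIso n H ψ) {K : Set (E n)} (hc : IsCompact K)
    (hK : ∀ t, ∀ x, x ∉ K → H t x = 0) (t : ℝ) (x : E n) : ψ t x ∈ K ↔ x ∈ K := by
  constructor
  · intro h1
    by_contra hx
    rw [HIso.off h hc hK t hx] at h1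
    exact hx h1
  · intro hx
    by_contra h1
    have h2 := HIso.off h hc hK t h1
    have h3 := congrArg (HIso.inv h t) h2
    rw [HIso.inv_apply, HIso.inv_apply] at h3
    rw [h3] at h1
    exact h1 hx

end Pool.Agent.W_68f289_h35

end

section

/-!
Linearised equation of the flow.
-/

open Set Metric Topology Pool.Agent.W_MP_68f289_gt MeasureTheory
open scoped NNReal ContDiff

namespace Pool.Agent.W_68f289_h35

variable {n : ℕ} {H : ℝ → E n → ℝ} {ψ : ℝ → E n → E n}

/-- The derivative of the flow with respect to the initial point satisfies the linearised equation.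
Proof: symmetry of second derivatives of the smooth function `(t, x) ↦ ψ t x`
(`ContDiffAt.isSymmSndFDerivAt`), `h.der` and the chain rule. -/
lemma HIso.hasDerivAt_fderiv (h : HIso n H ψ) (t : ℝ) (x v : E n) :
    HasDerivAt (fun s => fderiv ℝ (ψ s) x v)
      (fderiv ℝ (XH (H t)) (ψ t x) (fderiv ℝ (ψ t) x v)) t := by
  have hΨ : ContDiff ℝ ((⊤ : ℕ∞) : WithTop ℕ∞) (Function.uncurry ψ) := HIso.contDiff h
  have hΨd : Differentiable ℝ (Function.uncurry ψ) := hΨ.differentiable (by simp)
  have hD : ContDiff ℝ ((⊤ : ℕ∞) : WithTop ℕ∞) (fderiv ℝ (Function.uncurry ψ)) :=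
    hΨ.fderiv_right (by simp)
  have hDd : Differentiable ℝ (fderiv ℝ (Function.uncurry ψ)) := hD.differentiable (by simp)
  -- the derivative in space
  have hsp' : ∀ (s : ℝ) (y : E n), HasFDerivAt (ψ s)
      ((fderiv ℝ (Function.uncurry ψ) (s, y)).comp (ContinuousLinearMap.inr ℝ ℝ (E n))) y := by
    intro s y
    exact (hΨd (s, y)).hasFDerivAt.comp y (hasFDerivAt_prodMk_right s y)
  have hsp : ∀ (s : ℝ) (y w : E n),
      fderiv ℝ (ψ s) y w = fderiv ℝ (Function.uncurry ψ) (s, y) (0, w) := by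
    intro s y w
    rw [(hsp' s y).fderiv]
    rfl
  -- the derivative in time
  have htm : ∀ (s : ℝ) (y : E n),
      fderiv ℝ (Function.uncurry ψ) (s, y) (1, 0) = XH (H s) (ψ s y) := by
    intro s y
    have e0 : HasDerivAt (fun r : ℝ => (r, y)) ((1 : ℝ), (0 : E n)) s :=
      (hasDerivAt_id s).prodMk (hasDerivAt_const s y)
    have e1 : HasDerivAt (fun r : ℝ => Function.uncurry ψ (r, y))
        (fderiv ℝ (Function.uncurry ψ) (s, y) (1, 0)) s :=
      HasFDerivAt.comp_hasDerivAt (f := fun r : ℝ => (r, y)) s (hΨd (s, y)).hasFDerivAt e0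
    exact e1.unique (h.der s y)
  -- the second derivative
  have hsym : fderiv ℝ (fderiv ℝ (Function.uncurry ψ)) (t, x) (1, 0) (0, v) =
      fderiv ℝ (fderiv ℝ (Function.uncurry ψ)) (t, x) (0, v) (1, 0) :=
    second_derivative_symmetric (fun y => (hΨd y).hasFDerivAt) (hDd (t, x)).hasFDerivAt (1, 0) (0, v)
  have h1 : HasDerivAt (fun s : ℝ => fderiv ℝ (Function.uncurry ψ) (s, x) (0, v))
      (fderiv ℝ (fderiv ℝ (Function.uncurry ψ)) (t, x) (1, 0) (0, v)) t := by
    have e1 : HasDerivAt (fun s : ℝ => fderiv ℝ (Function.uncurry ψ) (s, x))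
        (fderiv ℝ (fderiv ℝ (Function.uncurry ψ)) (t, x) (1, 0)) t := by
      have e0 : HasDerivAt (fun r : ℝ => (r, x)) ((1 : ℝ), (0 : E n)) t :=
        (hasDerivAt_id t).prodMk (hasDerivAt_const t x)
      exact HasFDerivAt.comp_hasDerivAt (f := fun r : ℝ => (r, x)) t (hDd (t, x)).hasFDerivAt e0
    have e2 := e1.clm_apply (hasDerivAt_const t ((0, v) : ℝ × E n))
    rw [map_zero, add_zero] at e2
    exact e2
  have h2 : HasFDerivAt (fun y : E n => fderiv ℝ (Function.uncurry ψ) (t, y) (1, 0))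
      (((ContinuousLinearMap.apply ℝ (E n) ((1, 0) : ℝ × E n)).comp
        (fderiv ℝ (fderiv ℝ (Function.uncurry ψ)) (t, x))).comp
          (ContinuousLinearMap.inr ℝ ℝ (E n))) x := by
    exact (((ContinuousLinearMap.apply ℝ (E n) ((1, 0) : ℝ × E n)).hasFDerivAt).comp (t, x)
      (hDd (t, x)).hasFDerivAt).comp x (hasFDerivAt_prodMk_right t x)
  have hX : DifferentiableAt ℝ (XH (H t)) (ψ t x) := by
    obtain ⟨K, _, _, hK⟩ := HIso.cfield h
    have e1 : Differentiable ℝ (Function.uncurry fun t => XH (H t)) :=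
      hK.smooth.differentiable (by simp)
    exact (e1 (t, ψ t x)).comp (ψ t x)
      (hasFDerivAt_prodMk_right t (ψ t x)).differentiableAt
  have h3 : HasFDerivAt (fun y : E n => XH (H t) (ψ t y))
      ((fderiv ℝ (XH (H t)) (ψ t x)).comp (fderiv ℝ (ψ t) x)) x :=
    hX.hasFDerivAt.comp x (hsp' t x).differentiableAt.hasFDerivAt
  have h4 : (fun y : E n => fderiv ℝ (Function.uncurry ψ) (t, y) (1, 0)) =
      fun y : E n => XH (H t) (ψ t y) := funext fun y => htm t y
  rw [h4] at h2
  have h5 := congrArg (fun L : E n →L[ℝ] E n => L v) (h3.unique h2)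
  have h6 : fderiv ℝ (XH (H t)) (ψ t x) (fderiv ℝ (ψ t) x v) =
      fderiv ℝ (fderiv ℝ (Function.uncurry ψ)) (t, x) (0, v) (1, 0) := h5
  rw [h6, ← hsym]
  have h7 : (fun s => fderiv ℝ (ψ s) x v) =
      fun s : ℝ => fderiv ℝ (Function.uncurry ψ) (s, x) (0, v) := funext fun s => hsp s x v
  rw [h7]
  exact h1

end Pool.Agent.W_68f289_h35

end

section

/-!
Hamiltonian flows are symplectic.
-/

open Set Metric Topology Pool.Agent.W_MP_68f289_gt MeasureTheory
open scoped NNReal ContDiff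

namespace Pool.Agent.W_68f289_h35

variable {n : ℕ} {H : ℝ → E n → ℝ} {ψ : ℝ → E n → E n}

/-- the derivative of the Hamiltonian vector field is the second derivative -/
lemma om_fderiv_two {f : E n → ℝ} (hf : ContDiff ℝ ((⊤ : ℕ∞) : WithTop ℕ∞) f) (z a b : E n) :
    om (fderiv ℝ (XH f) z a) b = fderiv ℝ (fderiv ℝ f) z a b := by
  obtain ⟨B, hB⟩ := exists_om_clm n
  have hd : Differentiable ℝ (fderiv ℝ f) :=
    (hf.fderiv_right (m := ((⊤ : ℕ∞) : WithTop ℕ∞)) (by simp)).differentiable (by simp)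
  have hX : Differentiable ℝ (XH f) := by
    have h2 : ∀ u : E n, Differentiable ℝ (fun y => fderiv ℝ f y u) := fun u =>
      hd.clm_apply (differentiable_const u)
    intro z
    unfold XH dd
    exact (differentiableAt_pi.2 fun i => h2 _ z).prodMk
      (differentiableAt_pi.2 fun i => (h2 _ z).neg)
  have h1 : HasFDerivAt (fun y => B (XH f y) b) ((B.flip b).comp (fderiv ℝ (XH f) z)) z :=
    (B.flip b).hasFDerivAt.comp z (hX z).hasFDerivAt
  have h2 : HasFDerivAt (fun y => fderiv ℝ f y b)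
      ((ContinuousLinearMap.apply ℝ ℝ b).comp (fderiv ℝ (fderiv ℝ f) z)) z :=
    (ContinuousLinearMap.apply ℝ ℝ b).hasFDerivAt.comp z (hd z).hasFDerivAt
  have e : (fun y => B (XH f y) b) = fun y => fderiv ℝ f y b := by
    funext y
    rw [hB, om_XH]
  rw [e] at h1
  have h3 := congrArg (fun L : E n →L[ℝ] ℝ => L a) (h1.unique h2)
  have h4 : B (fderiv ℝ (XH f) z a) b = fderiv ℝ (fderiv ℝ f) z a b := h3
  rw [← h4, hB]

/-- For a smooth function `f` the bilinear form `(a, b) ↦ om (fderiv (XH f) z a) b` is the Hessian, so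
symmetric (differentiate `om_XH`). -/
lemma om_fderiv_XH {f : E n → ℝ} (hf : ContDiff ℝ ((⊤ : ℕ∞) : WithTop ℕ∞) f) (z a b : E n) :
    om (fderiv ℝ (XH f) z a) b = om (fderiv ℝ (XH f) z b) a := by
  rw [om_fderiv_two hf, om_fderiv_two hf]
  exact (hf.contDiffAt.isSymmSndFDerivAt (by
    simp only [minSmoothness_of_isRCLikeNormedField]
    exact WithTop.coe_le_coe.2 (le_top : (2 : ℕ∞) ≤ ⊤))) a b

/-- The flow is symplectic: `t ↦ om (Dψ_t v) (Dψ_t w)` has derivative zero by the two lemmas above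
(`is_const_of_deriv_eq_zero`), and `ψ 0 = id`. -/
lemma HIso.symp (h : HIso n H ψ) (t : ℝ) (x : E n) : Symp (fderiv ℝ (ψ t) x) := by
  obtain ⟨B, hB⟩ := exists_om_clm n
  intro v w
  set f : ℝ → ℝ := fun s => B (fderiv ℝ (ψ s) x v) (fderiv ℝ (ψ s) x w) with hf
  have hd : ∀ s, HasDerivAt f 0 s := by
    intro s
    have h1 := HIso.hasDerivAt_fderiv h s x v
    have h2 := HIso.hasDerivAt_fderiv h s x w
    have h3 : HasDerivAt f (B (fderiv ℝ (XH (H s)) (ψ s x) (fderiv ℝ (ψ s) x v))
        (fderiv ℝ (ψ s) x w) + B (fderiv ℝ (ψ s) x v)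
        (fderiv ℝ (XH (H s)) (ψ s x) (fderiv ℝ (ψ s) x w))) s := by
      have h4 : HasDerivAt (fun s => B (fderiv ℝ (ψ s) x v))
          (B (fderiv ℝ (XH (H s)) (ψ s x) (fderiv ℝ (ψ s) x v))) s :=
        B.hasFDerivAt.comp_hasDerivAt s h1
      exact h4.clm_apply h2
    have h5 : B (fderiv ℝ (XH (H s)) (ψ s x) (fderiv ℝ (ψ s) x v))
        (fderiv ℝ (ψ s) x w) + B (fderiv ℝ (ψ s) x v)
        (fderiv ℝ (XH (H s)) (ψ s x) (fderiv ℝ (ψ s) x w)) = 0 := by
      have hs : ContDiff ℝ ((⊤ : ℕ∞) : WithTop ℕ∞) (H s) :=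
        h.smooth.comp (contDiff_const.prodMk contDiff_id)
      rw [hB, hB, om_swap (fderiv ℝ (ψ s) x v), om_fderiv_XH hs]
      ring
    rw [h5] at h3
    exact h3
  have hc := is_const_of_deriv_eq_zero (f := f) (fun s => (hd s).differentiableAt)
    (fun s => (hd s).deriv) t 0
  have h0 : fderiv ℝ (ψ 0) x = ContinuousLinearMap.id ℝ (E n) := by
    have : ψ 0 = id := funext h.zero
    rw [this, fderiv_id]
  have e1 : f t = om (fderiv ℝ (ψ t) x v) (fderiv ℝ (ψ t) x w) := by rw [hf]; exact hB _ _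
  have e2 : f 0 = om v w := by
    rw [hf]
    change B (fderiv ℝ (ψ 0) x v) (fderiv ℝ (ψ 0) x w) = _
    rw [h0, hB]
    rfl
  rw [← e1, hc, e2]

lemma HIso.inv_symp (h : HIso n H ψ) (t : ℝ) (x : E n) : Symp (fderiv ℝ (HIso.inv h t) x) := by
  have h1 : Differentiable ℝ (HIso.inv h t) :=
    ((HIso.inv_contDiff h).comp (contDiff_const.prodMk contDiff_id)).differentiable (by simp)
  have h2 : Differentiable ℝ (ψ t) :=
    ((HIso.contDiff h).comp (contDiff_const.prodMk contDiff_id)).differentiable (by simp)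
  refine (HIso.symp h t (HIso.inv h t x)).of_right_inv fun v => ?_
  have h3 : HasFDerivAt (fun y => ψ t (HIso.inv h t y))
      ((fderiv ℝ (ψ t) (HIso.inv h t x)).comp (fderiv ℝ (HIso.inv h t) x)) x :=
    (h2 _).hasFDerivAt.comp x (h1 x).hasFDerivAt
  have e : (fun y => ψ t (HIso.inv h t y)) = id := funext fun y => HIso.apply_inv h t y
  rw [e] at h3
  have h4 := congrArg (fun L : E n →L[ℝ] E n => L v) (h3.unique (hasFDerivAt_id x))
  exact h4

end Pool.Agent.W_68f289_h35

end

section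

/-!
Hamiltonian flows preserve volume.
-/

open Set Metric Topology Pool.Agent.W_MP_68f289_gt MeasureTheory
open scoped NNReal ContDiff

namespace Pool.Agent.W_68f289_h35

variable {n : ℕ} {H : ℝ → E n → ℝ} {ψ : ℝ → E n → E n}

/-- A homeomorphism which is differentiable with symplectic derivatives preserves the volume. Proof:
`lintegral_image_eq_lintegral_abs_det_fderiv_mul` or
`MeasureTheory.addHaar_image_eq_lintegral_abs_det_fderiv` and `Symp.abs_det`. -/
lemma measurePreserving_of_symp {g : E n ≃ₜ E n} (hg : Differentiable ℝ g)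
    (hs : ∀ x, Symp (fderiv ℝ g x)) : MeasurePreserving g volume volume := by
  have hs' := hs
  have hH : (volume : Measure (E n)).IsAddHaarMeasure := Measure.prod.instIsAddHaarMeasure _ _
  refine ⟨g.continuous.measurable, ?_⟩
  ext s hs
  rw [Measure.map_apply g.continuous.measurable hs]
  have hm : MeasurableSet (g ⁻¹' s) := g.continuous.measurable hs
  have h1 := lintegral_abs_det_fderiv_eq_addHaar_image (volume : Measure (E n)) hm
    (fun x _ => (hg x).hasFDerivAt.hasFDerivWithinAt) g.injective.injOn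
  have h2 : ∀ x : E n, ENNReal.ofReal |(fderiv ℝ g x).det| = 1 := fun x => by
    rw [(hs' x).abs_det, ENNReal.ofReal_one]
  simp only [h2, setLIntegral_one] at h1
  rw [h1, image_preimage_eq s g.surjective]

lemma HIso.measurePreserving (h : HIso n H ψ) (t : ℝ) : MeasurePreserving (ψ t) volume volume :=
  measurePreserving_of_symp (g := HIso.homeo h t)
    (((HIso.contDiff h).comp (contDiff_const.prodMk contDiff_id)).differentiable (by simp))
    (HIso.symp h t)

end Pool.Agent.W_68f289_h35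

end

section

/-!
Composition of Hamiltonian flows.
-/

open Set Metric Topology Pool.Agent.W_MP_68f289_gt MeasureTheory
open scoped NNReal ContDiff

namespace Pool.Agent.W_68f289_h35

variable {n : ℕ} {H H' : ℝ → E n → ℝ} {ψ ψ' : ℝ → E n → E n}

/-- chain rule for a jointly smooth map along a curve -/
theorem OpA_chain {F : ℝ → E n → E n}
    (hF : ContDiff ℝ ((⊤ : ℕ∞) : WithTop ℕ∞) (Function.uncurry F)) {t : ℝ} {c : ℝ → E n}
    {v a : E n} (hc : HasDerivAt c v t) (ha : HasDerivAt (fun s => F s (c t)) a t) :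
    HasDerivAt (fun s => F s (c s)) (a + fderiv ℝ (F t) (c t) v) t := by
  have hd : HasFDerivAt (Function.uncurry F) (fderiv ℝ (Function.uncurry F) (t, c t)) (t, c t) :=
    (hF.differentiable (by simp) (t, c t)).hasFDerivAt
  have h1 : HasDerivAt (fun s : ℝ => (s, c s)) ((1 : ℝ), v) t := (hasDerivAt_id t).prodMk hc
  have h2 : HasDerivAt (fun s => F s (c s))
      (fderiv ℝ (Function.uncurry F) (t, c t) ((1 : ℝ), v)) t :=
    HasFDerivAt.comp_hasDerivAt (f := fun s : ℝ => (s, c s)) t hd h1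
  have h3 : HasDerivAt (fun s : ℝ => (s, c t)) ((1 : ℝ), (0 : E n)) t :=
    (hasDerivAt_id t).prodMk (hasDerivAt_const t (c t))
  have h4 : HasDerivAt (fun s => F s (c t))
      (fderiv ℝ (Function.uncurry F) (t, c t) ((1 : ℝ), (0 : E n))) t :=
    HasFDerivAt.comp_hasDerivAt (f := fun s : ℝ => (s, c t)) t hd h3
  have h5 : HasFDerivAt (F t)
      ((fderiv ℝ (Function.uncurry F) (t, c t)).comp (ContinuousLinearMap.inr ℝ ℝ (E n))) (c t) := by
    have h6 : HasFDerivAt (fun y : E n => (t, y)) (ContinuousLinearMap.inr ℝ ℝ (E n)) (c t) :=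
      hasFDerivAt_prodMk_right t (c t)
    exact HasFDerivAt.comp (f := fun y : E n => (t, y)) (c t) hd h6
  have h7 : fderiv ℝ (Function.uncurry F) (t, c t) ((1 : ℝ), v) =
      a + fderiv ℝ (F t) (c t) v := by
    rw [h5.fderiv, ha.unique h4]
    have h8 : ((1 : ℝ), v) = ((1 : ℝ), (0 : E n)) + ((0 : ℝ), v) := by simp
    rw [h8, map_add]
    rfl
  rw [← h7]
  exact h2

theorem OpA_inv_off (h : HIso n H ψ) {K : Set (E n)} (hc : IsCompact K)
    (hK : ∀ t, ∀ x, x ∉ K → H t x = 0) (t : ℝ) {x : E n} (hx : x ∉ K) : HIso.inv h t x = x := by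
  conv_lhs => rw [← HIso.off h hc hK t hx]
  rw [HIso.inv_apply]

/-- composition of flows. Derivative of `s ↦ ψ s (ψ' s x)` by the chain rule for the jointly smooth
`ψ`: `XH (H t) (ψ t (ψ' t x)) + Dψ_t (XH (H' t) (ψ' t x))`, and the last term is
`XH (H' t ∘ (ψ t)⁻¹) (ψ t (ψ' t x))` by `XH_comp` applied to `g = ψ t`, `h = H' t ∘ (ψ t)⁻¹` at
`ψ' t x`; `XH_add`. Support in the union of the two supports by `HIso.mem_iff`. -/
theorem HIso.comp (h : HIso n H ψ) (h' : HIso n H' ψ') :
    HIso n (fun t x => H t x + H' t (HIso.inv h t x)) (fun t x => ψ t (ψ' t x)) := by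
  obtain ⟨K, hK, hKB, h0⟩ := h.supp
  obtain ⟨K', hK', hKB', h0'⟩ := h'.supp
  have hA : Adm n H K := ⟨h.smooth, hK, hKB, h0⟩
  have hA' : Adm n H' K' := ⟨h'.smooth, hK', hKB', h0'⟩
  refine ⟨?_, ⟨K ∪ K', hK.union hK', union_subset hKB hKB', ?_⟩, ?_, ?_⟩
  · exact h.smooth.add (h'.smooth.comp (contDiff_fst.prodMk (HIso.inv_contDiff h)))
  · intro t x hx
    rw [mem_union, not_or] at hx
    rw [OpA_inv_off h hK h0 t hx.1, h0 t x hx.1, h0' t x hx.2, add_zero]
  · intro x
    rw [h'.zero, h.zero]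
  · intro t x
    have h1 := OpA_chain (HIso.contDiff h) (h'.der t x) (h.der t (ψ' t x))
    have hinv : Differentiable ℝ (HIso.inv h t) :=
      ((HIso.inv_contDiff h).comp (contDiff_const.prodMk contDiff_id)).differentiable (by simp)
    have hψ : Differentiable ℝ (ψ t) :=
      ((HIso.contDiff h).comp (contDiff_const.prodMk contDiff_id)).differentiable (by simp)
    have hd : Differentiable ℝ (fun z => H' t (HIso.inv h t z)) := fun z =>
      (hA'.diff t (HIso.inv h t z)).comp z (hinv z)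
    have h2 := XH_comp (g := ψ t) (h := fun z => H' t (HIso.inv h t z)) (x := ψ' t x)
      (hψ _) (HIso.symp h t _) (hd _)
    have h3 : (fun y => (fun z => H' t (HIso.inv h t z)) (ψ t y)) = H' t := by
      funext y
      change H' t (HIso.inv h t (ψ t y)) = H' t y
      rw [HIso.inv_apply]
    rw [h3] at h2
    have h4 := XH_add (h := H t) (k := fun z => H' t (HIso.inv h t z)) (z := ψ t (ψ' t x))
      (hA.diff t _) (hd _)
    change HasDerivAt (fun s => ψ s (ψ' s x)) (XH (fun y => H t y + H' t (HIso.inv h t y))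
      (ψ t (ψ' t x))) t
    rw [h4, ← h2]
    exact h1

end Pool.Agent.W_68f289_h35

end

section

/-!
Inverse and difference of Hamiltonian flows.
-/

open Set Metric Topology Pool.Agent.W_MP_68f289_gt MeasureTheory
open scoped NNReal ContDiff

namespace Pool.Agent.W_68f289_h35

variable {n : ℕ} {H H' : ℝ → E n → ℝ} {ψ ψ' : ℝ → E n → E n}

lemma OpB_XH_neg (f : E n → ℝ) (z : E n) : XH (fun x => -f x) z = -XH f z := by
  unfold XH dd
  have h : fderiv ℝ (fun x => -f x) z = -fderiv ℝ f z := fderiv_fun_neg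
  rw [h]
  ext i <;> simp

/-- inverse flow: `ψ s (inv s x) = x`; differentiate in `s` and use `XH_comp` with `g = ψ t`,
`h = H t` at the point `inv t x` -/
theorem HIso.inverse (h : HIso n H ψ) :
    HIso n (fun t x => -H t (ψ t x)) (HIso.inv h) := by
  obtain ⟨K, hK, hKB, h0⟩ := h.supp
  have hA : Adm n H K := ⟨h.smooth, hK, hKB, h0⟩
  refine ⟨?_, ⟨K, hK, hKB, ?_⟩, ?_, ?_⟩
  · exact (h.smooth.comp (contDiff_fst.prodMk (HIso.contDiff h))).neg
  · intro t x hx
    change -H t (ψ t x) = 0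
    rw [HIso.off h hK h0 t hx, h0 t x hx, neg_zero]
  · intro x
    have h1 := HIso.inv_apply h 0 x
    rwa [h.zero] at h1
  · intro t x
    -- the derivative of the inverse flow
    have hinv : Differentiable ℝ (Function.uncurry (HIso.inv h)) :=
      (HIso.inv_contDiff h).differentiable (by simp)
    have hχ : Differentiable ℝ (fun s => HIso.inv h s x) :=
      hinv.comp (differentiable_id.prodMk (differentiable_const x))
    set w := deriv (fun s => HIso.inv h s x) t with hw
    have h1 : HasDerivAt (fun s => HIso.inv h s x) w t := (hχ t).hasDerivAt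
    set y := HIso.inv h t x with hy
    have hyx : ψ t y = x := HIso.apply_inv h t x
    have h2 := OpA_chain (HIso.contDiff h) h1 (h.der t y)
    have h3 : (fun s => ψ s (HIso.inv h s x)) = fun _ => x := by
      funext s
      exact HIso.apply_inv h s x
    rw [h3] at h2
    have h4 := h2.unique (hasDerivAt_const t x)
    have hψ : Differentiable ℝ (ψ t) :=
      ((HIso.contDiff h).comp (contDiff_const.prodMk contDiff_id)).differentiable (by simp)
    have h5 := XH_comp (g := ψ t) (h := H t) (x := y) (hψ _) (HIso.symp h t _) (hA.diff t _)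
    have h6 : w = -XH (fun z => H t (ψ t z)) y := by
      apply (Symp.bijective (HIso.symp h t y)).1
      rw [map_neg, h5]
      exact eq_neg_of_add_eq_zero_right h4
    have h7 := OpB_XH_neg (fun z => H t (ψ t z)) y
    change HasDerivAt (fun s => HIso.inv h s x) (XH (fun z => -H t (ψ t z)) y) t
    rw [h7, ← h6]
    exact h1

/-- the difference of two flows; from `HIso.inverse` and `HIso.comp` (the inverse of the inverse flow
is `ψ`) -/
theorem HIso.diff (h : HIso n H ψ) (h' : HIso n H' ψ') :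
    HIso n (fun t x => H' t (ψ t x) - H t (ψ t x)) (fun t x => HIso.inv h t (ψ' t x)) := by
  have hi := HIso.inverse h
  have h1 := HIso.comp hi h'
  have h2 : ∀ t x, HIso.inv hi t x = ψ t x := by
    intro t x
    have h3 := HIso.apply_inv hi t x
    have h4 := congrArg (ψ t) h3
    rwa [HIso.apply_inv h] at h4
  have h5 : (fun t x => -H t (ψ t x) + H' t (HIso.inv hi t x)) =
      fun t x => H' t (ψ t x) - H t (ψ t x) := by
    funext t x
    rw [h2]
    ring
  rw [h5] at h1
  exact h1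

end Pool.Agent.W_68f289_h35

end

section

/-!
Conjugation, change of time, homothety.
-/

open Set Metric Topology Pool.Agent.W_MP_68f289_gt MeasureTheory
open scoped NNReal ContDiff

namespace Pool.Agent.W_68f289_h35

variable {n : ℕ} {H H' : ℝ → E n → ℝ} {ψ ψ' : ℝ → E n → E n}

/-- conjugation by a smooth symplectic map with smooth inverse preserving the ball; `XH_comp` with
`gi` at `g y`, or with `g` -/
theorem HIso.conj (h : HIso n H ψ) {g : E n ≃ₜ E n}
    (hg : ContDiff ℝ ((⊤ : ℕ∞) : WithTop ℕ∞) g) (hgi : ContDiff ℝ ((⊤ : ℕ∞) : WithTop ℕ∞) g.symm)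
    (hs : ∀ x, Symp (fderiv ℝ g x)) (hB : ∀ x ∈ Bl n, g x ∈ Bl n) :
    HIso n (fun t x => H t (g.symm x)) (fun t x => g (ψ t (g.symm x))) := by
  obtain ⟨K, hK, hKB, h0⟩ := h.supp
  have hA : Adm n H K := ⟨h.smooth, hK, hKB, h0⟩
  refine ⟨?_, ⟨g '' K, hK.image g.continuous, ?_, ?_⟩, ?_, ?_⟩
  · exact h.smooth.comp (contDiff_fst.prodMk (hgi.comp contDiff_snd))
  · rintro _ ⟨x, hx, rfl⟩
    exact hB x (hKB hx)
  · intro t x hx
    refine h0 t _ fun hx' => hx ⟨g.symm x, hx', g.apply_symm_apply x⟩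
  · intro x
    rw [h.zero, g.apply_symm_apply]
  · intro t x
    have hgd : Differentiable ℝ g := hg.differentiable (by simp)
    have hgid : Differentiable ℝ g.symm := hgi.differentiable (by simp)
    have hd : Differentiable ℝ (fun z => H t (g.symm z)) := fun z =>
      (hA.diff t (g.symm z)).comp z (hgid z)
    have h1 : HasDerivAt (fun s => g (ψ s (g.symm x)))
        (fderiv ℝ g (ψ t (g.symm x)) (XH (H t) (ψ t (g.symm x)))) t :=
      HasFDerivAt.comp_hasDerivAt (f := fun s : ℝ => ψ s (g.symm x)) t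
        (hgd (ψ t (g.symm x))).hasFDerivAt (h.der t (g.symm x))
    have h2 := XH_comp (g := g) (h := fun z => H t (g.symm z)) (x := ψ t (g.symm x))
      (hgd _) (hs _) (hd _)
    have h3 : (fun y => (fun z => H t (g.symm z)) (g y)) = H t := by
      funext y
      change H t (g.symm (g y)) = H t y
      rw [g.symm_apply_apply]
    rw [h3] at h2
    change HasDerivAt (fun s => g (ψ s (g.symm x))) (XH (fun z => H t (g.symm z))
      (g (ψ t (g.symm x)))) t
    rw [← h2]
    exact h1

/-- change of time -/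
theorem HIso.reparam (h : HIso n H ψ) {s : ℝ → ℝ} (hs : ContDiff ℝ ((⊤ : ℕ∞) : WithTop ℕ∞) s) :
    HIso n (fun t x => deriv s t * H (s t) x) (fun t x => ψ (s t) (HIso.inv h (s 0) x)) := by
  obtain ⟨K, hK, hKB, h0⟩ := h.supp
  have hA : Adm n H K := ⟨h.smooth, hK, hKB, h0⟩
  refine ⟨?_, ⟨K, hK, hKB, ?_⟩, ?_, ?_⟩
  · exact ((contDiff_infty_iff_deriv.1 hs).2.comp contDiff_fst).mul
      (h.smooth.comp ((hs.comp contDiff_fst).prodMk contDiff_snd))
  · intro t x hx
    rw [h0 (s t) x hx, mul_zero]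
  · intro x
    exact HIso.apply_inv h (s 0) x
  · intro t x
    have hsd : HasDerivAt s (deriv s t) t := (hs.differentiable (by simp) t).hasDerivAt
    have h1 : HasDerivAt (fun r => ψ (s r) (HIso.inv h (s 0) x))
        (deriv s t • XH (H (s t)) (ψ (s t) (HIso.inv h (s 0) x))) t :=
      HasDerivAt.scomp t (h.der (s t) (HIso.inv h (s 0) x)) hsd
    change HasDerivAt (fun r => ψ (s r) (HIso.inv h (s 0) x))
      (XH (fun x => deriv s t * H (s t) x) (ψ (s t) (HIso.inv h (s 0) x))) t
    rw [XH_const_mul (hA.diff (s t) _)]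
    exact h1

/-- homothety by `r` in `(0, 1]` -/
theorem HIso.homoth (h : HIso n H ψ) {r : ℝ} (h0 : 0 < r) (h1 : r ≤ 1) :
    HIso n (fun t x => r ^ 2 * H t (r⁻¹ • x)) (fun t x => r • ψ t (r⁻¹ • x)) := by
  obtain ⟨K, hK, hKB, hz⟩ := h.supp
  have hA : Adm n H K := ⟨h.smooth, hK, hKB, hz⟩
  have hr : r ≠ 0 := h0.ne'
  refine ⟨?_, ⟨(fun x : E n => r • x) '' K, hK.image (continuous_const_smul r), ?_, ?_⟩, ?_, ?_⟩
  · exact contDiff_const.mul
      (h.smooth.comp (contDiff_fst.prodMk (contDiff_snd.const_smul r⁻¹)))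
  · rintro _ ⟨x, hx, rfl⟩
    have h2 : qf x < 1 := hKB hx
    have h3 : qf (r • x) = r ^ 2 * qf x := by
      unfold qf
      rw [Finset.mul_sum]
      refine Finset.sum_congr rfl fun i _ => ?_
      simp only [Prod.smul_fst, Prod.smul_snd, Pi.smul_apply, smul_eq_mul]
      ring
    have h4 : 0 ≤ qf x := Finset.sum_nonneg fun i _ => by positivity
    change qf (r • x) < 1
    rw [h3]
    have h5 : r ^ 2 ≤ 1 := by nlinarith
    calc r ^ 2 * qf x ≤ 1 * qf x := mul_le_mul_of_nonneg_right h5 h4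
      _ < 1 := by rw [one_mul]; exact h2
  · intro t x hx
    have h2 : r⁻¹ • x ∉ K := fun hx' => hx ⟨r⁻¹ • x, hx', smul_inv_smul₀ hr x⟩
    change r ^ 2 * H t (r⁻¹ • x) = 0
    rw [hz t _ h2, mul_zero]
  · intro x
    change r • ψ 0 (r⁻¹ • x) = x
    rw [h.zero, smul_inv_smul₀ hr]
  · intro t x
    have h2 : HasDerivAt (fun s => r • ψ s (r⁻¹ • x)) (r • XH (H t) (ψ t (r⁻¹ • x))) t :=
      (h.der t (r⁻¹ • x)).const_smul r
    have h3 := XH_aff (h := H t) (fun z => hA.diff t z) 0 r hr (r • ψ t (r⁻¹ • x))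
    simp only [sub_zero] at h3
    rw [inv_smul_smul₀ hr] at h3
    change HasDerivAt (fun s => r • ψ s (r⁻¹ • x))
      (XH (fun z => r ^ 2 * H t (r⁻¹ • z)) (r • ψ t (r⁻¹ • x))) t
    rw [h3]
    exact h2

end Pool.Agent.W_68f289_h35

end

section

/-!
Existence of flows for all times.
-/

open Set Metric Topology Pool.Agent.W_MP_68f289_gt MeasureTheory
open scoped NNReal ContDiff

namespace Pool.Agent.W_68f289_h35

variable {n : ℕ} {H H' : ℝ → E n → ℝ} {ψ ψ' : ℝ → E n → E n}

/-- solutions on `[-T, T]` -/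
lemma exists_flow_aux {H : ℝ → E n → ℝ}
    (hH : ContDiff ℝ ((⊤ : ℕ∞) : WithTop ℕ∞) (Function.uncurry H)) {K : Set (E n)}
    (hc : IsCompact K) (hKB : K ⊆ Bl n) (hK : ∀ t, ∀ x, x ∉ K → H t x = 0) {T : ℝ} (hT : 0 < T) :
    (∃ α : E n → ℝ → E n, (∀ x, α x 0 = x) ∧ ∀ x, ∀ t ∈ Ioo (-T) T,
      HasDerivAt (α x) (XH (H t) (α x t)) t) ∧
    ∃ C : ℝ≥0, ∀ t ∈ Icc (-T) T, LipschitzWith C (XH (H t)) := by
  have hA1 : Adm n (fun s x => H (-T + 2 * T * s) x) K :=
    ⟨hH.comp ((contDiff_const.add (contDiff_const.mul contDiff_fst)).prodMk contDiff_snd), hc, hKB,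
      fun t x hx => hK _ x hx⟩
  have hA : Adm n (fun s x => (2 * T) * H (-T + 2 * T * s) x) K :=
    ⟨contDiff_const.mul hA1.smooth, hc, hKB, fun t x hx => by rw [hK _ x hx, mul_zero]⟩
  have hT2 : (0 : ℝ) < 2 * T := by positivity
  have hf : ∀ t : ℝ, -T + 2 * T * ((t + T) / (2 * T)) = t := by
    intro t
    field_simp
    ring
  have h01 : ∀ t ∈ Icc (-T) T, (t + T) / (2 * T) ∈ Icc (0 : ℝ) 1 := by
    intro t ht
    constructor
    · exact div_nonneg (by linarith [ht.1]) hT2.le
    · rw [div_le_one hT2]; linarith [ht.2]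
  refine ⟨⟨fun x t => hA.good.sol ⟨1 / 2, by constructor <;> norm_num⟩ x ((t + T) / (2 * T)),
    fun x => ?_, fun x t ht => ?_⟩, ?_⟩
  · have e : ((0 : ℝ) + T) / (2 * T) = 1 / 2 := by field_simp; ring
    change hA.good.sol ⟨1 / 2, _⟩ x (((0 : ℝ) + T) / (2 * T)) = x
    rw [e]
    exact hA.good.sol_self ⟨1 / 2, by constructor <;> norm_num⟩ x
  · have htt : t ∈ Icc (-T) T := Ioo_subset_Icc_self ht
    have h1 := hA.good.sol_IC ⟨1 / 2, by constructor <;> norm_num⟩ x ((t + T) / (2 * T)) (h01 t htt)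
    have h2 : Icc (0 : ℝ) 1 ∈ 𝓝 ((t + T) / (2 * T)) := by
      apply Icc_mem_nhds
      · exact div_pos (by linarith [ht.1]) hT2
      · rw [div_lt_one hT2]; linarith [ht.2]
    have h3 := h1.hasDerivAt h2
    have h4 : HasDerivAt (fun t : ℝ => (t + T) / (2 * T)) (1 / (2 * T)) t := by
      simpa using ((hasDerivAt_id t).add_const T).div_const (2 * T)
    have h5 := h3.scomp t h4
    have h6 : XH (fun x => (2 * T) * H (-T + 2 * T * ((t + T) / (2 * T))) x)
        (hA.good.sol ⟨1 / 2, by constructor <;> norm_num⟩ x ((t + T) / (2 * T))) =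
        (2 * T) • XH (H t) (hA.good.sol ⟨1 / 2, by constructor <;> norm_num⟩ x
          ((t + T) / (2 * T))) := by
      rw [hf t]
      exact XH_const_mul (((hH.comp (contDiff_const.prodMk contDiff_id)).differentiable
        (by simp)) _) _
    have h7 : (1 / (2 * T)) • ((2 * T) • XH (H t) (hA.good.sol
        ⟨1 / 2, by constructor <;> norm_num⟩ x ((t + T) / (2 * T)))) =
        XH (H t) (hA.good.sol ⟨1 / 2, by constructor <;> norm_num⟩ x ((t + T) / (2 * T))) := by
      rw [smul_smul, one_div, inv_mul_cancel₀ hT2.ne', one_smul]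
    have h8 : HasDerivAt ((hA.good.sol ⟨1 / 2, by constructor <;> norm_num⟩ x) ∘
        fun t : ℝ => (t + T) / (2 * T)) ((1 / (2 * T)) • XH (fun x => (2 * T) *
          H (-T + 2 * T * ((t + T) / (2 * T))) x) (hA.good.sol
            ⟨1 / 2, by constructor <;> norm_num⟩ x ((t + T) / (2 * T)))) t := h5
    rw [h6, h7] at h8
    exact h8
  · refine ⟨hA1.C, fun t ht => ?_⟩
    have h1 := hA1.good.lip ((t + T) / (2 * T)) (h01 t ht)
    have h2 : XH (fun x => H (-T + 2 * T * ((t + T) / (2 * T))) x) = XH (H t) := by rw [hf t]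
    have h3 : LipschitzWith hA1.C (XH (fun x => H (-T + 2 * T * ((t + T) / (2 * T))) x)) := h1
    rw [h2] at h3
    exact h3

/-- every smooth Hamiltonian with compact support in the ball has a flow, defined for all times.
Proof: on `[0, 1]` this is in the library (`Adm.good`, `Good.sol`); for all times: for `T > 0` the
rescaled field `s x ↦ T • XH (H (T * s)) x` is good on `[0, 1]`, the solutions for different `T`
agree where both are defined; same for negative times. Alternatively: let `θ : ℝ → ℝ`, and use the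
field on the whole line by gluing `Good.sol` on `[k, k + 1]`. -/
theorem exists_flow {H : ℝ → E n → ℝ}
    (hH : ContDiff ℝ ((⊤ : ℕ∞) : WithTop ℕ∞) (Function.uncurry H)) {K : Set (E n)}
    (hc : IsCompact K) (hKB : K ⊆ Bl n) (hK : ∀ t, ∀ x, x ∉ K → H t x = 0) :
    ∃ ψ, HIso n H ψ := by
  have h1 := fun T : {T : ℝ // 0 < T} => (exists_flow_aux hH hc hKB hK T.2).1
  have h2 := fun T : {T : ℝ // 0 < T} => (exists_flow_aux hH hc hKB hK T.2).2
  choose α hα0 hα using h1
  choose C hC using h2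
  have hu : ∀ (S T : {T : ℝ // 0 < T}) (x : E n) (t : ℝ), |t| < S → |t| < T →
      α S x t = α T x t := by
    intro S T x t hS hT
    obtain ⟨R, hR1, hR2⟩ := exists_between (lt_min hS hT)
    have hR0 : 0 < R := (abs_nonneg t).trans_lt hR1
    have hRS : R < S := hR2.trans_le (min_le_left _ _)
    have hRT : R < T := hR2.trans_le (min_le_right _ _)
    have key : EqOn (α S x) (α T x) (Icc (-R) R) := by
      refine ODE_solution_unique_of_mem_Icc (v := fun t => XH (H t)) (s := fun _ => univ)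
        (K := C S) (t₀ := 0)
        (fun r hr => (hC S r ⟨by linarith [hr.1], by linarith [hr.2]⟩).lipschitzOnWith)
        ⟨by linarith, hR0⟩ ?_ ?_ (fun _ _ => trivial) ?_ ?_ (fun _ _ => trivial)
        ((hα0 S x).trans (hα0 T x).symm)
      · intro r hr
        exact (hα S x r ⟨by linarith [hr.1], by linarith [hr.2]⟩).continuousAt.continuousWithinAt
      · intro r hr
        exact hα S x r ⟨by linarith [hr.1], by linarith [hr.2]⟩
      · intro r hr
        exact (hα T x r ⟨by linarith [hr.1], by linarith [hr.2]⟩).continuousAt.continuousWithinAt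
      · intro r hr
        exact hα T x r ⟨by linarith [hr.1], by linarith [hr.2]⟩
    exact key ⟨by linarith [neg_abs_le t], by linarith [le_abs_self t]⟩
  refine ⟨fun t x => α ⟨|t| + 1, by positivity⟩ x t, hH, ⟨K, hc, hKB, hK⟩, fun x => hα0 _ x,
    fun t x => ?_⟩
  set T : {T : ℝ // 0 < T} := ⟨|t| + 1, by positivity⟩ with hT
  have hTv : (T : ℝ) = |t| + 1 := rfl
  have h3 := hα T x t ⟨by linarith [neg_abs_le t], by linarith [le_abs_self t]⟩
  refine h3.congr_of_eventuallyEq ?_
  have h4 : {s : ℝ | |s| < T} ∈ 𝓝 t :=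
    (isOpen_lt continuous_abs continuous_const).mem_nhds (by
      change |t| < T
      linarith)
  filter_upwards [h4] with s hs
  exact hu _ _ _ _ (by change |s| < |s| + 1; linarith) hs

end Pool.Agent.W_68f289_h35

end

section

/-!
Properties of Hamiltonian diffeomorphisms.
-/

open Set Metric Topology Pool.Agent.W_MP_68f289_gt MeasureTheory
open scoped NNReal ContDiff

namespace Pool.Agent.W_68f289_h35

variable {n : ℕ} {H H' : ℝ → E n → ℝ} {ψ ψ' : ℝ → E n → E n}

/-- A Hamiltonian diffeomorphism is a smooth symplectic map with smooth inverse, which preserves the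
ball and the volume. -/
theorem isHam_props {g : E n ≃ₜ E n} (hg : IsHam n g) :
    ContDiff ℝ ((⊤ : ℕ∞) : WithTop ℕ∞) g ∧ ContDiff ℝ ((⊤ : ℕ∞) : WithTop ℕ∞) g.symm ∧
      (∀ x, Symp (fderiv ℝ g x)) ∧ (∀ x ∈ Bl n, g x ∈ Bl n) ∧ MeasurePreserving g volume volume := by
  obtain ⟨H, ψ, h, hu⟩ := hg
  have hgψ : (g : E n → E n) = ψ 1 := funext hu
  have hsymm : (g.symm : E n → E n) = HIso.inv h 1 := by
    funext x
    rw [Homeomorph.symm_apply_eq, hu]
    exact (HIso.apply_inv h 1 x).symm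
  refine ⟨?_, ?_, ?_, ?_, ?_⟩
  · rw [hgψ]
    exact (HIso.contDiff h).comp (contDiff_const.prodMk contDiff_id)
  · rw [hsymm]
    exact (HIso.inv_contDiff h).comp (contDiff_const.prodMk contDiff_id)
  · intro x
    rw [hgψ]
    exact HIso.symp h 1 x
  · intro x hx
    obtain ⟨K, hc, hKB, hK⟩ := h.supp
    rw [hu]
    by_cases hxK : x ∈ K
    · exact hKB ((HIso.mem_iff h hc hK 1 x).mpr hxK)
    · rw [HIso.off h hc hK 1 hxK]
      exact hx
  · rw [hgψ]
    exact HIso.measurePreserving h 1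

end Pool.Agent.W_68f289_h35

end
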