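import Pool.Agent.W_68f289_h35m.Sf
import Pool.Agent.W_68f289_h35m.Os
import Pool.Agent.W_68f289_h35m.TCal
import Pool.Agent.W_MP_68f289_gt.Hameo
import Pool.Agent.W_MP_68f289_gt.Gn

section

/-!
Topological Hamiltonian paths: support and uniform continuity.
-/

open Set Metric Topology Pool.Agent.W_MP_68f289_gt MeasureTheory Filter
open scoped NNReal ContDiff

namespace Pool.Agent.W_68f289_h35

variable {n : ℕ} {K K' : Set (E n)} {H H' : ℕ → ℝ → E n → ℝ} {ψ ψ' : ℕ → ℝ → E n → E n}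
  {Φ Φ' : Icc (0 : ℝ) 1 → (E n ≃ₜ E n)}

/-- the flow maps converge pointwise to the path -/
lemma TqA_lim (h : TPath n K H ψ Φ) (t : Icc (0 : ℝ) 1) (x : E n) {a : E n}
    (ha : ∀ k, ψ k t x = a) : Φ t x = a := by
  apply eq_of_forall_dist_le
  intro ε hε
  obtain ⟨N, hN⟩ := h.conv ε hε
  have h1 := hN N le_rfl t x
  rw [ha, dist_comm] at h1
  exact h1.le

/-- the flow maps are the identity off `K`, and so are the maps of the path -/
lemma TPath.off (h : TPath n K H ψ Φ) (t : Icc (0 : ℝ) 1) {x : E n} (hx : x ∉ K) : Φ t x = x :=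
  TqA_lim h t x fun k => HIso.off (h.iso k) h.comp (h.supp k) t hx

lemma TPath.zero (h : TPath n K H ψ Φ) (x : E n) : Φ ⟨0, by simp⟩ x = x :=
  TqA_lim h _ x fun k => (h.iso k).zero x

/-- uniform continuity of a function which is the identity in the second variable off a compact
set -/
lemma TqA_unif {K : Set (E n)} (hK : IsCompact K) {f : ℝ → E n → E n}
    (hc : Continuous (Function.uncurry f)) (hoff : ∀ t x, x ∉ K → f t x = x) {ε : ℝ}
    (hε : 0 < ε) : ∃ δ > 0, ∀ s t : Icc (0 : ℝ) 1, |(s : ℝ) - t| < δ → ∀ x y : E n,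
      dist x y < δ → dist (f s x) (f t y) < ε := by
  have hcomp : IsCompact (Icc (0 : ℝ) 1 ×ˢ K) := isCompact_Icc.prod hK
  have h1 := hcomp.uniformContinuousAt_of_continuousAt (Function.uncurry f)
    (fun a _ => hc.continuousAt) (Metric.dist_mem_uniformity hε)
  obtain ⟨δ, hδ, h2⟩ := Metric.mem_uniformity_dist.1 h1
  have h3 : ∀ (s t : Icc (0 : ℝ) 1) (x y : E n), x ∈ K → |(s : ℝ) - t| < δ → dist x y < δ →
      dist (f s x) (f t y) < ε := by
    intro s t x y hx hst hxy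
    have h4 : dist ((s : ℝ), x) ((t : ℝ), y) < δ := by
      rw [Prod.dist_eq, max_lt_iff, Real.dist_eq]
      exact ⟨hst, hxy⟩
    have h5 : (((s : ℝ), x) : ℝ × E n) ∈ Icc (0 : ℝ) 1 ×ˢ K := ⟨s.2, hx⟩
    exact h2 h4 h5
  refine ⟨min δ ε, lt_min hδ hε, fun s t hst x y hxy => ?_⟩
  by_cases hxK : x ∈ K
  · exact h3 s t x y hxK (hst.trans_le (min_le_left _ _)) (hxy.trans_le (min_le_left _ _))
  · by_cases hyK : y ∈ K
    · rw [dist_comm]
      rw [dist_comm] at hxy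
      rw [abs_sub_comm] at hst
      exact h3 t s y x hyK (hst.trans_le (min_le_left _ _)) (hxy.trans_le (min_le_left _ _))
    · rw [hoff _ x hxK, hoff _ y hyK]
      exact hxy.trans_le (min_le_right _ _)

/-- `(t, x) ↦ Φ t x` is uniformly continuous: for every `ε > 0` there is `δ > 0` such that
`|s - t| < δ` and `dist x y < δ` imply `dist (Φ s x) (Φ t y) < ε`. Proof: uniform limit of the flows
`ψ k` restricted to `[0, 1]`; each of them is uniformly continuous on `[0,1] × E n`, being jointly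
continuous (`HIso.contDiff`) and the identity off the compact set `K` (`HIso.off`). -/
lemma TPath.unif (h : TPath n K H ψ Φ) {ε : ℝ} (hε : 0 < ε) :
    ∃ δ > 0, ∀ s t : Icc (0 : ℝ) 1, |(s : ℝ) - t| < δ → ∀ x y : E n, dist x y < δ →
      dist (Φ s x) (Φ t y) < ε := by
  obtain ⟨N, hN⟩ := h.conv (ε / 3) (by positivity)
  obtain ⟨δ, hδ, h1⟩ := TqA_unif h.comp (HIso.contDiff (h.iso N)).continuous
    (fun t x hx => HIso.off (h.iso N) h.comp (h.supp N) t hx) (show 0 < ε / 3 by positivity)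
  refine ⟨δ, hδ, fun s t hst x y hxy => ?_⟩
  have h2 := hN N le_rfl s x
  have h3 := hN N le_rfl t y
  have h4 := h1 s t hst x y hxy
  calc dist (Φ s x) (Φ t y) ≤ dist (Φ s x) (ψ N s x) + dist (ψ N s x) (ψ N t y) +
        dist (ψ N t y) (Φ t y) := dist_triangle4 _ _ _ _
    _ < ε / 3 + ε / 3 + ε / 3 := by
        rw [dist_comm (Φ s x)]
        linarith
    _ = ε := by ring

/-- uniform convergence of homeomorphisms, all equal to the identity off `K`, implies uniform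
convergence of the inverses: `dist (u⁻¹ x) (φ⁻¹ x) = dist (φ⁻¹ (φ y)) (φ⁻¹ (u y))` for `x = u y`, and
`φ⁻¹` is uniformly continuous (library: `unif` in `Gn.lean`, used in `GS_inv`). -/
lemma inv_conv {φ : E n ≃ₜ E n} {K : Set (E n)} (hK : IsCompact K) (hφ : ∀ x, x ∉ K → φ x = x)
    {ε : ℝ} (hε : 0 < ε) : ∃ δ > 0, ∀ u : E n ≃ₜ E n, (∀ x, dist (u x) (φ x) < δ) →
      ∀ x, dist (u.symm x) (φ.symm x) < ε := by
  have hφ' : ∀ x, x ∉ K → φ.symm x = x := fun x hx => by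
    rw [Homeomorph.symm_apply_eq, hφ x hx]
  obtain ⟨δ, hδ, h1⟩ := unif φ.symm.continuous hK hφ' hε
  refine ⟨δ, hδ, fun u hu x => ?_⟩
  have h2 := hu (u.symm x)
  rw [Homeomorph.apply_symm_apply] at h2
  rw [dist_comm] at h2
  have h3 := h1 _ _ h2
  rwa [Homeomorph.symm_apply_apply] at h3

end Pool.Agent.W_68f289_h35

end

section

/-!
Constant sequences and small isotopies.
-/

open Set Metric Topology Pool.Agent.W_MP_68f289_gt MeasureTheory Filter
open scoped NNReal ContDiff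

namespace Pool.Agent.W_68f289_h35

variable {n : ℕ} {K K' : Set (E n)} {H H' : ℕ → ℝ → E n → ℝ} {ψ ψ' : ℕ → ℝ → E n → E n}
  {Φ Φ' : Icc (0 : ℝ) 1 → (E n ≃ₜ E n)}

/-- constant sequences -/
lemma TPath.of_HIso {G : ℝ → E n → ℝ} {χ : ℝ → E n → E n} (h : HIso n G χ) (hc : IsCompact K)
    (hKB : K ⊆ Bl n) (hK : ∀ t, ∀ x, x ∉ K → G t x = 0) :
    TPath n K (fun _ => G) (fun _ => χ) (fun t => HIso.homeo h t) := by
  refine ⟨hc, hKB, fun _ => h, fun _ => hK, ?_, ?_⟩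
  · intro ε hε
    refine ⟨0, fun j k _ _ => ?_⟩
    unfold Pool.Agent.W_MP_68f289_gt.hofer
    simpa using hε
  · intro ε hε
    refine ⟨0, fun k _ t x => ?_⟩
    show dist (χ t x) (χ t x) < ε
    rw [dist_self]
    exact hε

/-- smaller and smaller isotopies -/
lemma TPath.of_small (hc : IsCompact K) (hKB : K ⊆ Bl n) (h : ∀ k, HIso n (H k) (ψ k))
    (hK : ∀ k, ∀ t, ∀ x, x ∉ K → H k t x = 0) {ε : ℕ → ℝ} (hε : Tendsto ε atTop (𝓝 0))
    (h1 : ∀ k, hofer (H k) ≤ ε k) (h2 : ∀ k, ∀ t ∈ Icc (0 : ℝ) 1, ∀ x, dist (ψ k t x) x ≤ ε k) :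
    TPath n K H ψ (fun _ => 1) := by
  refine ⟨hc, hKB, h, hK, ?_, ?_⟩
  · intro δ hδ
    obtain ⟨N, hN⟩ := (hε.eventually (gt_mem_nhds (half_pos hδ))).exists_forall_of_atTop
    refine ⟨N, fun j k hj hk => ?_⟩
    have h3 := hofer_sub_le (h j).smooth.continuous (h k).smooth.continuous hc (hK j) (hK k)
    have h4 := h1 j
    have h5 := h1 k
    have h6 := hN j hj
    have h7 := hN k hk
    linarith
  · intro δ hδ
    obtain ⟨N, hN⟩ := (hε.eventually (gt_mem_nhds hδ)).exists_forall_of_atTop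
    refine ⟨N, fun k hk t x => ?_⟩
    exact (h2 k t t.2 x).trans_lt (hN k hk)

end Pool.Agent.W_68f289_h35

end

section

/-!
Concatenation of topological Hamiltonian paths.
-/

open Set Metric Topology Pool.Agent.W_MP_68f289_gt MeasureTheory Filter
open scoped NNReal ContDiff

namespace Pool.Agent.W_68f289_h35

open Pool.Agent.W_68f289_t6 (r1 r2 r1_one r2_one r1_zero r2_zero r1_smooth r2_smooth conc concf
  conc_iso concf_one cal_conc)

variable {n : ℕ} {K K' : Set (E n)} {H H' : ℕ → ℝ → E n → ℝ} {ψ ψ' : ℕ → ℝ → E n → E n}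
  {Φ Φ' : Icc (0 : ℝ) 1 → (E n ≃ₜ E n)}

lemma r1_mem (t : ℝ) : r1 t ∈ Icc (0 : ℝ) 1 :=
  ⟨Real.smoothTransition.nonneg _, Real.smoothTransition.le_one _⟩

lemma r2_mem (t : ℝ) : r2 t ∈ Icc (0 : ℝ) 1 :=
  ⟨Real.smoothTransition.nonneg _, Real.smoothTransition.le_one _⟩

lemma th_monotone : Monotone th := by
  intro x y hxy
  change Real.smoothTransition x ≤ Real.smoothTransition y
  unfold Real.smoothTransition
  have hx := Real.smoothTransition.pos_denom x
  have hy := Real.smoothTransition.pos_denom y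
  have h1 : expNegInvGlue x ≤ expNegInvGlue y := expNegInvGlue.monotone hxy
  have h2 : expNegInvGlue (1 - y) ≤ expNegInvGlue (1 - x) := expNegInvGlue.monotone (by linarith)
  have h3 := expNegInvGlue.nonneg x
  have h4 := expNegInvGlue.nonneg (1 - y)
  have h5 := expNegInvGlue.nonneg y
  rw [div_le_div_iff₀ hx hy]
  nlinarith [mul_le_mul h1 h2 h4 h5]

lemma r1_deriv_nonneg (t : ℝ) : 0 ≤ deriv r1 t := by
  apply Monotone.deriv_nonneg
  intro x y hxy
  exact th_monotone (by linarith)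

lemma r2_deriv_nonneg (t : ℝ) : 0 ≤ deriv r2 t := by
  apply Monotone.deriv_nonneg
  intro x y hxy
  exact th_monotone (by linarith)

lemma hofer_conc_le {H H' : ℝ → E n → ℝ} (hH : Continuous (Function.uncurry H))
    (hH' : Continuous (Function.uncurry H')) {K : Set (E n)} (hc : IsCompact K)
    (hK : ∀ t, ∀ x, x ∉ K → H t x = 0) (hK' : ∀ t, ∀ x, x ∉ K → H' t x = 0) :
    hofer (conc H H') ≤ hofer H + hofer H' := by
  have hr1 : Continuous (deriv r1) := (contDiff_infty_iff_deriv.1 r1_smooth).2.continuous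
  have hr2 : Continuous (deriv r2) := (contDiff_infty_iff_deriv.1 r2_smooth).2.continuous
  have h1 : Continuous (Function.uncurry fun (t : ℝ) (x : E n) => deriv r1 t * H (r1 t) x) :=
    (hr1.comp continuous_fst).mul
      (hH.comp ((r1_smooth.continuous.comp continuous_fst).prodMk continuous_snd))
  have h2 : Continuous (Function.uncurry fun (t : ℝ) (x : E n) => deriv r2 t * H' (r2 t) x) :=
    (hr2.comp continuous_fst).mul
      (hH'.comp ((r2_smooth.continuous.comp continuous_fst).prodMk continuous_snd))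
  refine (hofer_add_le h1 h2 hc (fun t x hx => by rw [hK _ x hx, mul_zero])
    (fun t x hx => by rw [hK' _ x hx, mul_zero])).trans (add_le_add ?_ ?_)
  · exact hofer_reparam_le hH hc hK r1_smooth r1_deriv_nonneg (r1_mem 0).1 (r1_mem 1).2
  · exact hofer_reparam_le hH' hc hK' r2_smooth r2_deriv_nonneg (r2_mem 0).1 (r2_mem 1).2

/-- concatenation. Take `r1 t = th (3 t)`, `r2 t = th (3 t - 2)` as in `isHam_mul` (first the path
`'`, then the other one), Hamiltonian `r1' H'(r1) + r2' H(r2)`, flow `ψ (r2 t) (ψ' (r1 t) x)`, path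
`Φ (r2 t) * Φ' (r1 t)`. Cauchy: `hofer_add_le` and `hofer_reparam_le` applied to the differences
`H i - H j`, `H' i - H' j`. Convergence: `TPath.unif`. Calabi: `cal_add`, `cal_reparam`. -/
theorem TPath.mul (h : TPath n K H ψ Φ) (h' : TPath n K' H' ψ' Φ') :
    ∃ (K'' : Set (E n)) (H'' : ℕ → ℝ → E n → ℝ) (ψ'' : ℕ → ℝ → E n → E n)
      (Φ'' : Icc (0 : ℝ) 1 → (E n ≃ₜ E n)), TPath n K'' H'' ψ'' Φ'' ∧
      endp Φ'' = endp Φ * endp Φ' ∧ (∀ k x, ψ'' k 1 x = ψ k 1 (ψ' k 1 x)) ∧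
      ∀ k, cal (H'' k) = cal (H k) + cal (H' k) := by
  refine ⟨K ∪ K', fun k => conc (H' k) (H k), fun k => concf (ψ' k) (ψ k),
    fun t => Φ ⟨r2 t, r2_mem t⟩ * Φ' ⟨r1 t, r1_mem t⟩,
    ⟨h.comp.union h'.comp, union_subset h.sub h'.sub, fun k => conc_iso (h'.iso k) (h.iso k),
      fun k t x hx => ?_, ?_, ?_⟩, ?_, fun k x => concf_one x, fun k => ?_⟩
  · rw [mem_union, not_or] at hx
    unfold conc
    rw [h.supp _ _ _ hx.1, h'.supp _ _ _ hx.2]; ring
  · intro ε hε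
    obtain ⟨N, hN⟩ := h.cauchy (ε / 2) (half_pos hε)
    obtain ⟨N', hN'⟩ := h'.cauchy (ε / 2) (half_pos hε)
    refine ⟨max N N', fun j k hj hk => ?_⟩
    have e : (fun (t : ℝ) (x : E n) => conc (H' j) (H j) t x - conc (H' k) (H k) t x) =
        conc (fun t x => H' j t x - H' k t x) (fun t x => H j t x - H k t x) := by
      funext t x
      unfold conc
      ring
    rw [e]
    have hc : ∀ k, Continuous (Function.uncurry (H k)) := fun k => (h.iso k).smooth.continuous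
    have hc' : ∀ k, Continuous (Function.uncurry (H' k)) := fun k => (h'.iso k).smooth.continuous
    have h1 := hofer_conc_le (H := fun t x => H' j t x - H' k t x)
      (H' := fun t x => H j t x - H k t x) (K := K ∪ K') ((hc' j).sub (hc' k))
      ((hc j).sub (hc k)) (h.comp.union h'.comp)
      (fun t x hx => by
        rw [mem_union, not_or] at hx
        rw [h'.supp _ _ _ hx.2, h'.supp _ _ _ hx.2, sub_self])
      (fun t x hx => by
        rw [mem_union, not_or] at hx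
        rw [h.supp _ _ _ hx.1, h.supp _ _ _ hx.1, sub_self])
    have h2 := hN j k ((le_max_left _ _).trans hj) ((le_max_left _ _).trans hk)
    have h3 := hN' j k ((le_max_right _ _).trans hj) ((le_max_right _ _).trans hk)
    linarith
  · intro ε hε
    obtain ⟨δ, hδ, hu⟩ := h.unif (half_pos hε)
    obtain ⟨N, hN⟩ := h.conv (ε / 2) (half_pos hε)
    obtain ⟨N', hN'⟩ := h'.conv δ hδ
    refine ⟨max N N', fun k hk t x => ?_⟩
    have h1 := hN k ((le_max_left _ _).trans hk) ⟨r2 t, r2_mem t⟩ (ψ' k (r1 t) x)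
    have h2 := hN' k ((le_max_right _ _).trans hk) ⟨r1 t, r1_mem t⟩ x
    have h3 := hu ⟨r2 t, r2_mem t⟩ ⟨r2 t, r2_mem t⟩ (by simpa using hδ) _ _ h2
    calc dist (ψ k (r2 t) (ψ' k (r1 t) x)) (Φ ⟨r2 t, r2_mem t⟩ (Φ' ⟨r1 t, r1_mem t⟩ x)) ≤ _ :=
          dist_triangle _ _ _
      _ < ε / 2 + ε / 2 := add_lt_add h1 h3
      _ = ε := add_halves ε
  · change Φ ⟨r2 1, r2_mem 1⟩ * Φ' ⟨r1 1, r1_mem 1⟩ = Φ ⟨1, _⟩ * Φ' ⟨1, _⟩
    have e1 : (⟨r2 1, r2_mem 1⟩ : Icc (0 : ℝ) 1) = ⟨1, by simp⟩ := Subtype.ext r2_one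
    have e2 : (⟨r1 1, r1_mem 1⟩ : Icc (0 : ℝ) 1) = ⟨1, by simp⟩ := Subtype.ext r1_one
    rw [e1, e2]
  · have := cal_conc (h'.iso k) (h.iso k)
    rw [add_comm]
    exact this

end Pool.Agent.W_68f289_h35

end

section

/-!
Reversal of topological Hamiltonian paths.
-/

open Set Metric Topology Pool.Agent.W_MP_68f289_gt MeasureTheory Filter
open scoped NNReal ContDiff

namespace Pool.Agent.W_68f289_h35

open Pool.Agent.W_68f289_t6 (rev revf rev_iso revf_one cal_rev exists_homeo)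

variable {n : ℕ} {K K' : Set (E n)} {H H' : ℕ → ℝ → E n → ℝ} {ψ ψ' : ℕ → ℝ → E n → E n}
  {Φ Φ' : Icc (0 : ℝ) 1 → (E n ≃ₜ E n)}

/-- reversal: Hamiltonian `-H (1 - t)`, flow `ψ (1 - t) ((ψ 1)⁻¹ x)` (`HIso.reparam` with
`s t = 1 - t`), path `Φ (1 - t) * (Φ 1)⁻¹`; convergence from `TPath.unif` and `inv_conv`. -/
theorem TPath.inv (h : TPath n K H ψ Φ) :
    ∃ (H'' : ℕ → ℝ → E n → ℝ) (ψ'' : ℕ → ℝ → E n → E n)
      (Φ'' : Icc (0 : ℝ) 1 → (E n ≃ₜ E n)), TPath n K H'' ψ'' Φ'' ∧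
      endp Φ'' = (endp Φ)⁻¹ ∧ (∀ k x, ψ'' k 1 (ψ k 1 x) = x) ∧
      ∀ k, cal (H'' k) = -cal (H k) := by
  choose u hu hu1 using fun k => exists_homeo (h.iso k)
  have hm : ∀ t : Icc (0 : ℝ) 1, 1 - (t : ℝ) ∈ Icc (0 : ℝ) 1 := fun t =>
    ⟨by linarith [t.2.2], by linarith [t.2.1]⟩
  have hoff : ∀ x, x ∉ K → endp Φ x = x := fun x hx => h.off _ hx
  refine ⟨fun k => rev (H k), fun k => revf (u k) (ψ k),
    fun t => Φ ⟨1 - t, hm t⟩ * (endp Φ)⁻¹,
    ⟨h.comp, h.sub, fun k => rev_iso (h.iso k) (hu1 k), fun k t x hx => ?_, ?_, ?_⟩, ?_,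
      fun k x => ?_, fun k => cal_rev _⟩
  · unfold rev
    rw [h.supp _ _ _ hx, mul_zero]
  · intro ε hε
    obtain ⟨N, hN⟩ := h.cauchy ε hε
    refine ⟨N, fun j k hj hk => ?_⟩
    have e : (fun (t : ℝ) (x : E n) => rev (H j) t x - rev (H k) t x) =
        fun t x => (fun (t : ℝ) (x : E n) => H k t x - H j t x) (1 - t) x := by
      funext t x
      unfold rev
      ring
    rw [e, hofer_reverse (fun (t : ℝ) (x : E n) => H k t x - H j t x)]
    exact hN k j hk hj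
  · intro ε hε
    obtain ⟨δ, hδ, hun⟩ := h.unif (half_pos hε)
    obtain ⟨N, hN⟩ := h.conv (ε / 2) (half_pos hε)
    obtain ⟨η, hη, hinv⟩ := inv_conv h.comp hoff hδ
    obtain ⟨N', hN'⟩ := h.conv η hη
    refine ⟨max N N', fun k hk t x => ?_⟩
    have h1 := hN k ((le_max_left _ _).trans hk) ⟨1 - t, hm t⟩ ((u k).symm x)
    have h2 := hinv (u k) (fun y => by
      rw [hu1]
      exact hN' k ((le_max_right _ _).trans hk) ⟨1, by simp⟩ y) x
    have h3 := hun ⟨1 - t, hm t⟩ ⟨1 - t, hm t⟩ (by simpa using hδ) _ _ h2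
    calc dist (ψ k (1 - t) ((u k).symm x)) (Φ ⟨1 - t, hm t⟩ ((endp Φ).symm x)) ≤ _ :=
          dist_triangle _ _ _
      _ < ε / 2 + ε / 2 := add_lt_add h1 h3
      _ = ε := add_halves ε
  · change Φ ⟨1 - 1, _⟩ * (endp Φ)⁻¹ = _
    have e1 : (⟨1 - (1 : ℝ), hm ⟨1, by simp⟩⟩ : Icc (0 : ℝ) 1) = ⟨0, by simp⟩ :=
      Subtype.ext (sub_self _)
    have e2 : Φ ⟨0, by simp⟩ = 1 := by
      ext x
      · rw [h.zero x]; rfl
      · rw [h.zero x]; rfl
    rw [e1, e2, one_mul]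
  · change revf (u k) (ψ k) 1 (ψ k 1 x) = x
    rw [revf_one (h.iso k), ← hu1 k]
    exact (u k).symm_apply_apply x

end Pool.Agent.W_68f289_h35

end

section

/-!
Conjugation of topological Hamiltonian paths by Hamiltonian homeomorphisms.
-/

open Set Metric Topology Pool.Agent.W_MP_68f289_gt MeasureTheory Filter
open scoped NNReal ContDiff

namespace Pool.Agent.W_68f289_h35

variable {n : ℕ} {K K' : Set (E n)} {H H' : ℕ → ℝ → E n → ℝ} {ψ ψ' : ℕ → ℝ → E n → E n}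
  {Φ Φ' : Icc (0 : ℝ) 1 → (E n ≃ₜ E n)}

/-- uniform continuity of a Hamiltonian in the space variable -/
lemma TqE_unif {G : ℝ → E n → ℝ} (hG : Continuous (Function.uncurry G)) (hK : IsCompact K)
    (hoff : ∀ t, ∀ x, x ∉ K → G t x = 0) {ε : ℝ} (hε : 0 < ε) :
    ∃ δ > 0, ∀ t ∈ Icc (0 : ℝ) 1, ∀ x y : E n, dist x y < δ → |G t x - G t y| < ε := by
  have hKK : IsCompact (Icc (0 : ℝ) 1 ×ˢ K) := isCompact_Icc.prod hK
  have h1 := hKK.uniformContinuousAt_of_continuousAt (Function.uncurry G)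
    (fun a _ => hG.continuousAt) (Metric.dist_mem_uniformity hε)
  obtain ⟨δ, hδ, h2⟩ := Metric.mem_uniformity_dist.1 h1
  have key : ∀ t ∈ Icc (0 : ℝ) 1, ∀ x y : E n, dist x y < δ → x ∈ K → |G t x - G t y| < ε := by
    intro t ht x y hxy hx
    have h3 : dist ((t, x) : ℝ × E n) (t, y) < δ := by
      rw [Prod.dist_eq, dist_self]
      exact max_lt hδ hxy
    have h4 := h2 h3 ⟨ht, hx⟩
    rw [← Real.dist_eq]
    exact h4
  refine ⟨δ, hδ, fun t ht x y hxy => ?_⟩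
  by_cases hx : x ∈ K
  · exact key t ht x y hxy hx
  · by_cases hy : y ∈ K
    · rw [abs_sub_comm]
      exact key t ht y x (by rwa [dist_comm]) hy
    · rw [hoff t x hx, hoff t y hy, sub_zero, abs_zero]
      exact hε

/-- Hamiltonian diffeomorphisms which converge to a Hamiltonian homeomorphism, with their inverses -/
lemma TqE_seq {g : E n ≃ₜ E n} (hg : g ∈ HamBar n) : ∃ K₀ : Set (E n), IsCompact K₀ ∧ K₀ ⊆ Bl n ∧
    (∀ x, x ∉ K₀ → g x = x) ∧ ∃ u : ℕ → (E n ≃ₜ E n), (∀ k, IsHam n (u k)) ∧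
      (∀ k, ∀ x, x ∉ K₀ → u k x = x) ∧ (∀ k : ℕ, ∀ x, dist (u k x) (g x) < 1 / ((k : ℝ) + 1)) ∧
      ∀ k : ℕ, ∀ x, dist ((u k).symm x) (g.symm x) < 1 / ((k : ℝ) + 1) := by
  obtain ⟨K₀, hK₀, hK₀B, hgK⟩ := exists_GS hg
  refine ⟨K₀, hK₀, hK₀B, hgK.1, ?_⟩
  have hex : ∀ k : ℕ, ∃ u : E n ≃ₜ E n, IsHam n u ∧ (∀ x, x ∉ K₀ → u x = x) ∧
      (∀ x, dist (u x) (g x) < 1 / ((k : ℝ) + 1)) ∧
      ∀ x, dist (u.symm x) (g.symm x) < 1 / ((k : ℝ) + 1) := by
    intro k
    have hk : (0 : ℝ) < 1 / ((k : ℝ) + 1) := by positivity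
    obtain ⟨δ, hδ, h1⟩ := inv_conv hK₀ hgK.1 hk
    obtain ⟨u, hu, huK, hud⟩ := hgK.2 (min δ (1 / ((k : ℝ) + 1))) (lt_min hδ hk)
    exact ⟨u, hu, huK, fun x => (hud x).trans_le (min_le_right _ _),
      h1 u fun x => (hud x).trans_le (min_le_left _ _)⟩
  choose u h1 h2 h3 h4 using hex
  exact ⟨u, h1, h2, h3, h4⟩

/-- conjugation by a Hamiltonian homeomorphism `g`, with the approximating Hamiltonian
diffeomorphisms `g' k` -/
theorem TPath.conj_strong (h : TPath n K H ψ Φ) {g : E n ≃ₜ E n} (hg : g ∈ HamBar n) :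
    ∃ (g' : ℕ → (E n ≃ₜ E n)) (K'' : Set (E n)) (H'' : ℕ → ℝ → E n → ℝ)
      (ψ'' : ℕ → ℝ → E n → E n) (Φ'' : Icc (0 : ℝ) 1 → (E n ≃ₜ E n)), (∀ k, IsHam n (g' k)) ∧
      TPath n K'' H'' ψ'' Φ'' ∧ endp Φ'' = g * endp Φ * g⁻¹ ∧
      (∀ k x, ψ'' k 1 x = g' k (ψ k 1 ((g' k).symm x))) ∧ ∀ k, cal (H'' k) = cal (H k) := by
  obtain ⟨K₀, hK₀, hK₀B, hgoff, u, hu, huK, hud, hui⟩ := TqE_seq hg
  have hsymm : ∀ k, ∀ x, x ∉ K₀ → (u k).symm x = x := by
    intro k x hx
    rw [Homeomorph.symm_apply_eq, huK k x hx]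
  have hKc : IsCompact (K ∪ K₀) := h.comp.union hK₀
  have hHc : ∀ k, Continuous (Function.uncurry (H k)) := fun k => (h.iso k).smooth.continuous
  have hHc' : ∀ j k, Continuous (Function.uncurry fun t x => H j t ((u k).symm x)) := by
    intro j k
    exact (hHc j).comp (continuous_fst.prodMk ((u k).symm.continuous.comp continuous_snd))
  have hHoff : ∀ j k, ∀ t, ∀ x, x ∉ K ∪ K₀ → H j t ((u k).symm x) = 0 := by
    intro j k t x hx
    rw [mem_union, not_or] at hx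
    rw [hsymm k x hx.2, h.supp j t x hx.1]
  refine ⟨u, K ∪ K₀, fun k t x => H k t ((u k).symm x), fun k t x => u k (ψ k t ((u k).symm x)),
    fun t => g * Φ t * g⁻¹, hu, ⟨hKc, union_subset h.sub hK₀B, ?_, ?_, ?_, ?_⟩, rfl,
    fun _ _ => rfl, ?_⟩
  · intro k
    obtain ⟨h1, h2, h3, h4, -⟩ := isHam_props (hu k)
    exact HIso.conj (h.iso k) h1 h2 h3 h4
  · intro k t x hx
    exact hHoff k k t x hx
  · intro ε hε
    obtain ⟨N₁, hN₁⟩ := h.cauchy (ε / 4) (by positivity)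
    obtain ⟨δ, hδ, hunif⟩ := TqE_unif (hHc N₁) h.comp (h.supp N₁) (ε := ε / 16) (by positivity)
    obtain ⟨N₂, hN₂⟩ := exists_nat_gt (2 / δ)
    refine ⟨max N₁ N₂, fun k l hk hl => ?_⟩
    have hk1 : N₁ ≤ k := (le_max_left _ _).trans hk
    have hl1 : N₁ ≤ l := (le_max_left _ _).trans hl
    have hsmall : ∀ m : ℕ, max N₁ N₂ ≤ m → 1 / ((m : ℝ) + 1) < δ / 2 := by
      intro m hm
      have hm2 : (N₂ : ℝ) ≤ m := by exact_mod_cast (le_max_right _ _).trans hm
      have h1 : 2 / δ < (m : ℝ) + 1 := by linarith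
      rw [div_lt_iff₀ hδ] at h1
      rw [div_lt_iff₀ (by positivity)]
      linarith
    have hcl : ∀ x, dist ((u k).symm x) ((u l).symm x) < δ := by
      intro x
      have h1 := (hui k x).trans (hsmall k hk)
      have h2 := (hui l x).trans (hsmall l hl)
      have h3 := dist_triangle_right ((u k).symm x) ((u l).symm x) (g.symm x)
      linarith
    -- the three parts
    set A : ℝ → E n → ℝ := fun t x => H k t ((u k).symm x) - H N₁ t ((u k).symm x) with hA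
    set B : ℝ → E n → ℝ := fun t x => H N₁ t ((u k).symm x) - H N₁ t ((u l).symm x) with hB
    set D : ℝ → E n → ℝ := fun t x => H l t ((u l).symm x) - H N₁ t ((u l).symm x) with hD
    have hAc : Continuous (Function.uncurry A) := (hHc' k k).sub (hHc' N₁ k)
    have hBc : Continuous (Function.uncurry B) := (hHc' N₁ k).sub (hHc' N₁ l)
    have hDc : Continuous (Function.uncurry D) := (hHc' l l).sub (hHc' N₁ l)
    have hAo : ∀ t, ∀ x, x ∉ K ∪ K₀ → A t x = 0 := by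
      intro t x hx
      change H k t ((u k).symm x) - H N₁ t ((u k).symm x) = 0
      rw [hHoff k k t x hx, hHoff N₁ k t x hx, sub_zero]
    have hBo : ∀ t, ∀ x, x ∉ K ∪ K₀ → B t x = 0 := by
      intro t x hx
      change H N₁ t ((u k).symm x) - H N₁ t ((u l).symm x) = 0
      rw [hHoff N₁ k t x hx, hHoff N₁ l t x hx, sub_zero]
    have hDo : ∀ t, ∀ x, x ∉ K ∪ K₀ → D t x = 0 := by
      intro t x hx
      change H l t ((u l).symm x) - H N₁ t ((u l).symm x) = 0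
      rw [hHoff l l t x hx, hHoff N₁ l t x hx, sub_zero]
    have hABc : Continuous (Function.uncurry fun t x => A t x + B t x) := hAc.add hBc
    have hABo : ∀ t, ∀ x, x ∉ K ∪ K₀ → A t x + B t x = 0 := by
      intro t x hx
      rw [hAo t x hx, hBo t x hx, add_zero]
    have hAle : W_MP_68f289_gt.hofer A < ε / 4 := by
      have h1 := hofer_comp (fun t x => H k t x - H N₁ t x) (g := fun _ => (u k).symm)
        (fun _ => (u k).symm.surjective)
      have h2 := hN₁ k N₁ hk1 le_rfl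
      rw [← h1] at h2
      exact h2
    have hDle : W_MP_68f289_gt.hofer D < ε / 4 := by
      have h1 := hofer_comp (fun t x => H l t x - H N₁ t x) (g := fun _ => (u l).symm)
        (fun _ => (u l).symm.surjective)
      have h2 := hN₁ l N₁ hl1 le_rfl
      rw [← h1] at h2
      exact h2
    have hBle : W_MP_68f289_gt.hofer B ≤ 2 * (ε / 16) :=
      hofer_le_of_abs_le hBc hKc hBo fun t ht x => (hunif t ht _ _ (hcl x)).le
    have hsum : (fun t x => H k t ((u k).symm x) - H l t ((u l).symm x)) =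
        fun t x => (A t x + B t x) - D t x := by
      funext t x
      simp only [hA, hB, hD]
      ring
    have h5 := hofer_sub_le hABc hDc hKc hABo hDo
    have h6 := hofer_add_le hAc hBc hKc hAo hBo
    change W_MP_68f289_gt.hofer (fun t x => H k t ((u k).symm x) - H l t ((u l).symm x)) < ε
    rw [hsum]
    linarith
  · intro ε hε
    obtain ⟨δ₁, hδ₁, hgu⟩ := W_MP_68f289_gt.unif g.continuous hK₀ hgoff (half_pos hε)
    obtain ⟨δ₂, hδ₂, hΦu⟩ := h.unif (half_pos hδ₁)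
    obtain ⟨N₁, hN₁⟩ := h.conv (δ₁ / 2) (half_pos hδ₁)
    obtain ⟨N₂, hN₂⟩ := exists_nat_gt (2 / ε)
    obtain ⟨N₃, hN₃⟩ := exists_nat_gt (1 / δ₂)
    refine ⟨max N₁ (max N₂ N₃), fun k hk t x => ?_⟩
    have hk1 : N₁ ≤ k := (le_max_left _ _).trans hk
    have hk2 : (N₂ : ℝ) ≤ k := by
      exact_mod_cast (le_max_left _ _).trans ((le_max_right _ _).trans hk)
    have hk3 : (N₃ : ℝ) ≤ k := by
      exact_mod_cast (le_max_right _ _).trans ((le_max_right _ _).trans hk)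
    have hs1 : 1 / ((k : ℝ) + 1) < ε / 2 := by
      have h1 : 2 / ε < (k : ℝ) + 1 := by linarith
      rw [div_lt_iff₀ hε] at h1
      rw [div_lt_iff₀ (by positivity)]
      linarith
    have hs2 : 1 / ((k : ℝ) + 1) < δ₂ := by
      have h1 : 1 / δ₂ < (k : ℝ) + 1 := by linarith
      rw [div_lt_iff₀ hδ₂] at h1
      rw [div_lt_iff₀ (by positivity)]
      linarith
    have hab : dist (ψ k t ((u k).symm x)) (Φ t (g.symm x)) < δ₁ := by
      have h1 := hN₁ k hk1 t ((u k).symm x)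
      have h2 := hΦu t t (by rw [sub_self, abs_zero]; exact hδ₂) ((u k).symm x) (g.symm x)
        ((hui k x).trans hs2)
      have h3 := dist_triangle (ψ k t ((u k).symm x)) (Φ t ((u k).symm x)) (Φ t (g.symm x))
      linarith
    have h1 := hgu _ _ hab
    have h2 := (hud k (ψ k t ((u k).symm x))).trans hs1
    have h3 := dist_triangle (u k (ψ k t ((u k).symm x))) (g (ψ k t ((u k).symm x)))
      (g (Φ t (g.symm x)))
    change dist (u k (ψ k t ((u k).symm x))) (g (Φ t (g.symm x))) < ε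
    linarith
  · intro k
    have h1 : MeasurePreserving ((u k)⁻¹ : E n ≃ₜ E n) volume volume :=
      (isHam_props (isHam_inv (hu k))).2.2.2.2
    exact cal_comp (H k) (g := fun _ => (u k)⁻¹) fun _ => h1

/-- conjugation by a Hamiltonian homeomorphism `g`: by `exists_GS` there are a compact subset `K₀` of
the ball and Hamiltonian diffeos `g k` supported in `K₀` with `g k → g` uniformly. Take
`H k t ((g k)⁻¹ x)`, flows `g k ∘ ψ k t ∘ (g k)⁻¹` (`HIso.conj`, `isHam_props`), path `g Φ g⁻¹`,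
support in `K ∪ K₀`. Cauchy: for fixed `j`, `hofer (H k ∘ (g k)⁻¹ - H l ∘ (g l)⁻¹)` is at most
`hofer (H k - H j) + hofer (H l - H j) + 2 sup |H j ∘ (g k)⁻¹ - H j ∘ (g l)⁻¹|` and `H j` is uniformly
continuous on `[0, 1] × E n`, `(g k)⁻¹` converges uniformly (`inv_conv`). Calabi: `cal_comp`. -/
theorem TPath.conj (h : TPath n K H ψ Φ) {g : E n ≃ₜ E n} (hg : g ∈ HamBar n) :
    ∃ (K'' : Set (E n)) (H'' : ℕ → ℝ → E n → ℝ) (ψ'' : ℕ → ℝ → E n → E n)
      (Φ'' : Icc (0 : ℝ) 1 → (E n ≃ₜ E n)), TPath n K'' H'' ψ'' Φ'' ∧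
      endp Φ'' = g * endp Φ * g⁻¹ ∧ ∀ k, cal (H'' k) = cal (H k) := by
  obtain ⟨_, K'', H'', ψ'', Φ'', -, h1, h2, -, h3⟩ := h.conj_strong hg
  exact ⟨K'', H'', ψ'', Φ'', h1, h2, h3⟩

end Pool.Agent.W_68f289_h35

end

section

/-!
Homothety of topological Hamiltonian paths.
-/

open Set Metric Topology Pool.Agent.W_MP_68f289_gt MeasureTheory Filter
open scoped NNReal ContDiff

namespace Pool.Agent.W_68f289_h35

variable {n : ℕ} {K K' : Set (E n)} {H H' : ℕ → ℝ → E n → ℝ} {ψ ψ' : ℕ → ℝ → E n → E n}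
  {Φ Φ' : Icc (0 : ℝ) 1 → (E n ≃ₜ E n)}

/-- homothety -/
theorem TPath.homoth (h : TPath n K H ψ Φ) {r : ℝ} (h0 : 0 < r) (h1 : r ≤ 1) :
    ∃ (K'' : Set (E n)) (H'' : ℕ → ℝ → E n → ℝ) (ψ'' : ℕ → ℝ → E n → E n)
      (Φ'' : Icc (0 : ℝ) 1 → (E n ≃ₜ E n)), TPath n K'' H'' ψ'' Φ'' ∧
      endp Φ'' = aff 0 r h0.ne' * endp Φ * (aff 0 r h0.ne')⁻¹ ∧
      ∀ k, cal (H'' k) = r ^ (2 * n + 2) * cal (H k) := by
  have hr2 : r ^ 2 ≤ 1 := pow_le_one₀ h0.le h1
  refine ⟨(fun x : E n => r • x) '' K, fun k t x => r ^ 2 * H k t (r⁻¹ • x),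
    fun k t x => r • ψ k t (r⁻¹ • x),
    fun t => aff 0 r h0.ne' * Φ t * (aff 0 r h0.ne')⁻¹, ⟨?_, ?_, ?_, ?_, ?_, ?_⟩, rfl,
    fun k => cal_homoth (H k) h0⟩
  · exact h.comp.image (continuous_const_smul r)
  · rintro _ ⟨x, hx, rfl⟩
    have hxB : qf x < 1 := h.sub hx
    have e : qf (r • x) = r ^ 2 * qf x := by
      unfold qf
      rw [Finset.mul_sum]
      refine Finset.sum_congr rfl fun i _ => ?_
      simp only [Prod.smul_fst, Prod.smul_snd, Pi.smul_apply, smul_eq_mul]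
      ring
    have hq : 0 ≤ qf x := Finset.sum_nonneg fun i _ => add_nonneg (sq_nonneg _) (sq_nonneg _)
    change qf (r • x) < 1
    rw [e]
    exact (mul_le_of_le_one_left hq hr2).trans_lt hxB
  · exact fun k => HIso.homoth (h.iso k) h0 h1
  · intro k t x hx
    have hx' : r⁻¹ • x ∉ K := fun hK => hx ⟨r⁻¹ • x, hK, smul_inv_smul₀ h0.ne' x⟩
    change r ^ 2 * H k t (r⁻¹ • x) = 0
    rw [h.supp k t _ hx', mul_zero]
  · intro ε hε
    obtain ⟨N, hN⟩ := h.cauchy ε hε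
    refine ⟨N, fun j k hj hk => ?_⟩
    have hb : ∀ t, Bd (fun x => H j t x - H k t x) := fun t =>
      (bd_of_supp (h.iso j).smooth.continuous h.comp (h.supp j) t).sub
        (bd_of_supp (h.iso k).smooth.continuous h.comp (h.supp k) t)
    have e := hofer_homoth (H := fun t x => H j t x - H k t x) hb h0
    have e2 : (fun (t : ℝ) (x : E n) => r ^ 2 * H j t (r⁻¹ • x) - r ^ 2 * H k t (r⁻¹ • x)) =
        fun t x => r ^ 2 * (H j t (r⁻¹ • x) - H k t (r⁻¹ • x)) := by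
      funext t x
      ring
    change hofer (fun (t : ℝ) (x : E n) => r ^ 2 * H j t (r⁻¹ • x) - r ^ 2 * H k t (r⁻¹ • x)) < ε
    rw [e2]
    refine (le_of_eq e).trans_lt ?_
    exact (mul_le_of_le_one_left (hofer_nonneg hb) hr2).trans_lt (hN j k hj hk)
  · intro ε hε
    obtain ⟨N, hN⟩ := h.conv ε hε
    refine ⟨N, fun k hk t x => ?_⟩
    have e1 : (aff 0 r h0.ne' * Φ t * (aff 0 r h0.ne')⁻¹ : E n ≃ₜ E n) x =
        r • Φ t (r⁻¹ • x) := by
      change (0 : E n) + r • Φ t ((aff 0 r h0.ne')⁻¹ x) = _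
      rw [zero_add]
      congr 2
      change (aff 0 r h0.ne').symm x = _
      rw [aff_symm_apply, sub_zero]
    rw [e1, dist_smul₀, Real.norm_of_nonneg h0.le]
    exact (mul_le_of_le_one_left dist_nonneg h1).trans_lt (hN k hk t (r⁻¹ • x))

end Pool.Agent.W_68f289_h35

end

section

/-!
Hameomorphisms are end points; convergence of the Calabi invariants.
-/

open Set Metric Topology Pool.Agent.W_MP_68f289_gt MeasureTheory Filter
open scoped NNReal ContDiff

namespace Pool.Agent.W_68f289_h35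

variable {n : ℕ} {K K' : Set (E n)} {H H' : ℕ → ℝ → E n → ℝ} {ψ ψ' : ℕ → ℝ → E n → E n}
  {Φ Φ' : Icc (0 : ℝ) 1 → (E n ≃ₜ E n)}

/-- every hameomorphism is the end point of a topological Hamiltonian path: `hameos n` consists of
end points and is closed under products and inverses by the above (`Subgroup.closure_induction`) -/
theorem exists_TPath (u : Hm n) : ∃ K H ψ Φ, TPath n K H ψ Φ ∧ endp Φ = (u : E n ≃ₜ E n) := by
  obtain ⟨u, hu⟩ := u
  change ∃ K H ψ Φ, TPath n K H ψ Φ ∧ endp Φ = u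
  change u ∈ Subgroup.closure (hameos n) at hu
  induction hu using Subgroup.closure_induction with
  | mem φ hφ =>
    obtain ⟨K, hc, hB, H, ψ, hi, hs, hca, Φ, hU, he⟩ := hφ
    exact ⟨K, H, ψ, Φ, ⟨hc, hB, hi, hs, hca, hU⟩, he⟩
  | one =>
    have h : HIso n (fun _ _ => (0 : ℝ)) (fun _ x => x) := by
      refine ⟨contDiff_const, ⟨∅, isCompact_empty, empty_subset _, fun _ _ _ => rfl⟩,
        fun _ => rfl, fun t x => ?_⟩
      rw [XH_zero]
      exact hasDerivAt_const _ _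
    refine ⟨∅, _, _, _, TPath.of_HIso h isCompact_empty (empty_subset _) (fun _ _ _ => rfl), ?_⟩
    ext x : 1
    rfl
  | mul φ φ' _ _ h h' =>
    obtain ⟨K, H, ψ, Φ, h, he⟩ := h
    obtain ⟨K', H', ψ', Φ', h', he'⟩ := h'
    obtain ⟨K'', H'', ψ'', Φ'', h'', he'', -, -⟩ := TPath.mul h h'
    exact ⟨K'', H'', ψ'', Φ'', h'', by rw [he'', he, he']⟩
  | inv φ _ h =>
    obtain ⟨K, H, ψ, Φ, h, he⟩ := h
    obtain ⟨H'', ψ'', Φ'', h'', he'', -, -⟩ := TPath.inv h
    exact ⟨K, H'', ψ'', Φ'', h'', by rw [he'', he]⟩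

lemma TPath.endp_mem (h : TPath n K H ψ Φ) : endp Φ ∈ Hameo n :=
  Subgroup.subset_closure ⟨K, h.comp, h.sub, H, ψ, h.iso, h.supp, h.cauchy, Φ, h.conv, rfl⟩

/-- the Calabi invariants converge: Cauchy sequence of real numbers by `abs_cal_le`, `cal_sub` -/
lemma TPath.cal_tendsto (hn : 1 ≤ n) (h : TPath n K H ψ Φ) :
    ∃ c : ℝ, Tendsto (fun k => cal (H k)) atTop (𝓝 c) := by
  have hcont : ∀ k, Continuous (Function.uncurry (H k)) := fun k => (h.iso k).smooth.continuous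
  refine cauchySeq_tendsto_of_complete (Metric.cauchySeq_iff.2 fun ε hε => ?_)
  obtain ⟨V, hV⟩ : ∃ V : ℝ, V = (volume (Bl n)).toReal := ⟨_, rfl⟩
  have hV0 : 0 ≤ V := by
    rw [hV]
    exact ENNReal.toReal_nonneg
  have hV1 : 0 < V + 1 := by linarith
  obtain ⟨N, hN⟩ := h.cauchy (ε / (V + 1)) (div_pos hε hV1)
  refine ⟨N, fun j hj k hk => ?_⟩
  have h1 := hN j k hj hk
  rw [Real.dist_eq, ← cal_sub (hcont j) (hcont k) h.comp (h.supp j) (h.supp k)]
  have h2 : |cal (fun t x => H j t x - H k t x)| ≤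
      (volume (Bl n)).toReal * hofer (fun t x => H j t x - H k t x) := by
    refine abs_cal_le hn ((hcont j).sub (hcont k)) h.comp h.sub fun t x hx => ?_
    rw [h.supp j t x hx, h.supp k t x hx, sub_zero]
  rw [← hV] at h2
  have h3 : V * hofer (fun t x => H j t x - H k t x) ≤ V * (ε / (V + 1)) :=
    mul_le_mul_of_nonneg_left h1.le hV0
  have h4 : V * (ε / (V + 1)) < ε := by
    rw [← mul_div_assoc, div_lt_iff₀ hV1]
    nlinarith
  linarith

end Pool.Agent.W_68f289_h35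

end
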