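import Pool.Agent.W_68f289_h35m.Nz
import Pool.Agent.W_68f289_h35m.Ap

section

/-!
The flows of H t and of H t o chi t have the same class.
-/

open Set Metric Topology Pool.Agent.W_MP_68f289_gt MeasureTheory Filter
open scoped NNReal ContDiff

namespace Pool.Agent.W_68f289_h35

variable {n : ℕ}

/-- inverse flow: `HIso.inverse`, `hofer_comp`, `hofer_const_mul` -/
lemma Small.inv {K : Set (E n)} (hc : IsCompact K) {ε : ℝ} {v : Hm n} (hv : Small K ε v) :
    Small K ε v⁻¹ := by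
  obtain ⟨L, μ, h1, h2, h3, h4, h5⟩ := hv
  have hsur : ∀ t, Function.Surjective (μ t) := fun t x => ⟨HIso.inv h1 t x, HIso.apply_inv h1 t x⟩
  refine ⟨fun t x => -L t (μ t x), HIso.inv h1, HIso.inverse h1, ?_, ?_, ?_, ?_⟩
  · intro t x hx
    simp only
    rw [HIso.off h1 hc h2 t hx, h2 t x hx, neg_zero]
  · have h6 : hofer (fun t x => -L t (μ t x)) = hofer (fun t x => (-1) * L t (μ t x)) := by
      congr 1
      funext t x
      rw [neg_one_mul]
    have h7 : ∀ t, Bd (fun x => L t (μ t x)) := fun t =>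
      (bd_of_supp h1.smooth.continuous hc h2 t).comp (μ t)
    rw [h6, hofer_const_mul (H := fun t x => L t (μ t x)) h7 (-1), hofer_comp L hsur, abs_neg,
      abs_one, one_mul]
    exact h3
  · intro t ht x
    have h6 := h4 t ht (HIso.inv h1 t x)
    rw [HIso.apply_inv h1, dist_comm] at h6
    exact h6
  · intro x
    change (v : E n ≃ₜ E n).symm x = HIso.inv h1 1 x
    rw [Homeomorph.symm_apply_eq]
    change x = (v : E n ≃ₜ E n) (HIso.inv h1 1 x)
    rw [h5, HIso.apply_inv h1]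

/-- `H t ∘ χ t` and `H t` generate the same class modulo `N`. Proof: in the quotient by `N` the images of
Hamiltonian diffeos commute (`comm_mem`). For `m ≥ 1`, by induction on `j ≤ m` and `inc` with
`a = j / m`, `b = (j + 1) / m`: `fl hη (j / m) ≡ fl h (j / m) * v` modulo `N` with `v` small of order
`j * M / m²` (`Small.mul`). For `j = m`: `v⁻¹ * (tm hη * (tm h)⁻¹) ∈ N` with `v⁻¹` small of order `M / m`
(`Small.inv`), for all `m`, so `HClosed.mem_of_small` applies. -/
theorem conj_path (hn : 1 ≤ n) {N : Subgroup (Hm n)} (hN : N.Normal) (hN1 : N ≠ ⊥)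
    (hNc : HClosed N) {H L : ℝ → E n → ℝ} {ψ χ η : ℝ → E n → E n} (h : HIso n H ψ)
    (hL : HIso n L χ) (hη : HIso n (fun t x => H t (χ t x)) η) : tm hη * (tm h)⁻¹ ∈ N := by
  have := hN
  obtain ⟨K1, hK1, hK1B, hK1s⟩ := h.supp
  obtain ⟨K2, hK2, hK2B, hK2s⟩ := hL.supp
  have hc : IsCompact (K1 ∪ K2) := hK1.union hK2
  have hKB : K1 ∪ K2 ⊆ Bl n := Set.union_subset hK1B hK2B
  have hKH : ∀ t, ∀ x, x ∉ K1 ∪ K2 → H t x = 0 := fun t x hx =>
    hK1s t x fun h' => hx (Or.inl h')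
  have hKL : ∀ t, ∀ x, x ∉ K1 ∪ K2 → L t x = 0 := fun t x hx =>
    hK2s t x fun h' => hx (Or.inr h')
  obtain ⟨M, hM, hinc⟩ := inc h hL hη hc hKB hKH hKL
  -- images of Hamiltonian diffeos commute in the quotient
  have hcomm : ∀ u v : Hm n, IsHam n (u : E n ≃ₜ E n) → IsHam n (v : E n ≃ₜ E n) →
      (QuotientGroup.mk' N u) * (QuotientGroup.mk' N v) =
        (QuotientGroup.mk' N v) * (QuotientGroup.mk' N u) := by
    intro u v hu hv
    have h1 := comm_mem hn hN hN1 hu hv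
    have h2 : QuotientGroup.mk' N (u * v * u⁻¹ * v⁻¹) = 1 := (QuotientGroup.eq_one_iff _).2 h1
    simp only [map_mul, map_inv] at h2
    have h3 := mul_inv_eq_one.1 h2
    exact mul_inv_eq_iff_eq_mul.1 h3
  have hmul : ∀ u v : Hm n, IsHam n (u : E n ≃ₜ E n) → IsHam n (v : E n ≃ₜ E n) →
      IsHam n ((u * v : Hm n) : E n ≃ₜ E n) := fun u v hu hv => isHam_mul hu hv
  have hinv : ∀ u : Hm n, IsHam n (u : E n ≃ₜ E n) → IsHam n ((u⁻¹ : Hm n) : E n ≃ₜ E n) :=
    fun u hu => isHam_inv hu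
  have hstep : ∀ a b : ℝ, 0 ≤ a → a ≤ b → b ≤ 1 → ∃ v : Hm n, Small (K1 ∪ K2) (M * (b - a) ^ 2) v ∧
      QuotientGroup.mk' N (fl hη b) * (QuotientGroup.mk' N (fl hη a))⁻¹ =
        QuotientGroup.mk' N (fl h b) * (QuotientGroup.mk' N (fl h a))⁻¹ * QuotientGroup.mk' N v := by
    intro a b h0 hab hb1
    obtain ⟨v, hv, hve⟩ := hinc a b h0 hab hb1
    refine ⟨v, hv, ?_⟩
    have h1 := congrArg (QuotientGroup.mk' N) hve
    have h2 := hcomm (fl h b * (fl h a)⁻¹) (fl hL a)
      (hmul _ _ (fl_isHam h b) (hinv _ (fl_isHam h a))) (fl_isHam hL a)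
    simp only [map_mul, map_inv] at h1 h2
    rw [h1]
    congr 1
    rw [mul_assoc, h2, inv_mul_cancel_left]
  have hind : ∀ m : ℕ, 1 ≤ m → ∀ j : ℕ, j ≤ m → ∃ v : Hm n,
      Small (K1 ∪ K2) (j * (M * (1 / m) ^ 2)) v ∧
      QuotientGroup.mk' N (fl hη (j / m)) =
        QuotientGroup.mk' N (fl h (j / m)) * QuotientGroup.mk' N v := by
    intro m hm j
    have hm0 : (0 : ℝ) < m := by exact_mod_cast hm
    induction j with
    | zero =>
      intro _
      refine ⟨1, Small.one _ (by simp), ?_⟩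
      rw [Nat.cast_zero, zero_div, fl_zero, fl_zero, map_one, mul_one]
    | succ j ih =>
      intro hj
      obtain ⟨v, hv, hve⟩ := ih (by omega)
      have hj1 : ((j : ℝ) + 1) ≤ m := by exact_mod_cast hj
      obtain ⟨w, hw, hwe⟩ := hstep (j / m) ((j + 1 : ℕ) / m) (by positivity)
        (by push_cast; gcongr; linarith) (by push_cast; rw [div_le_one hm0]; exact hj1)
      refine ⟨w * v, ?_, ?_⟩
      · refine Small.mono (le_of_eq ?_) (Small.mul hc hw hv)
        push_cast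
        ring
      · have h1 := mul_inv_eq_iff_eq_mul.1 hwe
        rw [h1, hve, map_mul]
        have h2 := hcomm w (fl h (j / m)) hw.isHam (fl_isHam h _)
        calc QuotientGroup.mk' N (fl h ((j + 1 : ℕ) / m)) * (QuotientGroup.mk' N (fl h (j / m)))⁻¹ *
              QuotientGroup.mk' N w *
              (QuotientGroup.mk' N (fl h (j / m)) * QuotientGroup.mk' N v)
            = QuotientGroup.mk' N (fl h ((j + 1 : ℕ) / m)) *
              ((QuotientGroup.mk' N (fl h (j / m)))⁻¹ *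
              (QuotientGroup.mk' N w * QuotientGroup.mk' N (fl h (j / m)))) *
                QuotientGroup.mk' N v := by group
          _ = QuotientGroup.mk' N (fl h ((j + 1 : ℕ) / m)) *
              (QuotientGroup.mk' N w * QuotientGroup.mk' N v) := by
              rw [h2, inv_mul_cancel_left, mul_assoc]
  refine HClosed.mem_of_small hNc (hmul _ _ (tm_isHam hη) (hinv _ (tm_isHam h))) hc hKB ?_
  intro ε hε
  obtain ⟨m, hm⟩ := exists_nat_gt (M / ε)
  have hm0 : (0 : ℝ) < m := lt_of_le_of_lt (div_nonneg hM hε.le) hm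
  have hm1 : 1 ≤ m := by
    rcases Nat.eq_zero_or_pos m with h0 | h0
    · rw [h0, Nat.cast_zero] at hm0
      exact absurd hm0 (lt_irrefl _)
    · exact h0
  obtain ⟨v, hv, hve⟩ := hind m hm1 m le_rfl
  refine ⟨v⁻¹, (Small.inv hc hv).mono ?_, ?_⟩
  · have h1 : (m : ℝ) * (M * (1 / m) ^ 2) = M / m := by
      field_simp
    rw [h1, div_le_iff₀ hm0]
    rw [div_lt_iff₀ hε] at hm
    linarith
  · rw [div_self hm0.ne', fl_one, fl_one] at hve
    rw [← QuotientGroup.eq_one_iff]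
    change QuotientGroup.mk' N (v⁻¹ * (tm hη * (tm h)⁻¹)) = 1
    simp only [map_mul, map_inv]
    have h2 := hcomm (tm h) v (tm_isHam h) hv.isHam
    rw [hve, h2]
    group

end Pool.Agent.W_68f289_h35

end

section

/-!
Additivity.
-/

open Set Metric Topology Pool.Agent.W_MP_68f289_gt MeasureTheory Filter
open scoped NNReal ContDiff

namespace Pool.Agent.W_68f289_h35

variable {n : ℕ}

/-- additivity. `(χ t)⁻¹ η t` is generated by `(H t + L t - L t) ∘ χ t = H t ∘ χ t` (`HIso.diff`); use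
`conj_path`. -/
theorem add_class (hn : 1 ≤ n) {N : Subgroup (Hm n)} (hN : N.Normal) (hN1 : N ≠ ⊥)
    (hNc : HClosed N) {H L : ℝ → E n → ℝ} {ψ χ η : ℝ → E n → E n} (h : HIso n H ψ)
    (hL : HIso n L χ) (hη : HIso n (fun t x => H t x + L t x) η) :
    tm hη * (tm h * tm hL)⁻¹ ∈ N := by
  have h1 := HIso.diff hL hη
  have e : (fun (t : ℝ) (x : E n) => H t (χ t x) + L t (χ t x) - L t (χ t x)) =
      fun t x => H t (χ t x) := by
    funext t x
    ring
  have h2 : HIso n (fun t x => H t (χ t x)) (fun t x => HIso.inv hL t (η t x)) := by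
    rw [← e]
    exact h1
  have h3 := conj_path hn hN hN1 hNc h hL h2
  have h4 : tm h2 = (tm hL)⁻¹ * tm hη := by
    apply Subtype.ext
    apply Homeomorph.ext
    intro x
    rfl
  have h5 : tm hη * (tm h)⁻¹ * (tm hL)⁻¹ ∈ N := by
    have h6 := hN.conj_mem _ h3 (tm hL)
    rw [h4] at h6
    have e2 : tm hL * ((tm hL)⁻¹ * tm hη * (tm h)⁻¹) * (tm hL)⁻¹ =
        tm hη * (tm h)⁻¹ * (tm hL)⁻¹ := by group
    rwa [e2] at h6
  have h7 := N.mul_mem h5 (comm_mem hn hN hN1 (tm_isHam hL) (tm_isHam h))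
  have e3 : tm hη * (tm h)⁻¹ * (tm hL)⁻¹ * (tm hL * tm h * (tm hL)⁻¹ * (tm h)⁻¹) =
      tm hη * (tm h * tm hL)⁻¹ := by group
  rwa [e3] at h7

/-- smooth Hamiltonians with compact support in the ball -/
def Ad {n : ℕ} (H : ℝ → E n → ℝ) : Prop :=
  ContDiff ℝ ((⊤ : ℕ∞) : WithTop ℕ∞) (Function.uncurry H) ∧
    ∃ K : Set (E n), IsCompact K ∧ K ⊆ Bl n ∧ ∀ t : ℝ, ∀ x, x ∉ K → H t x = 0

/-- Hamiltonians whose time-one map is in `N` -/
def Zn {n : ℕ} (N : Subgroup (Hm n)) (H : ℝ → E n → ℝ) : Prop :=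
  Ad H ∧ ∀ (ψ : ℝ → E n → E n) (h : HIso n H ψ), tm h ∈ N

lemma Ad.add {H L : ℝ → E n → ℝ} (hH : Ad H) (hL : Ad L) : Ad (fun t x => H t x + L t x) := by
  obtain ⟨h1, K, h2, h3, h4⟩ := hH
  obtain ⟨h1', K', h2', h3', h4'⟩ := hL
  refine ⟨h1.add h1', K ∪ K', h2.union h2', union_subset h3 h3', fun t x hx => ?_⟩
  rw [mem_union, not_or] at hx
  simp only [h4 t x hx.1, h4' t x hx.2, add_zero]

lemma Ad.neg {H : ℝ → E n → ℝ} (hH : Ad H) : Ad (fun t x => -H t x) := by
  obtain ⟨h1, K, h2, h3, h4⟩ := hH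
  refine ⟨h1.neg, K, h2, h3, fun t x hx => ?_⟩
  simp only [h4 t x hx, neg_zero]

lemma Ad.exists_flow {H : ℝ → E n → ℝ} (hH : Ad H) : ∃ ψ, HIso n H ψ := by
  obtain ⟨h1, K, h2, h3, h4⟩ := hH
  exact Pool.Agent.W_68f289_h35.exists_flow h1 h2 h3 h4

section

variable (hn : 1 ≤ n) {N : Subgroup (Hm n)} (hN : N.Normal) (hN1 : N ≠ ⊥) (hNc : HClosed N)

include hn hN hN1 hNc

lemma Zn.add {H L : ℝ → E n → ℝ} (hH : Zn N H) (hL : Zn N L) :
    Zn N (fun t x => H t x + L t x) := by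
  refine ⟨hH.1.add hL.1, fun η hη => ?_⟩
  obtain ⟨ψ, h⟩ := hH.1.exists_flow
  obtain ⟨χ, h'⟩ := hL.1.exists_flow
  have h1 := add_class hn hN hN1 hNc h h' hη
  have h2 := N.mul_mem h1 (N.mul_mem (hH.2 ψ h) (hL.2 χ h'))
  rwa [inv_mul_cancel_right] at h2

/-- `0 = H + (-H)`, and the flow of `0` is constant (uniqueness of integral curves on `[0, 1]`) -/
lemma Zn.neg {H : ℝ → E n → ℝ} (hH : Zn N H) : Zn N (fun t x => -H t x) := by
  refine ⟨hH.1.neg, fun χ hL => ?_⟩
  obtain ⟨ψ, h⟩ := hH.1.exists_flow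
  have e : (fun (t : ℝ) (x : E n) => H t x + -H t x) = fun _ _ => 0 := by
    funext t x
    ring
  have hη : HIso n (fun t x => H t x + -H t x) (fun _ x => x) := by
    rw [e]
    refine ⟨contDiff_const, ⟨∅, isCompact_empty, empty_subset _, fun _ _ _ => rfl⟩,
      fun _ => rfl, fun t x => ?_⟩
    rw [XH_zero]
    exact hasDerivAt_const _ _
  have h1 := add_class hn hN hN1 hNc h hL hη
  have h2 : tm hη = 1 := by
    apply Subtype.ext
    apply Homeomorph.ext
    intro x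
    rfl
  rw [h2, one_mul, mul_inv_rev] at h1
  have h3 := N.mul_mem h1 (hH.2 ψ h)
  rw [inv_mul_cancel_right] at h3
  exact N.inv_mem_iff.1 h3

/-- if the difference of two Hamiltonians is in `Zn`, they have the same class -/
lemma Zn.class_eq {H L : ℝ → E n → ℝ} {ψ χ : ℝ → E n → E n} (h : HIso n H ψ) (hL : HIso n L χ)
    (hd : Zn N (fun t x => H t x - L t x)) : tm h * (tm hL)⁻¹ ∈ N := by
  obtain ⟨δ, hδ⟩ := hd.1.exists_flow
  have e : (fun (t : ℝ) (x : E n) => H t x - L t x + L t x) = H := by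
    funext t x
    ring
  have hη : HIso n (fun t x => H t x - L t x + L t x) ψ := by
    rw [e]
    exact h
  have h1 := add_class hn hN hN1 hNc hδ hL hη
  have h2 : tm hη = tm h := by
    apply Subtype.ext
    apply Homeomorph.ext
    intro x
    rfl
  rw [h2, mul_inv_rev, ← mul_assoc] at h1
  have h3 := N.mul_mem h1 (hd.2 δ hδ)
  rwa [inv_mul_cancel_right] at h3

end

end Pool.Agent.W_68f289_h35

end

section

/-!
Conjugation.
-/

open Set Metric Topology Pool.Agent.W_MP_68f289_gt MeasureTheory Filter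
open scoped NNReal ContDiff

namespace Pool.Agent.W_68f289_h35

variable {n : ℕ}

section

variable (hn : 1 ≤ n) {N : Subgroup (Hm n)} (hN : N.Normal) (hN1 : N ≠ ⊥) (hNc : HClosed N)

include hn hN hN1 hNc

/-- `H - H ∘ g` for a Hamiltonian diffeo `g`: `H = (H - H ∘ g) + H ∘ g` and the time-one map of
`H ∘ g` is `g⁻¹ (tm H) g` (`HIso.conj` with `g⁻¹`, `isHam_props`, `isHam_inv`), which has the same
class by `comm_mem` -/
lemma Zn.conj {H : ℝ → E n → ℝ} (hH : Ad H) {g : E n ≃ₜ E n} (hg : IsHam n g) :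
    Zn N (fun t x => H t x - H t (g x)) := by
  have hg' : IsHam n g⁻¹ := isHam_inv hg
  obtain ⟨g1, g2, g3, g4, g5⟩ := isHam_props hg
  obtain ⟨i1, i2, i3, i4, i5⟩ := isHam_props hg'
  have hcoe : (⇑(g⁻¹ : E n ≃ₜ E n)) = ⇑g.symm := rfl
  obtain ⟨hsm, K, hK, hKB, hKs⟩ := hH
  have hAd2 : Ad (fun t x => H t (g x)) := by
    refine ⟨?_, g.symm '' K, hK.image g.symm.continuous, ?_, ?_⟩
    · have h1 : ContDiff ℝ ((⊤ : ℕ∞) : WithTop ℕ∞) (fun p : ℝ × E n => (p.1, g p.2)) :=
        contDiff_fst.prodMk (g1.comp contDiff_snd)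
      exact hsm.comp h1
    · rintro y ⟨x, hx, rfl⟩
      exact i4 x (hKB hx)
    · intro t x hx
      apply hKs t
      intro hgx
      exact hx ⟨g x, hgx, g.symm_apply_apply x⟩
  have hAd1 : Ad H := ⟨hsm, K, hK, hKB, hKs⟩
  have hAd : Ad (fun t x => H t x - H t (g x)) := by
    have h1 := hAd1.add hAd2.neg
    have h2 : (fun t x => H t x - H t (g x)) = fun t x => H t x + -(H t (g x)) := by
      funext t x
      ring
    rw [h2]
    exact h1
  refine ⟨hAd, fun ψ h => ?_⟩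
  obtain ⟨φ, hφ⟩ := hAd1.exists_flow
  have hχ : HIso n (fun t x => H t (g x)) (fun t x => g.symm (φ t (g x))) := by
    have h1 := HIso.conj hφ (g := g⁻¹) i1 i2 i3 i4
    exact h1
  have hη : HIso n (fun t x => (H t x - H t (g x)) + H t (g x)) φ := by
    have h2 : (fun t x => (H t x - H t (g x)) + H t (g x)) = H := by
      funext t x
      ring
    rw [h2]
    exact hφ
  have h1 := add_class hn hN hN1 hNc h hχ hη
  have e : ∀ (L : ℝ → E n → ℝ) (hL : HIso n L φ) (x : E n), (tm hL : E n ≃ₜ E n) x = φ 1 x :=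
    fun L hL x => rfl
  let γ : Hm n := ⟨g⁻¹, Subgroup.subset_closure (isHam_hameos hg')⟩
  have h2 : tm hη * γ * (tm hη)⁻¹ * γ⁻¹ ∈ N := comm_mem hn hN hN1 (tm_isHam hη) hg'
  have h3 : tm hχ = γ * tm hη * γ⁻¹ := by
    apply Subtype.ext
    apply Homeomorph.ext
    intro x
    rfl
  rw [h3] at h1
  have h4 : tm hη * (tm h * (γ * tm hη * γ⁻¹))⁻¹ =
      (tm hη * γ * (tm hη)⁻¹ * γ⁻¹) * (tm h)⁻¹ := by
    group
  rw [h4] at h1
  have h5 := N.mul_mem (N.inv_mem h2) h1
  rw [← mul_assoc, inv_mul_cancel, one_mul] at h5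
  exact (N.inv_mem_iff).1 h5

end

end Pool.Agent.W_68f289_h35

end

section

/-!
Closedness.
-/

open Set Metric Topology Pool.Agent.W_MP_68f289_gt MeasureTheory Filter
open scoped NNReal ContDiff

namespace Pool.Agent.W_68f289_h35

variable {n : ℕ}

section

variable (hn : 1 ≤ n) {N : Subgroup (Hm n)} (hN : N.Normal) (hN1 : N ≠ ⊥) (hNc : HClosed N)

include hn hN hN1 hNc

/-- closedness: `H = H' + (H - H')`, `add_class`, `small_of_C1`, `HClosed.mem_of_small` -/
lemma Zn.closed {H : ℝ → E n → ℝ} (hH : ContDiff ℝ ((⊤ : ℕ∞) : WithTop ℕ∞) (Function.uncurry H))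
    {K : Set (E n)} (hc : IsCompact K) (hKB : K ⊆ Bl n) (hK : ∀ t, ∀ x, x ∉ K → H t x = 0)
    (h : ∀ ε : ℝ, 0 < ε → ∃ H' : ℝ → E n → ℝ, Zn N H' ∧ (∀ t, ∀ x, x ∉ K → H' t x = 0) ∧
      (∀ t ∈ Icc (0 : ℝ) 1, ∀ x, |H t x - H' t x| ≤ ε) ∧
      ∀ t ∈ Icc (0 : ℝ) 1, ∀ x, ‖fderiv ℝ (fun x => H t x - H' t x) x‖ ≤ ε) : Zn N H := by
  refine ⟨⟨hH, K, hc, hKB, hK⟩, fun ψ hψ => ?_⟩
  refine HClosed.mem_of_small hNc (tm_isHam hψ) hc hKB fun ε hε => ?_
  obtain ⟨H', hZ, hK', h0, h1⟩ := h (ε / 2) (half_pos hε)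
  obtain ⟨ψ', hψ'⟩ := hZ.1.exists_flow
  have hDs : ContDiff ℝ ((⊤ : ℕ∞) : WithTop ℕ∞)
      (Function.uncurry fun (t : ℝ) (x : E n) => H t x - H' t x) := hH.sub hZ.1.1
  have hDK : ∀ t : ℝ, ∀ x : E n, x ∉ K → H t x - H' t x = 0 := fun t x hx => by
    rw [hK t x hx, hK' t x hx, sub_zero]
  obtain ⟨μ, hμ⟩ := Pool.Agent.W_68f289_h35.exists_flow hDs hc hKB hDK
  have e : (fun (t : ℝ) (x : E n) => H' t x + (H t x - H' t x)) = H := by
    funext t x
    ring
  have hη : HIso n (fun (t : ℝ) (x : E n) => H' t x + (H t x - H' t x)) ψ := by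
    rw [e]
    exact hψ
  have h2 := add_class hn hN hN1 hNc hψ' hμ hη
  have h3 : tm hη = tm hψ := Subtype.ext (Homeomorph.ext fun x => rfl)
  rw [h3] at h2
  have h4 : Small K ε (tm hμ) :=
    Small.mono (by linarith) (small_of_C1 hμ hc hDK h0 h1)
  refine ⟨(tm hμ)⁻¹, Small.inv hc h4, ?_⟩
  have h5 : tm hψ * (tm hψ' * tm hμ)⁻¹ * tm hψ' ∈ N := N.mul_mem h2 (hZ.2 ψ' hψ')
  have h6 := hN.conj_mem _ h5 (tm hμ)⁻¹
  have h7 : (tm hμ)⁻¹ * (tm hψ * (tm hψ' * tm hμ)⁻¹ * tm hψ') * (tm hμ)⁻¹⁻¹ ∈ N := h6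
  have h8 : tm hψ * (tm hψ' * tm hμ)⁻¹ * tm hψ' * tm hμ = tm hψ := by group
  rw [inv_inv, mul_assoc, h8] at h7
  exact h7

end

end Pool.Agent.W_68f289_h35

end

section

/-!
Separated Hamiltonians with time integral zero.
-/

open Set Metric Topology Pool.Agent.W_MP_68f289_gt MeasureTheory Filter
open scoped NNReal ContDiff

namespace Pool.Agent.W_68f289_h35

variable {n : ℕ}

/-- a separated Hamiltonian `a t * b x` with `∫ a = 0` has trivial time-one map: if `φ` is the flow of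
the autonomous Hamiltonian `b`, then `φ (∫ a over [0, t]) x` is the flow of `a t * b x` -/
lemma Zn.time {N : Subgroup (Hm n)} {a : ℝ → ℝ} (ha : ContDiff ℝ ((⊤ : ℕ∞) : WithTop ℕ∞) a)
    (h0 : ∫ t in (0 : ℝ)..1, a t = 0) {b : E n → ℝ} (hb : Ad (fun _ : ℝ => b)) :
    Zn N (fun t x => a t * b x) := by
  obtain ⟨φ, hφ⟩ := hb.exists_flow
  obtain ⟨hbs, K, hc, hKB, hK⟩ := hb
  have hsm : ContDiff ℝ ((⊤ : ℕ∞) : WithTop ℕ∞)
      (Function.uncurry fun (t : ℝ) (x : E n) => a t * b x) := (ha.comp contDiff_fst).mul hbs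
  have h3 : ∀ (t : ℝ) (x : E n), x ∉ K → a t * b x = 0 := fun t x hx => by
    have h4 : b x = 0 := hK t x hx
    rw [h4, mul_zero]
  refine ⟨⟨hsm, K, hc, hKB, h3⟩, fun ψ h => ?_⟩
  set A : ℝ → ℝ := fun t => ∫ s in (0 : ℝ)..t, a s with hA
  have hAd : ∀ t, HasDerivAt A (a t) t := fun t =>
    (ha.continuous.integral_hasStrictDerivAt 0 t).hasDerivAt
  have hadm : Adm n (fun t x => a t * b x) K := ⟨hsm, hc, hKB, h3⟩
  have hbd : Differentiable ℝ b := by
    have h4 : ContDiff ℝ ((⊤ : ℕ∞) : WithTop ℕ∞) b :=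
      hbs.comp ((contDiff_const (c := (0 : ℝ))).prodMk contDiff_id)
    exact h4.differentiable (by simp)
  have key : ∀ x, ψ 1 x = x := by
    intro x
    have hα : IC (fun t => XH (fun y => a t * b y)) (fun s => ψ s x) := fun s _ =>
      (h.der s x).hasDerivWithinAt
    have hβ : IC (fun t => XH (fun y => a t * b y)) (fun s => φ (A s) x) := by
      intro s _
      have h5 : HasDerivAt (fun s => φ (A s) x) (a s • XH b (φ (A s) x)) s :=
        (hφ.der (A s) x).scomp s (hAd s)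
      rw [← XH_const_mul (hbd _) (a s)] at h5
      exact h5.hasDerivWithinAt
    have h6 : (fun s => ψ s x) 0 = (fun s => φ (A s) x) 0 := by
      change ψ 0 x = φ (A 0) x
      have h7 : A 0 = 0 := by simp [hA]
      rw [h7, hφ.zero, h.zero]
    have h8 := hadm.good.unique hα hβ (left_mem_Icc.2 zero_le_one) h6
      (right_mem_Icc.2 zero_le_one)
    change ψ 1 x = φ (A 1) x at h8
    have h9 : A 1 = 0 := h0
    rw [h8, h9, hφ.zero]
  have h10 : tm h = 1 := by
    apply Subtype.ext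
    apply Homeomorph.ext
    intro x
    rw [tm_apply, key x]
    rfl
  rw [h10]
  exact N.one_mem

end Pool.Agent.W_68f289_h35

end

section

/-!
Moving bumps, finite sums.
-/

open Set Metric Topology Pool.Agent.W_MP_68f289_gt MeasureTheory Filter
open scoped NNReal ContDiff

namespace Pool.Agent.W_68f289_h35

variable {n : ℕ}

lemma CoA_ad {β : E n → ℝ} (hβ : ContDiff ℝ ((⊤ : ℕ∞) : WithTop ℕ∞) β) {ρ : ℝ}
    (h0 : ∀ x, x ∉ closedBall 0 ρ → β x = 0) {p : E n} (hp : closedBall p ρ ⊆ Bl n)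
    {a : ℝ → ℝ} (ha : ContDiff ℝ ((⊤ : ℕ∞) : WithTop ℕ∞) a) :
    Ad (fun t x => a t * β (x - p)) := by
  refine ⟨?_, closedBall p ρ, isCompact_closedBall p ρ, hp, ?_⟩
  · exact (ha.comp contDiff_fst).mul (hβ.comp (contDiff_snd.sub contDiff_const))
  · intro t x hx
    have h1 : x - p ∉ closedBall 0 ρ := by
      rw [mem_closedBall, dist_zero_right]
      rw [mem_closedBall, dist_eq_norm] at hx
      exact hx
    change a t * β (x - p) = 0
    rw [h0 _ h1, mul_zero]

section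

variable (hn : 1 ≤ n) {N : Subgroup (Hm n)} (hN : N.Normal) (hN1 : N ≠ ⊥) (hNc : HClosed N)

include hn hN hN1 hNc

/-- moving a bump: `a t * (β (x - p) - β (x - q))` is in `Zn N`. Take `g` from `exists_translation`
(from `closedBall q ρ`... to `closedBall p ρ`): `β (g x - p) = β (x - q)` for all `x`, on the ball
because `g` is the translation, off the ball because then `g x ∉ closedBall p ρ`; `Zn.conj`. -/
lemma zn_move {β : E n → ℝ} (hβ : ContDiff ℝ ((⊤ : ℕ∞) : WithTop ℕ∞) β) {ρ : ℝ} (hρ : 0 < ρ)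
    (h0 : ∀ x, x ∉ closedBall 0 ρ → β x = 0) {p q : E n} (hp : closedBall p ρ ⊆ Bl n)
    (hq : closedBall q ρ ⊆ Bl n) {a : ℝ → ℝ} (ha : ContDiff ℝ ((⊤ : ℕ∞) : WithTop ℕ∞) a) :
    Zn N (fun t x => a t * β (x - p) - a t * β (x - q)) := by
  obtain ⟨g, hg, hgx⟩ := exists_translation hρ hq hp
  have h1 := Zn.conj hn hN hN1 hNc (CoA_ad hβ h0 hp ha) hg
  have h2 : ∀ x, β (g x - p) = β (x - q) := by
    intro x
    by_cases hx : x ∈ closedBall q ρ
    · rw [hgx x hx]
      congr 1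
      abel
    · have h3 : x - q ∉ closedBall (0 : E n) ρ := by
        rw [mem_closedBall, dist_zero_right]
        rw [mem_closedBall, dist_eq_norm] at hx
        exact hx
      have h4 : g x - p ∉ closedBall (0 : E n) ρ := by
        intro h5
        apply hx
        have h6 : g x - (p - q) ∈ closedBall q ρ := by
          rw [mem_closedBall, dist_zero_right] at h5
          rw [mem_closedBall, dist_eq_norm]
          have e : g x - (p - q) - q = g x - p := by abel
          rw [e]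
          exact h5
        have h7 := hgx _ h6
        rw [sub_add_cancel] at h7
        have h8 := g.injective h7
        rwa [h8] at h6
      rw [h0 _ h3, h0 _ h4]
  have h3 : (fun t x => a t * β (x - p) - a t * β (x - q)) =
      fun t x => (fun t x => a t * β (x - p)) t x - (fun t x => a t * β (x - p)) t (g x) := by
    funext t x
    change a t * β (x - p) - a t * β (x - q) = a t * β (x - p) - a t * β (g x - p)
    rw [h2]
  rw [h3]
  exact h1

/-- finite sums -/
lemma zn_sum {m : ℕ} {F : Fin m → ℝ → E n → ℝ} (hF : ∀ j, Zn N (F j)) :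
    Zn N (fun t x => ∑ j, F j t x) := by
  induction m with
  | zero =>
    have hb : Ad (fun _ : ℝ => fun _ : E n => (0 : ℝ)) :=
      ⟨contDiff_const, ∅, isCompact_empty, empty_subset _, fun _ _ _ => rfl⟩
    have h1 := Zn.time (N := N) (a := fun _ => (0 : ℝ)) contDiff_const (by simp) hb
    have h2 : (fun (t : ℝ) (x : E n) => ∑ j : Fin 0, F j t x) =
        fun t x => (fun _ => (0 : ℝ)) t * (fun _ : E n => (0 : ℝ)) x := by
      funext t x
      simp
    rw [h2]
    exact h1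
  | succ m ih =>
    have h1 := Zn.add hn hN hN1 hNc (hF 0) (ih (F := fun j => F j.succ) fun j => hF j.succ)
    have h2 : (fun (t : ℝ) (x : E n) => ∑ j : Fin (m + 1), F j t x) =
        fun t x => F 0 t x + (fun t x => ∑ j : Fin m, F j.succ t x) t x := by
      funext t x
      rw [Fin.sum_univ_succ]
    rw [h2]
    exact h1

end

end Pool.Agent.W_68f289_h35

end

section

/-!
Hamiltonians with integral zero.
-/

open Set Metric Topology Pool.Agent.W_MP_68f289_gt MeasureTheory Filter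
open scoped NNReal ContDiff

namespace Pool.Agent.W_68f289_h35

variable {n : ℕ}

section

variable (hn : 1 ≤ n) {N : Subgroup (Hm n)} (hN : N.Normal) (hN1 : N ≠ ⊥) (hNc : HClosed N)

include hn hN hN1 hNc

/-- Hamiltonians with integral zero. By `approx`, `H` is `C¹`-close to
`∑ a j t β (x - p j)`, which is the sum of the `a j t β (x - p j) - a j t β (x - q)` (`zn_move`), of
`(∑ a j t - s) β (x - q)`, `s = ∫ ∑ a j`, (`Zn.time`), and of `s β (x - q)`, which is `C¹`-small.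
Conclude by `Zn.closed`. -/
theorem zn_of_cal_zero {H : ℝ → E n → ℝ} (hH : Ad H) (h0 : cal H = 0) : Zn N H := by
  obtain ⟨hH1, K, hc, hKB, hK⟩ := hH
  obtain ⟨K', hc', hKB', hKK', happ⟩ := approx hH1 hc hKB hK h0
  refine Zn.closed hn hN hN1 hNc hH1 hc' hKB' (fun t x hx => hK t x (fun h => hx (hKK' h))) ?_
  intro ε hε
  obtain ⟨m, β, ρ, p, q, a, hρ, hβ, hβ0, hq, hp, ha, h1, h2, h3, h4⟩ := happ (ε / 2) (by linarith)
  set s : ℝ := ∫ t in (0 : ℝ)..1, ∑ j, a j t with hs
  have hsum : ContDiff ℝ ((⊤ : ℕ∞) : WithTop ℕ∞) (fun t => ∑ j, a j t) :=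
    ContDiff.sum fun j _ => ha j
  have hβq : ContDiff ℝ ((⊤ : ℕ∞) : WithTop ℕ∞) (fun x : E n => β (x - q)) :=
    hβ.comp (contDiff_id.sub contDiff_const)
  have hvan : ∀ c : E n, closedBall c ρ ⊆ K' → ∀ x, x ∉ K' → β (x - c) = 0 := by
    intro c hcK x hx
    apply hβ0
    intro hx'
    apply hx
    apply hcK
    rw [mem_closedBall, dist_zero_right] at hx'
    rw [mem_closedBall, dist_eq_norm]
    exact hx'
  have hmove : Zn N (fun t x => ∑ j, (a j t * β (x - p j) - a j t * β (x - q))) :=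
    zn_sum hn hN hN1 hNc (F := fun j t x => a j t * β (x - p j) - a j t * β (x - q))
      fun j => zn_move hn hN hN1 hNc hβ hρ hβ0 ((hp j).trans hKB') (hq.trans hKB') (ha j)
  have htime : Zn N (fun t x => ((∑ j, a j t) - s) * β (x - q)) := by
    refine Zn.time (a := fun t => (∑ j, a j t) - s) (b := fun x => β (x - q))
      (hsum.sub contDiff_const) ?_ ?_
    · rw [intervalIntegral.integral_sub (hsum.continuous.intervalIntegrable _ _)
        intervalIntegrable_const, ← hs]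
      simp
    · refine ⟨?_, K', hc', hKB', fun t x hx => hvan q hq x hx⟩
      exact hβq.comp contDiff_snd
  have hadd := Zn.add hn hN hN1 hNc hmove htime
  have hform : ∀ t x, (∑ j, (a j t * β (x - p j) - a j t * β (x - q))) +
      ((∑ j, a j t) - s) * β (x - q) = (∑ j, a j t * β (x - p j)) - s * β (x - q) := by
    intro t x
    rw [Finset.sum_sub_distrib, ← Finset.sum_mul]
    ring
  refine ⟨_, hadd, ?_, ?_, ?_⟩
  · intro t x hx
    rw [hform, hvan q hq x hx, mul_zero, sub_zero]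
    exact Finset.sum_eq_zero fun j _ => by rw [hvan (p j) (hp j) x hx, mul_zero]
  · intro t ht x
    rw [hform]
    have e1 : H t x - ((∑ j, a j t * β (x - p j)) - s * β (x - q)) =
        (H t x - ∑ j, a j t * β (x - p j)) + s * β (x - q) := by ring
    rw [e1]
    calc |(H t x - ∑ j, a j t * β (x - p j)) + s * β (x - q)|
        ≤ |H t x - ∑ j, a j t * β (x - p j)| + |s * β (x - q)| := abs_add_le _ _
      _ ≤ ε / 2 + ε / 2 := add_le_add (h1 t ht x) (h3 (x - q))
      _ = ε := by ring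
  · intro t ht x
    have e1 : (fun x => H t x - ((∑ j, (a j t * β (x - p j) - a j t * β (x - q))) +
        ((∑ j, a j t) - s) * β (x - q))) =
        fun x => (H t x - ∑ j, a j t * β (x - p j)) + s * β (x - q) := by
      funext x
      rw [hform]
      ring
    have hHt : Differentiable ℝ (fun x => H t x) := by
      have h5 : ContDiff ℝ ((⊤ : ℕ∞) : WithTop ℕ∞) (fun x => H t x) :=
        hH1.comp (contDiff_const.prodMk contDiff_id)
      exact h5.differentiable (by simp)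
    have hd1 : DifferentiableAt ℝ (fun x => H t x - ∑ j, a j t * β (x - p j)) x := by
      refine (hHt x).sub ?_
      refine DifferentiableAt.fun_sum fun j _ => ?_
      have h6 : ContDiff ℝ ((⊤ : ℕ∞) : WithTop ℕ∞) (fun x : E n => β (x - p j)) :=
        hβ.comp (contDiff_id.sub contDiff_const)
      exact ((h6.differentiable (by simp)) x).const_mul _
    have hd2 : DifferentiableAt ℝ (fun x : E n => β (x - q)) x :=
      (hβq.differentiable (by simp)) x
    have e2 : fderiv ℝ (fun x => (H t x - ∑ j, a j t * β (x - p j)) + s * β (x - q)) x =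
        fderiv ℝ (fun x => H t x - ∑ j, a j t * β (x - p j)) x + s • fderiv ℝ β (x - q) := by
      rw [fderiv_fun_add hd1 (hd2.const_mul s), fderiv_const_mul hd2, fderiv_comp_sub]
    rw [e1, e2]
    calc ‖fderiv ℝ (fun x => H t x - ∑ j, a j t * β (x - p j)) x + s • fderiv ℝ β (x - q)‖
        ≤ ‖fderiv ℝ (fun x => H t x - ∑ j, a j t * β (x - p j)) x‖ +
          ‖s • fderiv ℝ β (x - q)‖ := norm_add_le _ _
      _ ≤ ε / 2 + ε / 2 := add_le_add (h2 t ht x) (h4 (x - q))
      _ = ε := by ring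

end

end Pool.Agent.W_68f289_h35

end
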